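import Pool.Agent.R695.TR.Stm

namespace Pool.Agent.R695.TR

open Finset
open scoped Classical

namespace CHaux

theorem CA_symm {n i j : ℕ} (h : CA n i j) : CA n j i := by
  unfold CA at *; tauto

theorem mkc {V : Type} {L : SimpleGraph V} {n : ℕ} {x : ℕ → V} (h : Cyc L n x) (m : ℕ)
    (σ : ℕ → ℕ) (h3 : 3 ≤ m) (hlt : ∀ t, t < m → σ t < n)
    (hinj : ∀ s t, s < m → t < m → σ s = σ t → s = t)
    (hadj : ∀ t, t + 1 < m → L.Adj (x (σ t)) (x (σ (t + 1))))
    (hcl : L.Adj (x (σ (m - 1))) (x (σ 0))) : Cyc L m (fun t => x (σ t)) where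
  h3 := h3
  inj := fun s t hs ht e => hinj s t hs ht (h.inj _ _ (hlt s hs) (hlt t ht) e)
  adj := hadj
  cl := hcl

theorem core {V : Type} {L : SimpleGraph V} {n : ℕ} {x : ℕ → V} (h : Cyc L n x) (hev : Even n)
    (hmin : ∀ m y, Cyc L m y → Even m → (∀ t, t < m → ∃ s, s < n ∧ y t = x s) → n ≤ m)
    {i j k l : ℕ} (hij : i < j) (hkl : k < l) (hik : i < k) (hj : j < n) (hl : l < n)
    (hjk : j ≠ k) (hjl : j ≠ l) (a1 : L.Adj (x i) (x j)) (a2 : L.Adj (x k) (x l))
    (c1 : ¬ CA n i j) (c2 : ¬ CA n k l) : n = 4 := by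
  obtain ⟨N, hN⟩ := hev
  -- parity
  have par : ∀ a b, a < b → b < n → L.Adj (x a) (x b) → ¬ CA n a b → ∃ e, b = a + 2 * e := by
    intro a b hab hb hA hC
    unfold CA at hC
    rcases Nat.even_or_odd (b - a) with he | ho
    · obtain ⟨e, he⟩ := he
      exact ⟨e, by omega⟩
    · exfalso
      obtain ⟨e, he⟩ := ho
      have hcyc : Cyc L (b - a + 1) (fun t => x (a + t)) := by
        refine mkc h (b - a + 1) (fun t => a + t) (by omega) (fun t ht => by omega)
          (fun s t _ _ e => by simpa using e) (fun t ht => ?_) ?_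
        · exact h.adj (a + t) (by omega)
        · have : a + (b - a + 1 - 1) = b := by omega
          simp only [this, add_zero]
          exact hA.symm
      have := hmin _ _ hcyc ⟨e + 1, by omega⟩ (fun t ht => ⟨a + t, by omega, rfl⟩)
      omega
  obtain ⟨e1, he1⟩ := par i j hij hj a1 c1
  obtain ⟨e2, he2⟩ := par k l hkl hl a2 c2
  have f1 : i + 2 ≤ j := by unfold CA at c1; omega
  have f2 : k + 2 ≤ l := by unfold CA at c2; omega
  clear c1 c2 par
  have up : ∀ a b, a + 1 = b → b < n → L.Adj (x a) (x b) := by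
    rintro a b rfl hb
    exact h.adj a hb
  have dn : ∀ a b, b + 1 = a → a < n → L.Adj (x a) (x b) := by
    rintro a b rfl hb
    exact (h.adj b hb).symm
  have wr : ∀ a b, a = n - 1 → b = 0 → L.Adj (x a) (x b) := by
    rintro a b rfl rfl
    exact h.cl
  have q1 : ∀ a b, a = i → b = j → L.Adj (x a) (x b) := by
    rintro a b rfl rfl
    exact a1
  have q2 : ∀ a b, a = j → b = i → L.Adj (x a) (x b) := by
    rintro a b rfl rfl
    exact a1.symm
  have q3 : ∀ a b, a = k → b = l → L.Adj (x a) (x b) := by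
    rintro a b rfl rfl
    exact a2
  have q4 : ∀ a b, a = l → b = k → L.Adj (x a) (x b) := by
    rintro a b rfl rfl
    exact a2.symm
  have use : ∀ (m : ℕ) (σ : ℕ → ℕ), 3 ≤ m → Even m → (∀ t, t < m → σ t < n) →
      (∀ s t, s < m → t < m → σ s = σ t → s = t) →
      (∀ t, t + 1 < m → L.Adj (x (σ t)) (x (σ (t + 1)))) →
      L.Adj (x (σ (m - 1))) (x (σ 0)) → n ≤ m := by
    intro m σ h3 hm hlt hinj hadj hcl
    exact hmin m _ (mkc h m σ h3 hlt hinj hadj hcl) hm (fun t ht => ⟨σ t, hlt t ht, rfl⟩)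
  rcases lt_or_gt_of_ne hjk with hjk' | hjk'
  · -- disjoint
    exfalso
    have := use ((i + 1) + (k - j + 1) + (n - l))
      (fun t => if t ≤ i then t else if t ≤ i + 1 + (k - j) then t - (i + 1) + j
        else t - (i + 1 + (k - j + 1)) + l) (by omega)
      ⟨(i + 1 + (k - j + 1) + (n - l)) / 2, by omega⟩
      (fun t ht => by split_ifs <;> omega)
      (fun s t hs ht e => by split_ifs at e <;> omega)
      (fun t ht => by
        split_ifs <;> first
        | (exfalso; omega)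
        | (refine up _ _ ?_ ?_ <;> omega)
        | (refine dn _ _ ?_ ?_ <;> omega)
        | (refine q1 _ _ ?_ ?_ <;> omega)
        | (refine q2 _ _ ?_ ?_ <;> omega)
        | (refine q3 _ _ ?_ ?_ <;> omega)
        | (refine q4 _ _ ?_ ?_ <;> omega)
        | (refine wr _ _ ?_ ?_ <;> omega))
      (by
        split_ifs <;> first
        | (exfalso; omega)
        | (refine up _ _ ?_ ?_ <;> omega)
        | (refine dn _ _ ?_ ?_ <;> omega)
        | (refine q1 _ _ ?_ ?_ <;> omega)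
        | (refine q2 _ _ ?_ ?_ <;> omega)
        | (refine q3 _ _ ?_ ?_ <;> omega)
        | (refine q4 _ _ ?_ ?_ <;> omega)
        | (refine wr _ _ ?_ ?_ <;> omega))
    omega
  · rcases lt_or_gt_of_ne hjl with hjl' | hjl'
    · -- crossing
      have r1 := use ((k - i + 1) + (l - j + 1))
        (fun t => if t ≤ k - i then i + t else l - (t - (k - i + 1))) (by omega)
        ⟨((k - i + 1) + (l - j + 1)) / 2, by omega⟩
        (fun t ht => by split_ifs <;> omega)
        (fun s t hs ht e => by split_ifs at e <;> omega)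
        (fun t ht => by
        split_ifs <;> first
        | (exfalso; omega)
        | (refine up _ _ ?_ ?_ <;> omega)
        | (refine dn _ _ ?_ ?_ <;> omega)
        | (refine q1 _ _ ?_ ?_ <;> omega)
        | (refine q2 _ _ ?_ ?_ <;> omega)
        | (refine q3 _ _ ?_ ?_ <;> omega)
        | (refine q4 _ _ ?_ ?_ <;> omega)
        | (refine wr _ _ ?_ ?_ <;> omega))
        (by
        split_ifs <;> first
        | (exfalso; omega)
        | (refine up _ _ ?_ ?_ <;> omega)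
        | (refine dn _ _ ?_ ?_ <;> omega)
        | (refine q1 _ _ ?_ ?_ <;> omega)
        | (refine q2 _ _ ?_ ?_ <;> omega)
        | (refine q3 _ _ ?_ ?_ <;> omega)
        | (refine q4 _ _ ?_ ?_ <;> omega)
        | (refine wr _ _ ?_ ?_ <;> omega))
      have r2 := use ((i + 1) + (j - k + 1) + (n - l))
        (fun t => if t ≤ i then t else if t ≤ i + 1 + (j - k) then j - (t - (i + 1))
          else t - (i + 1 + (j - k + 1)) + l) (by omega)
        ⟨((i + 1) + (j - k + 1) + (n - l)) / 2, by omega⟩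
        (fun t ht => by split_ifs <;> omega)
        (fun s t hs ht e => by split_ifs at e <;> omega)
        (fun t ht => by
        split_ifs <;> first
        | (exfalso; omega)
        | (refine up _ _ ?_ ?_ <;> omega)
        | (refine dn _ _ ?_ ?_ <;> omega)
        | (refine q1 _ _ ?_ ?_ <;> omega)
        | (refine q2 _ _ ?_ ?_ <;> omega)
        | (refine q3 _ _ ?_ ?_ <;> omega)
        | (refine q4 _ _ ?_ ?_ <;> omega)
        | (refine wr _ _ ?_ ?_ <;> omega))
        (by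
        split_ifs <;> first
        | (exfalso; omega)
        | (refine up _ _ ?_ ?_ <;> omega)
        | (refine dn _ _ ?_ ?_ <;> omega)
        | (refine q1 _ _ ?_ ?_ <;> omega)
        | (refine q2 _ _ ?_ ?_ <;> omega)
        | (refine q3 _ _ ?_ ?_ <;> omega)
        | (refine q4 _ _ ?_ ?_ <;> omega)
        | (refine wr _ _ ?_ ?_ <;> omega))
      omega
    · -- nested
      exfalso
      have := use ((k - i + 1) + (j - l + 1))
        (fun t => if t ≤ k - i then i + t else l + (t - (k - i + 1))) (by omega)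
        ⟨((k - i + 1) + (j - l + 1)) / 2, by omega⟩
        (fun t ht => by split_ifs <;> omega)
        (fun s t hs ht e => by split_ifs at e <;> omega)
        (fun t ht => by
        split_ifs <;> first
        | (exfalso; omega)
        | (refine up _ _ ?_ ?_ <;> omega)
        | (refine dn _ _ ?_ ?_ <;> omega)
        | (refine q1 _ _ ?_ ?_ <;> omega)
        | (refine q2 _ _ ?_ ?_ <;> omega)
        | (refine q3 _ _ ?_ ?_ <;> omega)
        | (refine q4 _ _ ?_ ?_ <;> omega)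
        | (refine wr _ _ ?_ ?_ <;> omega))
        (by
        split_ifs <;> first
        | (exfalso; omega)
        | (refine up _ _ ?_ ?_ <;> omega)
        | (refine dn _ _ ?_ ?_ <;> omega)
        | (refine q1 _ _ ?_ ?_ <;> omega)
        | (refine q2 _ _ ?_ ?_ <;> omega)
        | (refine q3 _ _ ?_ ?_ <;> omega)
        | (refine q4 _ _ ?_ ?_ <;> omega)
        | (refine wr _ _ ?_ ?_ <;> omega))
      omega

/-- a vertex is the end of at most one chord -/
theorem chord_unique {V : Type} [Fintype V] {L : SimpleGraph V}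
    (hd : ∀ x y, L.Adj x y → {z | L.Adj x z}.ncard = 3) {n : ℕ} {x : ℕ → V} (h : Cyc L n x)
    {i j k : ℕ} (hi : i < n) (hj : j < n) (hk : k < n) (a1 : L.Adj (x i) (x j))
    (a2 : L.Adj (x i) (x k)) (c1 : ¬ CA n i j) (c2 : ¬ CA n i k) : j = k := by
  by_contra hne
  have h3 := h.h3
  obtain ⟨p, hp, hap, hcp, hps⟩ : ∃ p, p < n ∧ L.Adj (x i) (x p) ∧ CA n i p ∧
      (p + 1 = i ∨ (i = 0 ∧ p = n - 1)) := by
    rcases Nat.eq_zero_or_pos i with rfl | h0
    · exact ⟨n - 1, by omega, h.cl.symm, Or.inr (Or.inr (Or.inl ⟨rfl, rfl⟩)), Or.inr ⟨rfl, rfl⟩⟩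
    · refine ⟨i - 1, by omega, ?_, Or.inr (Or.inl (by omega)), Or.inl (by omega)⟩
      have := h.adj (i - 1) (by omega)
      have e : i - 1 + 1 = i := by omega
      rw [e] at this
      exact this.symm
  obtain ⟨s, hs, has, hcs, hss⟩ : ∃ s, s < n ∧ L.Adj (x i) (x s) ∧ CA n i s ∧
      (s = i + 1 ∨ (i = n - 1 ∧ s = 0)) := by
    rcases Nat.lt_or_ge (i + 1) n with h0 | h0
    · exact ⟨i + 1, h0, h.adj i h0, Or.inl rfl, Or.inl rfl⟩
    · have e : i = n - 1 := by omega
      refine ⟨0, by omega, ?_, Or.inr (Or.inr (Or.inr ⟨rfl, e⟩)), Or.inr ⟨e, rfl⟩⟩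
      rw [e]; exact h.cl
  have hps' : p ≠ s := by omega
  have n1 : x p ≠ x s := fun e => hps' (h.inj _ _ hp hs e)
  have n2 : x p ≠ x j := fun e => c1 ((h.inj _ _ hp hj e) ▸ hcp)
  have n3 : x p ≠ x k := fun e => c2 ((h.inj _ _ hp hk e) ▸ hcp)
  have n4 : x s ≠ x j := fun e => c1 ((h.inj _ _ hs hj e) ▸ hcs)
  have n5 : x s ≠ x k := fun e => c2 ((h.inj _ _ hs hk e) ▸ hcs)
  have n6 : x j ≠ x k := fun e => hne (h.inj _ _ hj hk e)
  have hle : (({x p, x s, x j, x k} : Finset V) : Set V).ncard ≤ {z | L.Adj (x i) z}.ncard := by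
    refine Set.ncard_le_ncard ?_ (Set.toFinite _)
    intro z hz
    simp only [coe_insert, coe_singleton, Set.mem_insert_iff, Set.mem_singleton_iff] at hz
    rcases hz with rfl | rfl | rfl | rfl
    · exact hap
    · exact has
    · exact a1
    · exact a2
  rw [hd _ _ a1, Set.ncard_coe_finset] at hle
  have hc : ({x p, x s, x j, x k} : Finset V).card = 4 := by
    rw [card_insert_of_notMem (by simp [n1, n2, n3]), card_insert_of_notMem (by simp [n4, n5]),
      card_insert_of_notMem (by simp [n6]), card_singleton]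
  omega

end CHaux

open CHaux in
/-- Sub-cycles of an even cycle with few chords. -/
theorem CH_ok : S_CH := by
  intro V _ L hd n0 x0 h0 hev0
  -- a shortest even cycle with vertices among the `x0 j`
  let P : ℕ → Prop := fun n' => ∃ x', Cyc L n' x' ∧ Even n' ∧ ∀ i, i < n' → ∃ j, j < n0 ∧ x' i = x0 j
  have hP : ∃ n', P n' := ⟨n0, x0, h0, hev0, fun i hi => ⟨i, hi, rfl⟩⟩
  obtain ⟨x, h, hev, hsub⟩ := Nat.find_spec hP
  set n := Nat.find hP with hn
  have hmin : ∀ m y, Cyc L m y → Even m → (∀ t, t < m → ∃ s, s < n ∧ y t = x s) → n ≤ m := by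
    intro m y hy hm hs
    refine Nat.find_min' hP ⟨y, hy, hm, fun i hi => ?_⟩
    obtain ⟨s, hs1, hs2⟩ := hs i hi
    obtain ⟨j, hj1, hj2⟩ := hsub s hs1
    exact ⟨j, hj1, hs2.trans hj2⟩
  refine ⟨n, x, h, hev, hsub, ?_⟩
  by_contra hcon
  push Not at hcon
  obtain ⟨hc1, hc2⟩ := hcon
  obtain ⟨a, b, c, ha, hb, hc, hab, hac, hbc⟩ := Finset.two_lt_card_iff.1 hc1
  simp only [mem_filter, mem_range] at ha hb hc
  -- two disjoint chords
  obtain ⟨a', ha'1, ha'2, ha'3⟩ := ha.2
  obtain ⟨k, hk, hka, hka'⟩ : ∃ k, (k < n ∧ Chd L n x k) ∧ k ≠ a ∧ k ≠ a' := by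
    by_cases e : b = a'
    · exact ⟨c, hc, fun h => hac h.symm, fun h => hbc (e.trans h.symm)⟩
    · exact ⟨b, hb, fun h => hab h.symm, e⟩
  obtain ⟨hk0, k', hk'1, hk'2, hk'3⟩ := hk
  have hk'a : k' ≠ a := by
    rintro rfl
    exact hka' (chord_unique hd h ha.1 hk0 ha'1 hk'2.symm ha'2 (fun h => hk'3 (CA_symm h)) ha'3)
  have hk'a' : k' ≠ a' := by
    rintro rfl
    exact hka (chord_unique hd h ha'1 hk0 ha.1 hk'2.symm ha'2.symm (fun h => hk'3 (CA_symm h))
      (fun h => ha'3 (CA_symm h)))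
  have haa' : a ≠ a' := fun e => by rw [← e] at ha'2; exact L.ne_of_adj ha'2 rfl
  have hkk' : k ≠ k' := fun e => by rw [← e] at hk'2; exact L.ne_of_adj hk'2 rfl
  -- order each chord
  obtain ⟨i, j, hij, hj, A1, C1, hij'⟩ : ∃ i j, i < j ∧ j < n ∧ L.Adj (x i) (x j) ∧ ¬ CA n i j ∧
      ((i = a ∧ j = a') ∨ (i = a' ∧ j = a)) := by
    rcases lt_or_gt_of_ne haa' with e | e
    · exact ⟨a, a', e, ha'1, ha'2, ha'3, Or.inl ⟨rfl, rfl⟩⟩
    · exact ⟨a', a, e, ha.1, ha'2.symm, fun h => ha'3 (CA_symm h), Or.inr ⟨rfl, rfl⟩⟩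
  obtain ⟨u, v, huv, hv, A2, C2, huv'⟩ : ∃ u v, u < v ∧ v < n ∧ L.Adj (x u) (x v) ∧ ¬ CA n u v ∧
      ((u = k ∧ v = k') ∨ (u = k' ∧ v = k)) := by
    rcases lt_or_gt_of_ne hkk' with e | e
    · exact ⟨k, k', e, hk'1, hk'2, hk'3, Or.inl ⟨rfl, rfl⟩⟩
    · exact ⟨k', k, e, hk0, hk'2.symm, fun h => hk'3 (CA_symm h), Or.inr ⟨rfl, rfl⟩⟩
  have hiu : i ≠ u := by omega
  rcases lt_or_gt_of_ne hiu with e | e
  · exact hc2 (core h hev hmin hij huv e hj hv (by omega) (by omega) A1 A2 C1 C2)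
  · exact hc2 (core h hev hmin huv hij e hv hj (by omega) (by omega) A2 A1 C2 C1)

end Pool.Agent.R695.TR
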