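import Pool.Agent.R695.TR.Stm

/-! Piece TR-CNT: counting components after deleting bridges. -/

namespace Pool.Agent.R695.TR

namespace CNTaux

open Finset
open scoped Classical

/-- The map of components induced by an inclusion of graphs. -/
noncomputable def cmap {V : Type} {H' H : SimpleGraph V} (h : H' ≤ H) :
    H'.ConnectedComponent → H.ConnectedComponent :=
  SimpleGraph.ConnectedComponent.map (SimpleGraph.Hom.ofLE h)

lemma cmap_mk {V : Type} {H' H : SimpleGraph V} (h : H' ≤ H) (v : V) :
    cmap h (H'.connectedComponentMk v) = H.connectedComponentMk v := rfl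

lemma cmap_surj {V : Type} {H' H : SimpleGraph V} (h : H' ≤ H) :
    Function.Surjective (cmap h) := by
  intro c
  induction c using SimpleGraph.ConnectedComponent.ind with
  | _ v => exact ⟨H'.connectedComponentMk v, cmap_mk h v⟩

lemma step1 {V : Type} [Fintype V] (L : SimpleGraph V) (B : Finset (Sym2 V)) :
    (∀ e ∈ B, e ∈ L.edgeSet ∧ L.IsBridge e) →
    Nat.card L.ConnectedComponent + B.card ≤
      Nat.card (L.deleteEdges (B : Set (Sym2 V))).ConnectedComponent := by
  induction B using Finset.induction_on with
  | empty =>
    intro _
    simp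
  | insert e B he ih =>
    intro hB
    have ih' := ih (fun e' he' => hB e' (Finset.mem_insert_of_mem he'))
    rw [Finset.card_insert_of_notMem he]
    have hle : L.deleteEdges ((insert e B : Finset (Sym2 V)) : Set (Sym2 V)) ≤
        L.deleteEdges (B : Set (Sym2 V)) := by
      apply SimpleGraph.deleteEdges_anti
      intro x hx
      simp only [Finset.coe_insert, Set.mem_insert_iff, Finset.mem_coe] at *
      exact Or.inr hx
    have hlt : Nat.card (L.deleteEdges (B : Set (Sym2 V))).ConnectedComponent <
        Nat.card (L.deleteEdges ((insert e B : Finset (Sym2 V)) : Set (Sym2 V))).ConnectedComponent := by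
      rw [Nat.card_eq_fintype_card, Nat.card_eq_fintype_card]
      refine Fintype.card_lt_of_surjective_not_injective (cmap hle) (cmap_surj hle) ?_
      intro hinj
      obtain ⟨hem, hbr⟩ := hB e (Finset.mem_insert_self _ _)
      induction e using Sym2.ind with
      | _ a b =>
        have hab : (L.deleteEdges (B : Set (Sym2 V))).Adj a b := by
          rw [SimpleGraph.deleteEdges_adj]
          exact ⟨hem, fun h => he h⟩
        have h1 : cmap hle ((L.deleteEdges _).connectedComponentMk a) =
            cmap hle ((L.deleteEdges _).connectedComponentMk b) := by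
          rw [cmap_mk, cmap_mk]
          exact SimpleGraph.ConnectedComponent.sound hab.reachable
        have h2 := SimpleGraph.ConnectedComponent.exact (hinj h1)
        rw [SimpleGraph.isBridge_iff] at hbr
        apply hbr
        refine h2.mono ?_
        apply SimpleGraph.deleteEdges_anti
        intro x hx
        rw [Set.mem_singleton_iff] at hx
        subst hx
        simp
    omega

/-- the set of bridges -/
noncomputable def Bs {V : Type} [Fintype V] (L : SimpleGraph V) : Finset (Sym2 V) :=
  univ.filter (fun e => e ∈ L.edgeSet ∧ L.IsBridge e)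

lemma nb_eq {V : Type} [Fintype V] (L : SimpleGraph V) :
    nb L = L.deleteEdges (Bs L : Set (Sym2 V)) := by
  ext x y
  rw [SimpleGraph.deleteEdges_adj]
  simp only [nb, Bs, Finset.coe_filter, Finset.mem_univ, true_and, Set.mem_ofPred_eq,
    SimpleGraph.mem_edgeSet]
  tauto

/-- the graph of the bridges -/
noncomputable def BG {V : Type} (L : SimpleGraph V) : SimpleGraph V where
  Adj x y := Br L x y
  symm := ⟨fun x y h => ⟨h.1.symm, by rw [Sym2.eq_swap]; exact h.2⟩⟩
  loopless := ⟨fun _ h => L.ne_of_adj h.1 rfl⟩

lemma sum_br {V : Type} [Fintype V] (L : SimpleGraph V) :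
    ∑ x : V, (univ.filter (fun y => Br L x y)).card = 2 * (Bs L).card := by
  have h := SimpleGraph.sum_degrees_eq_twice_card_edges (BG L)
  have h1 : (BG L).edgeFinset = Bs L := by
    ext e
    induction e using Sym2.ind with
    | _ a b =>
      rw [SimpleGraph.mem_edgeFinset, SimpleGraph.mem_edgeSet]
      simp only [BG, Br, Bs, Finset.mem_filter, Finset.mem_univ, true_and,
        SimpleGraph.mem_edgeSet]
  rw [h1] at h
  rw [← h]
  refine Finset.sum_congr rfl fun x _ => ?_
  rw [← SimpleGraph.card_neighborFinset_eq_degree]
  congr 1
  ext y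
  simp [BG]

lemma reach_T0 {V : Type} (L : SimpleGraph V) {v w : V} (p : L.Walk v w) :
    (∀ x, (nb L).Reachable v x → ¬ BI L x) → (nb L).Reachable v w := by
  induction p with
  | nil => intro _; exact SimpleGraph.Reachable.refl _
  | @cons a b c hab q ih =>
    intro h
    have hadj : (nb L).Adj a b := by
      refine ⟨hab, fun hb => h a (SimpleGraph.Reachable.refl _) ⟨b, hab, hb⟩⟩
    have := ih (fun x hx => h x (hadj.reachable.trans hx))
    exact hadj.reachable.trans this

end CNTaux

open CNTaux

open Finset
open scoped Classical

theorem CNT_ok : S_CNT := by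
  intro V _ L hBI
  obtain ⟨a, ha⟩ := hBI
  rw [sum_br]
  have hle : nb L ≤ L := fun x y h => h.1
  have hs1 := step1 L (Bs L) (fun e he => by
    simpa only [Bs, Finset.mem_filter, Finset.mem_univ, true_and] using he)
  rw [← nb_eq] at hs1
  rw [Nat.card_eq_fintype_card, Nat.card_eq_fintype_card] at hs1
  have hsplit := Finset.card_filter_add_card_filter_not (s := (univ : Finset (nb L).ConnectedComponent))
    (fun c => ∃ x, (nb L).connectedComponentMk x = c ∧ BI L x)
  rw [Finset.card_univ] at hsplit
  have hT0 : (univ.filter (fun c : (nb L).ConnectedComponent =>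
      ¬ ∃ x, (nb L).connectedComponentMk x = c ∧ BI L x)).card ≤
      ((univ : Finset L.ConnectedComponent).erase (L.connectedComponentMk a)).card := by
    have hkey : ∀ v w : V, (¬ ∃ x, (nb L).connectedComponentMk x = (nb L).connectedComponentMk v ∧
        BI L x) → L.connectedComponentMk v = L.connectedComponentMk w →
        (nb L).Reachable v w := by
      intro v w hv hvw
      obtain ⟨p⟩ := SimpleGraph.ConnectedComponent.exact hvw
      refine reach_T0 L p ?_
      intro x hx hbx
      exact hv ⟨x, (SimpleGraph.ConnectedComponent.sound hx).symm, hbx⟩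
    refine Finset.card_le_card_of_injOn (cmap hle) ?_ ?_
    · intro c hc
      rw [Finset.mem_coe, Finset.mem_filter] at hc
      rw [Finset.mem_coe, Finset.mem_erase]
      refine ⟨?_, Finset.mem_univ _⟩
      induction c using SimpleGraph.ConnectedComponent.ind with
      | _ v =>
        rw [cmap_mk]
        intro hva
        have := hkey v a hc.2 hva
        exact hc.2 ⟨a, (SimpleGraph.ConnectedComponent.sound this).symm, ha⟩
    · intro c hc c' hc' hcc
      rw [Finset.mem_coe, Finset.mem_filter] at hc hc'
      induction c using SimpleGraph.ConnectedComponent.ind with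
      | _ v =>
        induction c' using SimpleGraph.ConnectedComponent.ind with
        | _ w =>
          rw [cmap_mk, cmap_mk] at hcc
          exact SimpleGraph.ConnectedComponent.sound (hkey v w hc.2 hcc)
  have hpos : 0 < Fintype.card L.ConnectedComponent :=
    Fintype.card_pos_iff.mpr ⟨L.connectedComponentMk a⟩
  rw [Finset.card_erase_of_mem (Finset.mem_univ _), Finset.card_univ] at hT0
  omega

end Pool.Agent.R695.TR
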