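import Pool.Agent.R695.TR.Stm

/-!
MP_0ae2e1_co, piece COST: the cost inequality for alternating 2-regular structures in links.
-/

namespace Pool.Agent.R695.TR

namespace CostAux

open Finset
open scoped Classical

variable {V : Type}

theorem cl3 {G : SimpleGraph V} {t : Finset V} (ht : G.IsNClique 3 t) {a b : V}
    (ha : a ∈ t) (hb : b ∈ t) (hab : a ≠ b) :
    ∃ c, c ≠ a ∧ c ≠ b ∧ t = {a, b, c} ∧ G.Adj a b ∧ G.Adj a c ∧ G.Adj b c := by
  have hc := ht.card_eq
  have hsub : ({a, b} : Finset V) ⊆ t := by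
    intro z hz
    rw [mem_insert, mem_singleton] at hz
    rcases hz with rfl | rfl <;> assumption
  have h2 : (t \ {a, b}).card = 1 := by
    rw [Finset.card_sdiff_of_subset hsub, hc, Finset.card_pair hab]
  obtain ⟨c, hc'⟩ := Finset.card_eq_one.1 h2
  have hcm : c ∈ t \ {a, b} := by rw [hc']; exact mem_singleton_self c
  rw [mem_sdiff, mem_insert, mem_singleton, not_or] at hcm
  obtain ⟨hct, hca, hcb⟩ := hcm
  refine ⟨c, hca, hcb, ?_, ht.isClique ha hb hab, ht.isClique ha hct (Ne.symm hca),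
    ht.isClique hb hct (Ne.symm hcb)⟩
  ext z
  constructor
  · intro hz
    by_cases h : z ∈ ({a, b} : Finset V)
    · rw [mem_insert, mem_singleton] at h
      rcases h with rfl | rfl <;> simp
    · have : z ∈ t \ {a, b} := mem_sdiff.2 ⟨hz, h⟩
      rw [hc', mem_singleton] at this
      subst this; simp
  · intro hz
    rw [mem_insert, mem_insert, mem_singleton] at hz
    rcases hz with rfl | rfl | rfl <;> assumption

theorem dg_comm (S : Finset (Finset V)) (x y : V) : dg S x y = dg S y x := by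
  unfold dg
  congr 1
  ext t
  simp only [mem_filter]
  tauto

theorem dg_ne {S : Finset (Finset V)} {t : Finset V} (ht : t ∈ S) {x y : V} (hx : x ∈ t)
    (hy : y ∈ t) : dg S x y ≠ 0 := by
  unfold dg
  rw [Finset.card_ne_zero]
  exact ⟨t, mem_filter.2 ⟨ht, hx, hy⟩⟩

theorem dg_ne_iff {S : Finset (Finset V)} {x y : V} (h : dg S x y ≠ 0) :
    ∃ t ∈ S, x ∈ t ∧ y ∈ t := by
  unfold dg at h
  rw [Finset.card_ne_zero] at h
  obtain ⟨t, ht⟩ := h
  rw [mem_filter] at ht
  exact ⟨t, ht.1, ht.2⟩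

variable [Fintype V]

theorem third {G : SimpleGraph V} (hLC : LC G) {x y a b : V} (hxy : G.Adj x y)
    (hxa : G.Adj x a) (hya : G.Adj y a) (hxb : G.Adj x b) (hyb : G.Adj y b) (hab : a ≠ b) :
    ∃ c, c ≠ a ∧ c ≠ b ∧ G.Adj x c ∧ G.Adj y c ∧
      ∀ z, G.Adj x z → G.Adj y z → z = a ∨ z = b ∨ z = c := by
  have h := hLC x y hxy
  obtain ⟨T, hT⟩ : ∃ T : Set V, T = {z | G.Adj x z ∧ G.Adj y z} := ⟨_, rfl⟩
  have hmT : ∀ z, z ∈ T ↔ (G.Adj x z ∧ G.Adj y z) := fun z => by rw [hT]; exact Iff.rfl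
  rw [← hT] at h
  have ha : a ∈ T := (hmT a).2 ⟨hxa, hya⟩
  have h1 : (T \ {a}).ncard = 2 := by
    rw [Set.ncard_sdiff_singleton_of_mem ha, h]
  have hb : b ∈ (T \ {a}) := ⟨(hmT b).2 ⟨hxb, hyb⟩, fun h => hab h.symm⟩
  have h2 : ((T \ {a}) \ {b}).ncard = 1 := by
    rw [Set.ncard_sdiff_singleton_of_mem hb, h1]
  obtain ⟨c, hc⟩ := Set.ncard_eq_one.1 h2
  have hcm : c ∈ ((T \ {a}) \ {b}) := by rw [hc]; exact Set.mem_singleton c
  have hcm2 := (hmT c).1 hcm.1.1
  refine ⟨c, hcm.1.2, hcm.2, hcm2.1, hcm2.2, fun z hz hz' => ?_⟩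
  by_cases h3 : z = a
  · exact Or.inl h3
  by_cases h4 : z = b
  · exact Or.inr (Or.inl h4)
  · have : z ∈ ((T \ {a}) \ {b}) := ⟨⟨(hmT z).2 ⟨hz, hz'⟩, h3⟩, h4⟩
    rw [hc] at this
    exact Or.inr (Or.inr this)

omit [Fintype V] in
theorem D2 {G : SimpleGraph V} (hLC : LC G) {S : Finset (Finset V)}
    (hS : ∀ t ∈ S, G.IsNClique 3 t) {x z w : V} (hxz : G.Adj x z) (hxw : G.Adj x w)
    (hzw : G.Adj z w) (hn : ({x, z, w} : Finset V) ∉ S) :
    dg S x z ≤ 2 ∧ (2 ≤ dg S x z → ∀ c, G.Adj x c → G.Adj z c → c ≠ w →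
      ({x, z, c} : Finset V) ∈ S) := by
  have h := hLC x z hxz
  have hw : w ∈ {c | G.Adj x c ∧ G.Adj z c} := ⟨hxw, hzw⟩
  have h1 : ({c | G.Adj x c ∧ G.Adj z c} \ {w}).ncard = 2 := by
    rw [Set.ncard_sdiff_singleton_of_mem hw, h]
  obtain ⟨c1, c2, hcc, hs⟩ := Set.ncard_eq_two.1 h1
  have hsub : S.filter (fun t => x ∈ t ∧ z ∈ t) ⊆ {{x, z, c1}, {x, z, c2}} := by
    intro t ht
    rw [mem_filter] at ht
    obtain ⟨c, hcx, hcz, htc, -, h3, h4⟩ := cl3 (hS t ht.1) ht.2.1 ht.2.2 (G.ne_of_adj hxz)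
    have hcw : c ≠ w := by
      rintro rfl
      exact hn (htc ▸ ht.1)
    have : c ∈ {c | G.Adj x c ∧ G.Adj z c} \ {w} := ⟨⟨h3, h4⟩, hcw⟩
    rw [hs] at this
    rcases this with rfl | this
    · rw [htc]; simp
    · rw [Set.mem_singleton_iff] at this
      subst this
      rw [htc]; simp
  have hle : dg S x z ≤ 2 := (card_le_card hsub).trans Finset.card_le_two
  refine ⟨hle, fun h2 c hxc hzc hcw => ?_⟩
  have heq := Finset.eq_of_subset_of_card_le hsub (Finset.card_le_two.trans h2)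
  have hc : c ∈ {c | G.Adj x c ∧ G.Adj z c} \ {w} := ⟨⟨hxc, hzc⟩, hcw⟩
  rw [hs] at hc
  rcases hc with rfl | hc
  · have : ({x, z, c} : Finset V) ∈ S.filter (fun t => x ∈ t ∧ z ∈ t) := by
      rw [heq]; simp
    exact (mem_filter.1 this).1
  · rw [Set.mem_singleton_iff] at hc
    subst hc
    have : ({x, z, c} : Finset V) ∈ S.filter (fun t => x ∈ t ∧ z ∈ t) := by
      rw [heq]; simp
    exact (mem_filter.1 this).1

/-- the double counting of the payments -/
theorem pay_sum (A : Finset V) (Q : V → V → Prop) (hQ : ∀ x y, Q x y → Q y x) :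
    ∑ x ∈ A, ∑ z ∈ univ.filter (fun z => Q x z), (if z ∈ A then 1 else 2) ≤
      (univ.filter (fun p : V × V => Q p.1 p.2)).card := by
  have e1 : (univ.filter (fun p : V × V => Q p.1 p.2)).card =
      ∑ x : V, ∑ z : V, (if Q x z then 1 else 0) := by
    rw [Finset.card_filter, ← Finset.univ_product_univ, Finset.sum_product]
  have e2 : ∑ x ∈ A, ∑ z ∈ univ.filter (fun z => Q x z), (if z ∈ A then 1 else 2) =
      ∑ x : V, ∑ z : V, (if Q x z then (if x ∈ A then (if z ∈ A then 1 else 2) else 0) else 0) := by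
    rw [← Finset.sum_filter_add_sum_filter_not univ (fun x => x ∈ A)]
    have h0 : ∑ x ∈ univ.filter (fun x => ¬ x ∈ A), ∑ z : V,
        (if Q x z then (if x ∈ A then (if z ∈ A then 1 else 2) else 0) else 0) = 0 := by
      refine Finset.sum_eq_zero fun x hx => Finset.sum_eq_zero fun z _ => ?_
      rw [mem_filter] at hx
      simp [hx.2]
    rw [h0, add_zero, Finset.filter_mem_eq_inter, Finset.univ_inter]
    refine Finset.sum_congr rfl fun x hx => ?_
    rw [Finset.sum_filter]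
    refine Finset.sum_congr rfl fun z _ => ?_
    simp [hx]
  have e3 : ∑ x : V, ∑ z : V,
      (if Q x z then (if x ∈ A then (if z ∈ A then 1 else 2) else 0) else 0) =
      ∑ x : V, ∑ z : V,
      (if Q x z then (if z ∈ A then (if x ∈ A then 1 else 2) else 0) else 0) := by
    rw [Finset.sum_comm]
    refine Finset.sum_congr rfl fun x _ => Finset.sum_congr rfl fun z _ => ?_
    by_cases h : Q x z
    · rw [if_pos h, if_pos (hQ _ _ h)]
    · rw [if_neg h, if_neg (fun h' => h (hQ _ _ h'))]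
  rw [e1, e2]
  have h2 : 2 * ∑ x : V, ∑ z : V,
      (if Q x z then (if x ∈ A then (if z ∈ A then 1 else 2) else 0) else 0) ≤
      2 * ∑ x : V, ∑ z : V, (if Q x z then 1 else 0) := by
    rw [two_mul]
    nth_rewrite 2 [e3]
    rw [← Finset.sum_add_distrib, Finset.mul_sum]
    refine Finset.sum_le_sum fun x _ => ?_
    rw [← Finset.sum_add_distrib, Finset.mul_sum]
    refine Finset.sum_le_sum fun z _ => ?_
    split_ifs <;> omega
  omega

end CostAux

open Finset in
open scoped Classical in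
open CostAux in
theorem COST_ok : S_HALL → S_LOC → S_COST := by
  intro hHALL hLOC V _ G hLC hStar v X nx pv σ hE
  -- basic adjacencies
  have hvx : ∀ x ∈ X, G.Adj v x := fun x hx => (hE.adj x hx).1
  have hvX : v ∉ X := fun h => G.ne_of_adj (hvx v h) rfl
  have hne : ∀ x ∈ X, x ≠ v := fun x hx h => hvX (h ▸ hx)
  have hxn : ∀ x ∈ X, G.Adj x (nx x) := fun x hx => (hE.adj x hx).2.2
  have hxp : ∀ x ∈ X, G.Adj x (pv x) := by
    intro x hx
    have := (hE.adj (pv x) (hE.pv_mem x hx)).2.2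
    rw [hE.nx_pv x hx] at this
    exact this.symm
  have hvn : ∀ x ∈ X, G.Adj v (nx x) := fun x hx => hvx _ (hE.nx_mem x hx)
  have hvp : ∀ x ∈ X, G.Adj v (pv x) := fun x hx => hvx _ (hE.pv_mem x hx)
  have hth : ∀ x ∈ X, ∃ c, c ≠ nx x ∧ c ≠ pv x ∧ G.Adj v c ∧ G.Adj x c ∧
      ∀ z, G.Adj v z → G.Adj x z → z = nx x ∨ z = pv x ∨ z = c := fun x hx =>
    third hLC (hvx x hx) (hvn x hx) (hxn x hx) (hvp x hx) (hxp x hx) (hE.ne2 x hx)
  choose! th hth1 hth2 hth3 hth4 hth5 using hth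
  -- the signing
  obtain ⟨s, hs⟩ : ∃ s : Sym2 V → ℤ, ∀ a b, s s(a, b) =
      (if a = v ∧ b ∈ X then σ b else 0) + (if b = v ∧ a ∈ X then σ a else 0) :=
    ⟨Sym2.lift ⟨fun a b => (if a = v ∧ b ∈ X then σ b else 0) +
      (if b = v ∧ a ∈ X then σ a else 0), fun a b => add_comm _ _⟩, fun a b => rfl⟩
  have hs1 : ∀ x ∈ X, s s(v, x) = σ x := by
    intro x hx
    rw [hs, if_pos ⟨rfl, hx⟩, if_neg (fun h => hvX h.2), add_zero]
  have hs2 : ∀ a b, s s(a, b) ≠ 0 → (a = v ∧ b ∈ X) ∨ (b = v ∧ a ∈ X) := by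
    intro a b h
    by_contra hcon
    rw [not_or] at hcon
    apply h
    rw [hs, if_neg hcon.1, if_neg hcon.2, add_zero]
  have hσ : ∀ x ∈ X, σ x ≠ 0 := by
    intro x hx
    rcases hE.sg x hx with h | h <;> rw [h] <;> decide
  have hs0 : ∀ x ∈ X, ∀ w, w ≠ v → s s(x, w) = 0 := by
    intro x hx w hw
    by_contra h
    rcases hs2 x w h with h' | h'
    · exact hne x hx h'.1
    · exact hw h'.1
  obtain ⟨x0, hx0⟩ := hE.ne
  obtain ⟨S, hS1, hS2, hS3⟩ := hHALL V G hLC hStar s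
    ⟨v, x0, hvx x0 hx0, by rw [hs1 x0 hx0]; exact hσ x0 hx0⟩
  have hScl : ∀ t ∈ S, G.IsNClique 3 t := fun t ht => (hS1 t ht).1
  -- the opposite signs of the neighbours
  have hboth : ∀ x ∈ X, ∀ z ∈ X, σ z = - σ x → ∀ t : Finset V, v ∈ t → x ∈ t → z ∈ t →
      Both s t := by
    intro x hx z hz hsg t hvt hxt hzt
    rcases hE.sg x hx with h | h
    · refine ⟨⟨v, hvt, x, hxt, (hne x hx).symm, ?_⟩, ⟨v, hvt, z, hzt, (hne z hz).symm, ?_⟩⟩
      · rw [hs1 x hx, h]; decide
      · rw [hs1 z hz, hsg, h]; decide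
    · refine ⟨⟨v, hvt, z, hzt, (hne z hz).symm, ?_⟩, ⟨v, hvt, x, hxt, (hne x hx).symm, ?_⟩⟩
      · rw [hs1 z hz, hsg, h]; decide
      · rw [hs1 x hx, h]; decide
  have hsgp : ∀ x ∈ X, σ (pv x) = - σ x := by
    intro x hx
    have := hE.alt (pv x) (hE.pv_mem x hx)
    rw [hE.nx_pv x hx] at this
    rw [this, neg_neg]
  -- the triangles of `S` on the edges `v x`
  have hvS : ∀ x ∈ X, ∀ t ∈ S, v ∈ t → x ∈ t → t = {v, x, th x} := by
    intro x hx t ht hvt hxt
    obtain ⟨c, hc1, hc2, htc, -, hvc, hxc⟩ := cl3 (hScl t ht) hvt hxt (hne x hx).symm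
    rcases hth5 x hx c hvc hxc with rfl | rfl | h
    · exfalso
      exact (hS1 t ht).2 (hboth x hx _ (hE.nx_mem x hx) (hE.alt x hx) t hvt hxt
        (by rw [htc]; simp))
    · exfalso
      exact (hS1 t ht).2 (hboth x hx _ (hE.pv_mem x hx) (hsgp x hx) t hvt hxt
        (by rw [htc]; simp))
    · rw [htc, h]
  have hdv : ∀ x ∈ X, dg S v x ≤ 1 := by
    intro x hx
    unfold dg
    rw [Finset.card_le_one]
    intro t ht t' ht'
    rw [mem_filter] at ht ht'
    rw [hvS x hx t ht.1 ht.2.1 ht.2.2, hvS x hx t' ht'.1 ht'.2.1 ht'.2.2]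
  have hthS : ∀ x ∈ X, ∀ z, ({v, x, z} : Finset V) ∈ S → z ≠ v → z ≠ x → z = th x := by
    intro x hx z hz hzv hzx
    have h := hvS x hx _ hz (by simp) (by simp)
    have h2 : z ∈ ({v, x, th x} : Finset V) := by rw [← h]; simp
    rw [mem_insert, mem_insert, mem_singleton] at h2
    rcases h2 with h2 | h2 | h2
    · exact absurd h2 hzv
    · exact absurd h2 hzx
    · exact h2
  -- the set `A`
  obtain ⟨A, hA⟩ : ∃ A : Finset V, A = X.filter (fun x => dg S v x ≠ 0) := ⟨_, rfl⟩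
  have hAX : ∀ x ∈ A, x ∈ X := fun x hx => by rw [hA, mem_filter] at hx; exact hx.1
  have hAS : ∀ x ∈ A, ({v, x, th x} : Finset V) ∈ S := by
    intro x hx
    rw [hA, mem_filter] at hx
    obtain ⟨t, ht, h1, h2⟩ := dg_ne_iff hx.2
    rw [← hvS x hx.1 t ht h1 h2]
    exact ht
  -- the sum over the nonzero pairs
  have hsum : ∑ p ∈ univ.filter (fun p : V × V => G.Adj p.1 p.2 ∧ s s(p.1, p.2) ≠ 0),
      dg S p.1 p.2 ≤ 2 * A.card := by
    have hsub : univ.filter (fun p : V × V => G.Adj p.1 p.2 ∧ s s(p.1, p.2) ≠ 0) ⊆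
        X.image (fun x => (v, x)) ∪ X.image (fun x => (x, v)) := by
      rintro ⟨a, b⟩ h
      rw [mem_filter] at h
      rw [mem_union, mem_image, mem_image]
      rcases hs2 a b h.2.2 with ⟨rfl, h'⟩ | ⟨rfl, h'⟩
      · exact Or.inl ⟨b, h', rfl⟩
      · exact Or.inr ⟨a, h', rfl⟩
    have hdis : Disjoint (X.image (fun x => (v, x))) (X.image (fun x => (x, v))) := by
      rw [Finset.disjoint_left]
      intro p hp hp'
      rw [mem_image] at hp hp'
      obtain ⟨a, ha, rfl⟩ := hp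
      obtain ⟨b, hb, hab⟩ := hp'
      rw [Prod.mk.injEq] at hab
      exact hvX (hab.1 ▸ hb)
    have hX1 : ∑ x ∈ X, dg S v x ≤ A.card := by
      rw [hA, Finset.card_filter]
      refine Finset.sum_le_sum fun x hx => ?_
      have := hdv x hx
      split_ifs <;> omega
    calc ∑ p ∈ univ.filter (fun p : V × V => G.Adj p.1 p.2 ∧ s s(p.1, p.2) ≠ 0),
          dg S p.1 p.2
        ≤ ∑ p ∈ X.image (fun x => (v, x)) ∪ X.image (fun x => (x, v)), dg S p.1 p.2 :=
          Finset.sum_le_sum_of_subset hsub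
      _ = ∑ x ∈ X, dg S v x + ∑ x ∈ X, dg S x v := by
          rw [Finset.sum_union hdis, Finset.sum_image, Finset.sum_image]
          · intro a _ b _ hab
            exact (Prod.mk.inj hab).1
          · intro a _ b _ hab
            exact (Prod.mk.inj hab).2
      _ = ∑ x ∈ X, dg S v x + ∑ x ∈ X, dg S v x := by
          congr 1
          exact Finset.sum_congr rfl fun x _ => dg_comm S x v
      _ ≤ 2 * A.card := by omega
  -- the payments
  obtain ⟨Q, hQd⟩ : ∃ Q : V → V → Prop,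
      ∀ x z, Q x z ↔ (G.Adj x z ∧ s s(x, z) = 0 ∧ dg S x z = 2) := ⟨_, fun _ _ => Iff.rfl⟩
  have hQ : ∀ x y, Q x y → Q y x := by
    intro x y h
    rw [hQd] at h ⊢
    refine ⟨h.1.symm, ?_, ?_⟩
    · rw [Sym2.eq_swap]; exact h.2.1
    · rw [dg_comm]; exact h.2.2
  have hpay := pay_sum A Q hQ
  have hclaim : ∀ x ∈ A, 2 ≤ ∑ z ∈ univ.filter (fun z => Q x z), (if z ∈ A then 1 else 2) +
      cx (link G v) (fun x => BI (link G x) v)
        (fun x y => (link G x).IsBridge s(v, y)) X nx pv x := by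
    intro x hxA
    have hx := hAX x hxA
    have hyS := hAS x hxA
    have hxv := hvx x hx
    -- `{x, p, v}` is not in `S`
    have hnotp : ({x, nx x, v} : Finset V) ∉ S := by
      intro h
      exact (hS1 _ h).2 (hboth x hx _ (hE.nx_mem x hx) (hE.alt x hx) _ (by simp) (by simp)
        (by simp))
    have hnotq : ({x, pv x, v} : Finset V) ∉ S := by
      intro h
      exact (hS1 _ h).2 (hboth x hx _ (hE.pv_mem x hx) (hsgp x hx) _ (by simp) (by simp)
        (by simp))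
    have hyv : th x ≠ v := (G.ne_of_adj (hth3 x hx)).symm
    have hyx : th x ≠ x := (G.ne_of_adj (hth4 x hx)).symm
    have hmem : ∀ z, z ∈ {z | G.Adj x z ∧ s s(x, z) = 0 ∧ dg S x z ≠ 0} →
        z ∈ {z | dg S x z = 2} → Q x z := fun z h1 h2 => (hQd x z).2 ⟨h1.1, h1.2.1, h2⟩
    have hstar : ∀ z w, G.Adj x z → s s(x, z) = 0 → dg S x z ≠ 0 → G.Adj x w → G.Adj z w →
        ({x, z, w} : Finset V) ∉ S → dg S x z = 2 := by
      intro z w h1 h2 h3 h4 h5 h6
      have := (D2 hLC hScl h1 h4 h5 h6).1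
      have := hS2 x z h1 h2 h3
      omega
    have hL := hLOC V (link G x) v (nx x) (pv x) (th x)
      {z | G.Adj x z ∧ s s(x, z) = 0 ∧ dg S x z ≠ 0} {z | dg S x z = 2}
      ⟨hxv.symm, hxn x hx, hvn x hx⟩ ⟨hxv.symm, hxp x hx, hvp x hx⟩
      ⟨hxv.symm, hth4 x hx, hth3 x hx⟩ (hE.ne2 x hx) (hth1 x hx).symm (hth2 x hx).symm
      (fun z hz => hth5 x hx z hz.2.2 hz.2.1)
      (fun h => by
        have := h.2.1
        rw [Sym2.eq_swap, hs1 x hx] at this
        exact hσ x hx this)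
      ⟨hth4 x hx, hs0 x hx _ hyv, dg_ne hyS (by simp) (by simp)⟩
      (by
        intro z w hzw hz hw hn
        refine hstar z w hz.1 hz.2.1 hz.2.2 hzw.2.1 hzw.2.2 fun hmS => ?_
        have h1 : dg S x w ≠ 0 := dg_ne hmS (by simp) (by simp)
        have h2 : s s(x, w) ≠ 0 := fun h => hw ⟨hzw.2.1, h, h1⟩
        have h3 : w = v := by
          by_contra h
          exact h2 (hs0 x hx w h)
        subst h3
        refine hn ⟨?_, rfl⟩
        refine hthS x hx z ?_ (G.ne_of_adj hzw.2.2) (G.ne_of_adj hz.1).symm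
        have : ({w, x, z} : Finset V) = {x, z, w} := by
          ext u; simp only [mem_insert, mem_singleton]; tauto
        rw [this]
        exact hmS)
      (fun h => hstar _ v h.1 h.2.1 h.2.2 hxv.symm (hvn x hx).symm hnotp)
      (fun h => hstar _ v h.1 h.2.1 h.2.2 hxv.symm (hvp x hx).symm hnotq)
      (by
        intro w hw hN hwv
        have h2 := hS2 x _ hN.1 hN.2.1 hN.2.2
        have h3 := (D2 hLC hScl hN.1 hxv.symm (hvn x hx).symm hnotp).2 h2 w hw.2.1 hw.2.2 hwv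
        exact ⟨hw.2.1, hs0 x hx w hwv, dg_ne h3 (by simp) (by simp)⟩)
      (by
        intro w hw hN hwv
        have h2 := hS2 x _ hN.1 hN.2.1 hN.2.2
        have h3 := (D2 hLC hScl hN.1 hxv.symm (hvp x hx).symm hnotq).2 h2 w hw.2.1 hw.2.2 hwv
        exact ⟨hw.2.1, hs0 x hx w hwv, dg_ne h3 (by simp) (by simp)⟩)
    obtain ⟨hL1, hL2⟩ := hL
    have hyadj : (link G v).Adj x (th x) := ⟨hxv, hth3 x hx, hth4 x hx⟩
    unfold cx
    by_cases hbr : (link G x).IsBridge s(v, th x)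
    · rw [if_pos ⟨th x, hyadj, hth1 x hx, hth2 x hx, hbr⟩]
      omega
    · obtain ⟨z, hzN, hzD⟩ := hL1 hbr
      have hz1 : 1 ≤ ∑ z ∈ univ.filter (fun z => Q x z), (if z ∈ A then 1 else 2) := by
        refine le_trans ?_ (Finset.single_le_sum (f := fun z => if z ∈ A then 1 else 2)
          (fun _ _ => Nat.zero_le _) (mem_filter.2 ⟨mem_univ z, hmem z hzN hzD⟩))
        split_ifs <;> omega
      split_ifs with h1 h2
      · omega
      · omega
      · rw [not_or] at h2
        have hnb : ∀ y, (link G x).Adj v y → ¬ (link G x).IsBridge s(v, y) :=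
          fun y hy hb => h2.1 ⟨y, hy, hb⟩
        have hyX : th x ∉ X := fun h => h2.2 ⟨th x, h, hyadj, hth1 x hx, hth2 x hx⟩
        rcases hL2 hbr (hnb _ ⟨hxv.symm, hxn x hx, hvn x hx⟩)
          (hnb _ ⟨hxv.symm, hxp x hx, hvp x hx⟩) with ⟨z, h3, h4, h5, h6⟩ | ⟨h3, h4, h5, h6⟩
        · have hzA : z ∉ A := by
            intro h
            rcases hth5 x hx z (hvx z (hAX z h)) h3.1 with h7 | h7 | h7
            · exact h5 h7
            · exact h6 h7
            · exact hyX (h7 ▸ hAX z h)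
          have := Finset.single_le_sum (f := fun z => if z ∈ A then 1 else 2)
            (fun _ _ => Nat.zero_le _) (mem_filter.2 ⟨mem_univ z, hmem z h3 h4⟩)
          simp only [if_neg hzA] at this
          omega
        · have hsub : ({nx x, pv x} : Finset V) ⊆ univ.filter (fun z => Q x z) := by
            intro z hz
            rw [mem_insert, mem_singleton] at hz
            rcases hz with rfl | rfl
            · exact mem_filter.2 ⟨mem_univ _, hmem _ h3 h4⟩
            · exact mem_filter.2 ⟨mem_univ _, hmem _ h5 h6⟩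
          have := Finset.sum_le_sum_of_subset (f := fun z => if z ∈ A then 1 else 2) hsub
          rw [Finset.sum_pair (hE.ne2 x hx)] at this
          have e1 : 1 ≤ (if nx x ∈ A then 1 else 2) := by split_ifs <;> omega
          have e2 : 1 ≤ (if pv x ∈ A then 1 else 2) := by split_ifs <;> omega
          omega
  have hcx : ∑ x ∈ A, cx (link G v) (fun x => BI (link G x) v)
        (fun x y => (link G x).IsBridge s(v, y)) X nx pv x ≤
      ∑ x ∈ X, cx (link G v) (fun x => BI (link G x) v)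
        (fun x y => (link G x).IsBridge s(v, y)) X nx pv x :=
    Finset.sum_le_sum_of_subset (fun x hx => hAX x hx)
  have htot : 2 * A.card ≤ ∑ x ∈ A, (∑ z ∈ univ.filter (fun z => Q x z),
      (if z ∈ A then 1 else 2) + cx (link G v) (fun x => BI (link G x) v)
        (fun x y => (link G x).IsBridge s(v, y)) X nx pv x) := by
    have := Finset.sum_le_sum hclaim
    rw [Finset.sum_const, smul_eq_mul, mul_comm] at this
    exact this
  rw [Finset.sum_add_distrib] at htot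
  have h3 : 6 + (univ.filter (fun p : V × V => Q p.1 p.2)).card ≤
    ∑ p ∈ univ.filter (fun p : V × V => G.Adj p.1 p.2 ∧ s s(p.1, p.2) ≠ 0),
      dg S p.1 p.2 := by
    have e : univ.filter (fun p : V × V => Q p.1 p.2) = univ.filter (fun p : V × V =>
          G.Adj p.1 p.2 ∧ s s(p.1, p.2) = 0 ∧ dg S p.1 p.2 = 2) := by
      ext p
      simp only [mem_filter, hQd]
    rw [e]
    exact hS3
  omega

end Pool.Agent.R695.TR
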