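import Pool.Agent.R695.TR.Stm

set_option autoImplicit false

namespace Pool.Agent.R695.TR

namespace COSTCaux

open Finset
open scoped Classical

theorem ar1 {n i : ℕ} (h3 : 3 ≤ n) (hi : i < n) : ((i + 1) % n + n - 1) % n = i := by
  rcases Nat.lt_or_ge (i + 1) n with h | h
  · rw [Nat.mod_eq_of_lt h, show i + 1 + n - 1 = i + n by omega, Nat.add_mod_right,
      Nat.mod_eq_of_lt hi]
  · have : i + 1 = n := by omega
    rw [this, Nat.mod_self, Nat.zero_add, Nat.mod_eq_of_lt (by omega)]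
    omega

theorem pvi {n i : ℕ} (h3 : 3 ≤ n) (hi : i < n) :
    (i + n - 1) % n = if i = 0 then n - 1 else i - 1 := by
  split_ifs with h
  · subst h
    rw [Nat.zero_add, Nat.mod_eq_of_lt (by omega)]
  · rw [show i + n - 1 = i - 1 + n by omega, Nat.add_mod_right, Nat.mod_eq_of_lt (by omega)]

theorem nxi {n i : ℕ} (h3 : 3 ≤ n) (hi : i < n) :
    (i + 1) % n = if i = n - 1 then 0 else i + 1 := by
  split_ifs with h
  · rw [show i + 1 = n by omega, Nat.mod_self]
  · rw [Nat.mod_eq_of_lt (by omega)]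

theorem ar2 {n i : ℕ} (h3 : 3 ≤ n) (hi : i < n) : ((i + n - 1) % n + 1) % n = i := by
  rw [pvi h3 hi]
  split_ifs with h
  · rw [show n - 1 + 1 = n by omega, Nat.mod_self, h]
  · rw [show i - 1 + 1 = i by omega, Nat.mod_eq_of_lt hi]

variable {V : Type} {L : SimpleGraph V} {n : ℕ} {x : ℕ → V}

/-- Index of a vertex of the cycle. -/
noncomputable def idx (n : ℕ) (x : ℕ → V) (z : V) : ℕ :=
  if h : ∃ i, i < n ∧ x i = z then h.choose else 0

theorem idx_eq (hc : Cyc L n x) {i : ℕ} (hi : i < n) : idx n x (x i) = i := by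
  have h : ∃ j, j < n ∧ x j = x i := ⟨i, hi, rfl⟩
  rw [idx, dif_pos h]
  exact hc.inj _ _ h.choose_spec.1 hi h.choose_spec.2

noncomputable def nx (n : ℕ) (x : ℕ → V) (z : V) : V := x ((idx n x z + 1) % n)
noncomputable def pv (n : ℕ) (x : ℕ → V) (z : V) : V := x ((idx n x z + n - 1) % n)
noncomputable def sg (n : ℕ) (x : ℕ → V) (z : V) : ℤ := (-1) ^ (idx n x z)

theorem adjm (hc : Cyc L n x) {i : ℕ} (hi : i < n) : L.Adj (x i) (x ((i + 1) % n)) := by
  rw [nxi hc.h3 hi]
  split_ifs with h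
  · rw [h]; exact hc.cl
  · exact hc.adj i (by omega)

theorem evc (hc : Cyc L n x) (hn : Even n) :
    EvC L ((range n).image x) (nx n x) (pv n x) (sg n x) := by
  have h3 := hc.h3
  have hmod : ∀ k, k % n < n := fun k => Nat.mod_lt _ (by omega)
  refine ⟨⟨x 0, mem_image.2 ⟨0, mem_range.2 (by omega), rfl⟩⟩, ?_, ?_, ?_, ?_, ?_, ?_, ?_, ?_⟩
  · intro z _
    exact mem_image.2 ⟨_, mem_range.2 (hmod _), rfl⟩
  · intro z _
    exact mem_image.2 ⟨_, mem_range.2 (hmod _), rfl⟩
  · intro z hz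
    obtain ⟨i, hi, rfl⟩ := mem_image.1 hz
    rw [mem_range] at hi
    unfold pv nx
    rw [idx_eq hc hi, idx_eq hc (hmod _), ar1 h3 hi]
  · intro z hz
    obtain ⟨i, hi, rfl⟩ := mem_image.1 hz
    rw [mem_range] at hi
    unfold pv nx
    rw [idx_eq hc hi, idx_eq hc (hmod _), ar2 h3 hi]
  · intro z hz
    obtain ⟨i, hi, rfl⟩ := mem_image.1 hz
    rw [mem_range] at hi
    unfold nx
    rw [idx_eq hc hi]
    exact adjm hc hi
  · intro z hz h
    obtain ⟨i, hi, rfl⟩ := mem_image.1 hz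
    rw [mem_range] at hi
    unfold nx pv at h
    rw [idx_eq hc hi] at h
    have := hc.inj _ _ (hmod _) (hmod _) h
    rw [nxi h3 hi, pvi h3 hi] at this
    split_ifs at this <;> omega
  · intro z _
    exact neg_one_pow_eq_or ℤ _
  · intro z hz
    obtain ⟨i, hi, rfl⟩ := mem_image.1 hz
    rw [mem_range] at hi
    unfold sg nx
    rw [idx_eq hc hi, idx_eq hc (hmod _), nxi h3 hi]
    split_ifs with h
    · have ho : Odd i := by
        rw [h]
        obtain ⟨k, hk⟩ := hn
        exact ⟨k - 1, by omega⟩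
      rw [ho.neg_one_pow]; norm_num
    · rw [pow_succ]; ring

theorem ca_nx_pv (hc : Cyc L n x) {i j : ℕ} (hi : i < n) (hj : j < n) (h : CA n i j) :
    x j = nx n x (x i) ∨ x j = pv n x (x i) := by
  have h3 := hc.h3
  unfold nx pv
  rw [idx_eq hc hi, nxi h3 hi, pvi h3 hi]
  rcases h with h | h | ⟨h, h'⟩ | ⟨h, h'⟩
  · left; rw [if_neg (by omega), h]
  · right; rw [if_neg (by omega)]; congr 1; omega
  · right; rw [if_pos h, h']
  · left; rw [if_pos h', h]

theorem cx_le (hc : Cyc L n x) (F : V → Prop) (m : V → V → Prop) {i : ℕ} (hi : i < n) :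
    cx L F m ((range n).image x) (nx n x) (pv n x) (x i) ≤ cst L F m n x i := by
  unfold cx cst
  by_cases h1 : ∃ y, L.Adj (x i) y ∧ (∀ j, j < n → CA n i j → y ≠ x j) ∧ m (x i) y
  · rw [if_pos h1]
    split_ifs <;> omega
  · rw [if_neg h1]
    have h1' : ¬ ∃ y, L.Adj (x i) y ∧ y ≠ nx n x (x i) ∧ y ≠ pv n x (x i) ∧ m (x i) y := by
      rintro ⟨y, hy, hy1, hy2, hy3⟩
      refine h1 ⟨y, hy, fun j hj hca hyj => ?_, hy3⟩
      rcases ca_nx_pv hc hi hj hca with h | h
      · exact hy1 (hyj.trans h)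
      · exact hy2 (hyj.trans h)
    rw [if_neg h1']
    by_cases h2 : F (x i) ∨ Chd L n x i
    · rw [if_pos h2]
      split_ifs <;> omega
    · rw [if_neg h2]
      have h2' : ¬ (F (x i) ∨ ∃ y ∈ (range n).image x, L.Adj (x i) y ∧ y ≠ nx n x (x i) ∧
          y ≠ pv n x (x i)) := by
        rintro (h | ⟨y, hy, hya, hy1, hy2⟩)
        · exact h2 (Or.inl h)
        · obtain ⟨j, hj, rfl⟩ := mem_image.1 hy
          rw [mem_range] at hj
          refine h2 (Or.inr ⟨j, hj, hya, fun hca => ?_⟩)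
          rcases ca_nx_pv hc hi hj hca with h | h
          · exact hy1 h
          · exact hy2 h
      rw [if_neg h2']

end COSTCaux

open Finset
open scoped Classical
open COSTCaux in
theorem COSTC_ok : S_COST → S_COSTC := by
  intro hC V _ G hLC hStar v n x hc hn
  have h := hC V G hLC hStar v _ _ _ _ (evc hc hn)
  refine h.trans ?_
  rw [Finset.sum_image (by
    intro i hi j hj hij
    exact hc.inj i j (mem_range.1 hi) (mem_range.1 hj) hij)]
  exact Finset.sum_le_sum fun i hi => cx_le hc _ _ (mem_range.1 hi)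

end Pool.Agent.R695.TR
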