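import Pool.Agent.R695.TR.F2

namespace Pool.Agent.R695.TR

namespace DIA

open Finset
open scoped Classical

variable {V : Type}

/-- three distinct members exhaust a set of cardinality three -/
theorem three {s : Set V} (h : s.ncard = 3) {a b c z : V} (ha : a ∈ s) (hb : b ∈ s) (hc : c ∈ s)
    (hab : a ≠ b) (hac : a ≠ c) (hbc : b ≠ c) (hz : z ∈ s) : z = a ∨ z = b ∨ z = c := by
  by_contra hcon
  push Not at hcon
  obtain ⟨h1, h2, h3⟩ := hcon
  have hfin : s.Finite := Set.finite_of_ncard_ne_zero (by omega)
  have hsub : (↑({a, b, c, z} : Finset V) : Set V) ⊆ s := by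
    intro y hy
    simp only [Finset.coe_insert, Finset.coe_singleton, Set.mem_insert_iff,
      Set.mem_singleton_iff] at hy
    rcases hy with rfl | rfl | rfl | rfl <;> assumption
  have h4 := Set.ncard_le_ncard hsub hfin
  rw [Set.ncard_coe_finset] at h4
  have h5 : ({a, b, c, z} : Finset V).card = 4 := by
    rw [Finset.card_insert_of_notMem, Finset.card_insert_of_notMem, Finset.card_insert_of_notMem,
      Finset.card_singleton]
    · simpa using fun h => h3 h.symm
    · simp only [Finset.mem_insert, Finset.mem_singleton, not_or]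
      exact ⟨hbc, fun h => h2 h.symm⟩
    · simp only [Finset.mem_insert, Finset.mem_singleton, not_or]
      exact ⟨hab, hac, fun h => h1 h.symm⟩
  omega

/-- a third member -/
theorem third {s : Set V} (h : s.ncard = 3) {a b : V} (_ha : a ∈ s) (_hb : b ∈ s)
    (_hab : a ≠ b) : ∃ c ∈ s, c ≠ a ∧ c ≠ b := by
  by_contra hcon
  push Not at hcon
  have hsub : s ⊆ ↑({a, b} : Finset V) := by
    intro y hy
    simp only [Finset.coe_insert, Finset.coe_singleton, Set.mem_insert_iff,
      Set.mem_singleton_iff]
    by_cases h1 : y = a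
    · exact Or.inl h1
    · exact Or.inr (hcon y hy h1)
  have h4 := Set.ncard_le_ncard hsub (Finset.finite_toSet _)
  rw [Set.ncard_coe_finset] at h4
  have h5 : ({a, b} : Finset V).card ≤ 2 := Finset.card_le_two
  omega

theorem closed {H : SimpleGraph V} {U : Set V} (hU : ∀ z w, z ∈ U → H.Adj z w → w ∈ U)
    {r a : V} (h : H.Reachable r a) (hr : r ∈ U) : a ∈ U := by
  obtain ⟨p⟩ := h
  induction p with
  | nil => exact hr
  | cons hadj p ih => exact ih (hU _ _ hr hadj)

/-- segments are connected -/
theorem seg {H : SimpleGraph V} {x : ℕ → V} {i j : ℕ} (hij : i ≤ j)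
    (h : ∀ l, i ≤ l → l < j → H.Adj (x l) (x (l + 1))) : H.Reachable (x i) (x j) := by
  induction j, hij using Nat.le_induction with
  | base => exact SimpleGraph.Reachable.refl _
  | succ j hj ih =>
    exact (ih (fun l h1 h2 => h l h1 (by omega))).trans (h j hj (by omega)).reachable

theorem sym2_ne {L : SimpleGraph V} {n : ℕ} {x : ℕ → V} (hc : Cyc L n x) {i j k l : ℕ}
    (hi : i < n) (hj : j < n) (hk : k < n) (hl : l < n)
    (h : ¬ ((i = k ∧ j = l) ∨ (i = l ∧ j = k))) : s(x i, x j) ≠ s(x k, x l) := by
  intro heq
  rw [Sym2.eq_iff] at heq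
  rcases heq with ⟨h1, h2⟩ | ⟨h1, h2⟩
  · exact h (Or.inl ⟨hc.inj _ _ hi hk h1, hc.inj _ _ hj hl h2⟩)
  · exact h (Or.inr ⟨hc.inj _ _ hi hl h1, hc.inj _ _ hj hk h2⟩)

theorem not_bridge {L : SimpleGraph V} {n : ℕ} {x : ℕ → V} (hc : Cyc L n x) {i : ℕ}
    (hi : i + 1 < n) : ¬ L.IsBridge s(x i, x (i + 1)) := by
  rw [SimpleGraph.isBridge_iff, not_not]
  have h3 := hc.h3
  have h1 : (L.deleteEdges {s(x i, x (i + 1))}).Reachable (x 0) (x i) := by
    apply seg (Nat.zero_le _)
    intro l _ hl
    rw [SimpleGraph.deleteEdges_adj, Set.mem_singleton_iff]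
    exact ⟨hc.adj l (by omega), sym2_ne hc (by omega) (by omega) (by omega) (by omega)
      (by omega)⟩
  have h2 : (L.deleteEdges {s(x i, x (i + 1))}).Reachable (x (i + 1)) (x (n - 1)) := by
    apply seg (by omega)
    intro l hl1 hl
    rw [SimpleGraph.deleteEdges_adj, Set.mem_singleton_iff]
    exact ⟨hc.adj l (by omega), sym2_ne hc (by omega) (by omega) (by omega) (by omega)
      (by omega)⟩
  have h4 : (L.deleteEdges {s(x i, x (i + 1))}).Adj (x (n - 1)) (x 0) := by
    rw [SimpleGraph.deleteEdges_adj, Set.mem_singleton_iff]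
    exact ⟨hc.cl, sym2_ne hc (by omega) (by omega) (by omega) (by omega) (by omega)⟩
  exact h1.symm.trans (h4.symm.reachable.trans h2.symm)

theorem nb_reach {L : SimpleGraph V} {n : ℕ} {x : ℕ → V} (hc : Cyc L n x) {i j : ℕ}
    (hi : i < n) (hj : j < n) : (nb L).Reachable (x i) (x j) := by
  have h : ∀ i, i < n → (nb L).Reachable (x 0) (x i) := by
    intro i hi
    apply seg (Nat.zero_le _)
    intro l _ hl
    exact ⟨hc.adj l (by omega), not_bridge hc (by omega)⟩
  exact (h i hi).symm.trans (h j hj)

end DIA

open Finset
open scoped Classical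
open DIA

theorem DIA_ok : S_DIA := by
  intro V _ L F m h a p q t r hat hap haq hpq hpt hqt hnat har hrp hrq hbr hF
  -- neighbourhoods
  have Np : ∀ z, L.Adj p z → z = a ∨ z = q ∨ z = t := fun z hz =>
    three (h.deg p a hap.symm) (s := {z | L.Adj p z}) hap.symm hpq hpt haq.ne hat hqt.ne hz
  have Nq : ∀ z, L.Adj q z → z = a ∨ z = p ∨ z = t := fun z hz =>
    three (h.deg q a haq.symm) (s := {z | L.Adj q z}) haq.symm hpq.symm hqt hap.ne hat hpt.ne hz
  have Na : ∀ z, L.Adj a z → z = p ∨ z = q ∨ z = r := fun z hz =>
    three (h.deg a p hap) (s := {z | L.Adj a z}) hap haq har hpq.ne hrp.symm hrq.symm hz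
  obtain ⟨x', hx't, hx'p, hx'q⟩ := third (h.deg t p hpt.symm) (s := {z | L.Adj t z})
    (a := p) (b := q) hpt.symm hqt.symm hpq.ne
  have Nt : ∀ z, L.Adj t z → z = p ∨ z = q ∨ z = x' := fun z hz =>
    three (h.deg t p hpt.symm) (s := {z | L.Adj t z}) hpt.symm hqt.symm hx't hpq.ne hx'p.symm
      hx'q.symm hz
  have hx't' : L.Adj t x' := hx't
  have hx'a : x' ≠ a := fun hh => hnat (by rw [← hh]; exact hx't'.symm)
  have hrt : r ≠ t := fun hh => hnat (by rw [← hh]; exact har)
  have hra : r ≠ a := har.ne.symm
  -- the graph outside the diamond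
  let D : Set V := {z | z = a ∨ z = p ∨ z = q ∨ z = t}
  let O : SimpleGraph V :=
    { Adj := fun y z => L.Adj y z ∧ y ∉ D ∧ z ∉ D
      symm := ⟨fun _ _ hh => ⟨hh.1.symm, hh.2.2, hh.2.1⟩⟩
      loopless := ⟨fun _ hh => L.ne_of_adj hh.1 rfl⟩ }
  have hOL : ∀ y z, O.Adj y z ↔ L.Adj y z ∧ y ∉ D ∧ z ∉ D := fun _ _ => Iff.rfl
  have hrD : r ∉ D := by
    rintro (hh | hh | hh | hh)
    · exact hra hh
    · exact hrp hh
    · exact hrq hh
    · exact hrt hh
  have hreach : O.Reachable r x' := by
    by_contra hno
    have hra' : (L.deleteEdges {s(a, r)}).Reachable r a := by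
      rw [SimpleGraph.isBridge_iff, not_not] at hbr
      exact hbr.symm
    have hUD : ∀ z, O.Reachable r z → z ∉ D := by
      intro z hz
      refine closed (H := O) (U := {z | z ∉ D}) ?_ hz hrD
      intro y w _ hyw
      exact hyw.2.2
    have : a ∈ {z | O.Reachable r z} := by
      refine closed (H := L.deleteEdges {s(a, r)}) ?_ hra' (SimpleGraph.Reachable.refl _)
      intro z w hz hzw
      rw [SimpleGraph.deleteEdges_adj, Set.mem_singleton_iff] at hzw
      have hzD := hUD z hz
      by_cases hw : w ∈ D
      · exfalso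
        rcases hw with rfl | rfl | rfl | rfl
        · rcases Na z hzw.1.symm with hh | hh | hh
          · exact hzD (Or.inr (Or.inl hh))
          · exact hzD (Or.inr (Or.inr (Or.inl hh)))
          · exact hzw.2 (by rw [hh, Sym2.eq_swap])
        · rcases Np z hzw.1.symm with hh | hh | hh
          · exact hzD (Or.inl hh)
          · exact hzD (Or.inr (Or.inr (Or.inl hh)))
          · exact hzD (Or.inr (Or.inr (Or.inr hh)))
        · rcases Nq z hzw.1.symm with hh | hh | hh
          · exact hzD (Or.inl hh)
          · exact hzD (Or.inr (Or.inl hh))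
          · exact hzD (Or.inr (Or.inr (Or.inr hh)))
        · rcases Nt z hzw.1.symm with hh | hh | hh
          · exact hzD (Or.inr (Or.inl hh))
          · exact hzD (Or.inr (Or.inr (Or.inl hh)))
          · rw [hh] at hz
            exact hno hz
      · exact hz.trans (SimpleGraph.Adj.reachable ((hOL z w).2 ⟨hzw.1, hzD, hw⟩))
    exact hUD a this (Or.inl rfl)
  -- shortest path
  obtain ⟨W, hW⟩ := hreach.exists_walk_length_eq_dist
  obtain ⟨k, hk⟩ : ∃ k, k = W.length := ⟨_, rfl⟩
  let R : ℕ → V := W.getVert
  have hR0 : R 0 = r := W.getVert_zero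
  have hRk : R k = x' := by
    change W.getVert k = x'
    rw [hk]
    exact W.getVert_length
  have hRadj : ∀ i, i < k → O.Adj (R i) (R (i + 1)) := by
    intro i hi
    exact W.adj_getVert_succ (by omega)
  have hRD : ∀ i, i ≤ k → R i ∉ D := by
    intro i hi
    rcases Nat.eq_zero_or_pos i with h0 | h0
    · rw [h0, hR0]
      exact hrD
    · have := (hRadj (i - 1) (by omega)).2.2
      rwa [Nat.sub_add_cancel h0] at this
  have hdist : ∀ i, i ≤ k → O.dist r (R i) = i := by
    intro i hi
    apply le_antisymm
    · have h1 : O.dist r (R i) ≤ (W.take i).length := SimpleGraph.dist_le _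
      rw [SimpleGraph.Walk.take_length] at h1
      omega
    · have h1 : O.dist (R i) x' ≤ (W.drop i).length := SimpleGraph.dist_le _
      rw [SimpleGraph.Walk.drop_length] at h1
      have h2 : O.dist r x' ≤ O.dist r (R i) + O.dist (R i) x' := by
        have h3 : O.Reachable r (R i) := ⟨W.take i⟩
        have h4 : O.Reachable (R i) x' := ⟨W.drop i⟩
        obtain ⟨w3, hw3⟩ := h3.exists_walk_length_eq_dist
        obtain ⟨w4, hw4⟩ := h4.exists_walk_length_eq_dist
        rw [← hw3, ← hw4, ← SimpleGraph.Walk.length_append]
        exact SimpleGraph.dist_le _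
      rw [← hW] at h2
      omega
  have hRind : ∀ i j, i ≤ k → j ≤ k → L.Adj (R i) (R j) → j = i + 1 ∨ i = j + 1 := by
    have aux : ∀ i j, i ≤ k → j ≤ k → L.Adj (R i) (R j) → j ≤ i + 1 := by
      intro i j hi hj hadj
      have h1 : O.Adj (R i) (R j) := (hOL _ _).2 ⟨hadj, hRD i hi, hRD j hj⟩
      have h3 : O.Reachable r (R i) := ⟨W.take i⟩
      obtain ⟨w3, hw3⟩ := h3.exists_walk_length_eq_dist
      have h2 : O.dist r (R j) ≤ (w3.concat h1).length := SimpleGraph.dist_le _
      rw [SimpleGraph.Walk.length_concat, hw3, hdist i hi, hdist j hj] at h2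
      exact h2
    intro i j hi hj hadj
    have h1 := aux i j hi hj hadj
    have h2 := aux j i hj hi hadj.symm
    have h3 : i ≠ j := by
      rintro rfl
      exact L.ne_of_adj hadj rfl
    omega
  have hRinj : ∀ i j, i ≤ k → j ≤ k → R i = R j → i = j := by
    intro i j hi hj hij
    rw [← hdist i hi, ← hdist j hj, hij]
  -- neighbours of the path
  have hRa : ∀ i, i ≤ k → L.Adj (R i) a → i = 0 := by
    intro i hi hadj
    rcases Na _ hadj.symm with hh | hh | hh
    · exact absurd (Or.inr (Or.inl hh)) (hRD i hi)
    · exact absurd (Or.inr (Or.inr (Or.inl hh))) (hRD i hi)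
    · exact hRinj i 0 hi (Nat.zero_le _) (by rw [hh, hR0])
  have hRt : ∀ i, i ≤ k → L.Adj (R i) t → i = k := by
    intro i hi hadj
    rcases Nt _ hadj.symm with hh | hh | hh
    · exact absurd (Or.inr (Or.inl hh)) (hRD i hi)
    · exact absurd (Or.inr (Or.inr (Or.inl hh))) (hRD i hi)
    · exact hRinj i k hi le_rfl (by rw [hh, hRk])
  have hRp : ∀ i, i ≤ k → ¬ L.Adj (R i) p := by
    intro i hi hadj
    rcases Np _ hadj.symm with hh | hh | hh
    · exact absurd (Or.inl hh) (hRD i hi)
    · exact absurd (Or.inr (Or.inr (Or.inl hh))) (hRD i hi)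
    · exact absurd (Or.inr (Or.inr (Or.inr hh))) (hRD i hi)
  have hRq : ∀ i, i ≤ k → ¬ L.Adj (R i) q := by
    intro i hi hadj
    rcases Nq _ hadj.symm with hh | hh | hh
    · exact absurd (Or.inl hh) (hRD i hi)
    · exact absurd (Or.inr (Or.inl hh)) (hRD i hi)
    · exact absurd (Or.inr (Or.inr (Or.inr hh))) (hRD i hi)
  have hLRadj : ∀ i, i < k → L.Adj (R i) (R (i + 1)) := fun i hi => (hRadj i hi).1
  have hnR : ∀ i, i ≤ k → R i ≠ a ∧ R i ≠ p ∧ R i ≠ q ∧ R i ≠ t := fun i hi =>
    ⟨fun hh => hRD i hi (Or.inl hh), fun hh => hRD i hi (Or.inr (Or.inl hh)),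
      fun hh => hRD i hi (Or.inr (Or.inr (Or.inl hh))),
      fun hh => hRD i hi (Or.inr (Or.inr (Or.inr hh)))⟩
  rcases Nat.even_or_odd k with hke | hko
  · -- first cycle
    obtain ⟨x, hx⟩ : ∃ x : ℕ → V, x = fun i => if i ≤ k then R i else if i = k + 1 then t
      else if i = k + 2 then q else a := ⟨_, rfl⟩
    have x1 : ∀ i, i ≤ k → x i = R i := fun i hi => by rw [hx]; simp only [hi, if_true]
    have x2 : x (k + 1) = t := by
      rw [hx]
      simp
    have x3 : x (k + 2) = q := by
      rw [hx]
      simp
    have x4 : x (k + 3) = a := by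
      rw [hx]
      simp
    have cases4 : ∀ i, i < k + 4 → i ≤ k ∨ i = k + 1 ∨ i = k + 2 ∨ i = k + 3 := by
      intro i hi
      omega
    have hc : Cyc L (k + 4) x := by
      refine ⟨by omega, ?_, ?_, ?_⟩
      · intro i j hi hj hij
        rcases cases4 i hi with h1 | rfl | rfl | rfl <;>
          rcases cases4 j hj with h2 | rfl | rfl | rfl
        · rw [x1 i h1, x1 j h2] at hij
          exact hRinj i j h1 h2 hij
        · rw [x1 i h1, x2] at hij
          exact absurd hij (hnR i h1).2.2.2
        · rw [x1 i h1, x3] at hij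
          exact absurd hij (hnR i h1).2.2.1
        · rw [x1 i h1, x4] at hij
          exact absurd hij (hnR i h1).1
        · rw [x1 j h2, x2] at hij
          exact absurd hij.symm (hnR j h2).2.2.2
        · rfl
        · rw [x2, x3] at hij
          exact absurd hij hqt.ne.symm
        · rw [x2, x4] at hij
          exact absurd hij hat.symm
        · rw [x1 j h2, x3] at hij
          exact absurd hij.symm (hnR j h2).2.2.1
        · rw [x2, x3] at hij
          exact absurd hij hqt.ne
        · rfl
        · rw [x3, x4] at hij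
          exact absurd hij haq.ne.symm
        · rw [x1 j h2, x4] at hij
          exact absurd hij.symm (hnR j h2).1
        · rw [x2, x4] at hij
          exact absurd hij hat
        · rw [x3, x4] at hij
          exact absurd hij haq.ne
        · rfl
      · intro i hi
        have : i < k ∨ i = k ∨ i = k + 1 ∨ i = k + 2 := by omega
        rcases this with h1 | rfl | rfl | rfl
        · rw [x1 i h1.le, x1 (i + 1) h1]
          exact hLRadj i h1
        · rw [x1 i le_rfl, x2, hRk]
          exact hx't'.symm
        · rw [x2, x3]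
          exact hqt.symm
        · rw [x3, x4]
          exact haq.symm
      · change L.Adj (x (k + 3)) (x 0)
        rw [x4, x1 0 (Nat.zero_le _), hR0]
        exact har
    have hFl : ∀ i, i < k + 4 → F (x i) → x i = a ∨ x i = t := by
      intro i hi hFi
      apply hF _ _ hFi
      have := nb_reach hc (i := k + 3) (j := i) (by omega) hi
      rwa [x4] at this
    have hCh : ∀ i, i < k + 4 → ¬ Chd L (k + 4) x i := by
      rintro i hi ⟨j, hj, hadj, hca⟩
      apply hca
      unfold CA
      rcases cases4 i hi with h1 | rfl | rfl | rfl <;>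
        rcases cases4 j hj with h2 | rfl | rfl | rfl
      · rw [x1 i h1, x1 j h2] at hadj
        have := hRind i j h1 h2 hadj
        omega
      · rw [x1 i h1, x2] at hadj
        have := hRt i h1 hadj
        omega
      · rw [x1 i h1, x3] at hadj
        exact absurd hadj (hRq i h1)
      · rw [x1 i h1, x4] at hadj
        have := hRa i h1 hadj
        omega
      · rw [x1 j h2, x2] at hadj
        have := hRt j h2 hadj.symm
        omega
      · exact absurd rfl hadj.ne
      · omega
      · rw [x2, x4] at hadj
        exact absurd hadj.symm hnat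
      · rw [x1 j h2, x3] at hadj
        exact absurd hadj.symm (hRq j h2)
      · omega
      · exact absurd rfl hadj.ne
      · omega
      · rw [x1 j h2, x4] at hadj
        have := hRa j h2 hadj.symm
        omega
      · rw [x2, x4] at hadj
        exact absurd hadj hnat
      · omega
      · exact absurd rfl hadj.ne
    have hcost := h.cost (k + 4) x hc (by
      rw [Nat.even_add]
      exact ⟨fun _ => by decide, fun _ => hke⟩)
    have c0 : ∀ i, i ∈ range (k + 1) → cst L F m (k + 4) x i = 0 := by
      intro i hi
      have hi' : i ≤ k := by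
        have := Finset.mem_range.1 hi
        omega
      have h1 := F2.cst_le_two h (k + 4) x i
      have h2 : ¬ F (x i) := by
        intro hh
        rcases hFl i (by omega) hh with h3 | h3
        · rw [x1 i hi'] at h3
          exact (hnR i hi').1 h3
        · rw [x1 i hi'] at h3
          exact (hnR i hi').2.2.2 h3
      rw [if_neg h2, if_neg (hCh i (by omega))] at h1
      omega
    have c1 : cst L F m (k + 4) x (k + 2) = 0 := by
      have h1 := F2.cst_le_two h (k + 4) x (k + 2)
      have h2 : ¬ F (x (k + 2)) := by
        intro hh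
        rcases hFl (k + 2) (by omega) hh with h3 | h3
        · rw [x3] at h3
          exact haq.ne h3.symm
        · rw [x3] at h3
          exact hqt.ne h3
      rw [if_neg h2, if_neg (hCh (k + 2) (by omega))] at h1
      omega
    have c2 : ∀ i, i < k + 4 → cst L F m (k + 4) x i ≤ 2 := by
      intro i hi
      have h1 := F2.cst_le_two h (k + 4) x i
      rw [if_neg (hCh i hi)] at h1
      split_ifs at h1 <;> omega
    rw [show k + 4 = (k + 1) + 1 + 1 + 1 from by omega, Finset.sum_range_succ,
      Finset.sum_range_succ, Finset.sum_range_succ] at hcost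
    rw [show (k + 1) + 1 + 1 + 1 = k + 4 from by omega, Finset.sum_eq_zero c0] at hcost
    have e1 := c2 (k + 1) (by omega)
    have e2 := c2 (k + 3) (by omega)
    rw [show k + 1 + 1 = k + 2 from rfl, show k + 2 + 1 = k + 3 from rfl, c1] at hcost
    omega
  · -- second cycle
    obtain ⟨x, hx⟩ : ∃ x : ℕ → V, x = fun i => if i ≤ k then R i else if i = k + 1 then t
      else if i = k + 2 then p else if i = k + 3 then q else a := ⟨_, rfl⟩
    have x1 : ∀ i, i ≤ k → x i = R i := fun i hi => by rw [hx]; simp only [hi, if_true]
    have x2 : x (k + 1) = t := by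
      rw [hx]
      simp
    have x3 : x (k + 2) = p := by
      rw [hx]
      simp
    have x4 : x (k + 3) = q := by
      rw [hx]
      simp
    have x5 : x (k + 4) = a := by
      rw [hx]
      simp
    have cases5 : ∀ i, i < k + 5 → i ≤ k ∨ i = k + 1 ∨ i = k + 2 ∨ i = k + 3 ∨ i = k + 4 := by
      intro i hi
      omega
    have hc : Cyc L (k + 5) x := by
      refine ⟨by omega, ?_, ?_, ?_⟩
      · have aux : ∀ i j, i < k + 5 → j < k + 5 → i < j → x i ≠ x j := by
          intro i j hi hj hlt hij
          rcases cases5 i hi with h1 | rfl | rfl | rfl | rfl <;>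
            rcases cases5 j hj with h2 | rfl | rfl | rfl | rfl
          · rw [x1 i h1, x1 j h2] at hij
            have := hRinj i j h1 h2 hij
            omega
          · rw [x1 i h1, x2] at hij
            exact absurd hij (hnR i h1).2.2.2
          · rw [x1 i h1, x3] at hij
            exact absurd hij (hnR i h1).2.1
          · rw [x1 i h1, x4] at hij
            exact absurd hij (hnR i h1).2.2.1
          · rw [x1 i h1, x5] at hij
            exact absurd hij (hnR i h1).1
          · omega
          · omega
          · rw [x2, x3] at hij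
            exact absurd hij hpt.ne.symm
          · rw [x2, x4] at hij
            exact absurd hij hqt.ne.symm
          · rw [x2, x5] at hij
            exact absurd hij hat.symm
          · omega
          · omega
          · omega
          · rw [x3, x4] at hij
            exact absurd hij hpq.ne
          · rw [x3, x5] at hij
            exact absurd hij hap.ne.symm
          · omega
          · omega
          · omega
          · omega
          · rw [x4, x5] at hij
            exact absurd hij haq.ne.symm
          · omega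
          · omega
          · omega
          · omega
          · omega
        intro i j hi hj hij
        by_contra hne
        rcases Nat.lt_or_gt_of_ne hne with h1 | h1
        · exact aux i j hi hj h1 hij
        · exact aux j i hj hi h1 hij.symm
      · intro i hi
        have : i < k ∨ i = k ∨ i = k + 1 ∨ i = k + 2 ∨ i = k + 3 := by omega
        rcases this with h1 | rfl | rfl | rfl | rfl
        · rw [x1 i h1.le, x1 (i + 1) h1]
          exact hLRadj i h1
        · rw [x1 i le_rfl, x2, hRk]
          exact hx't'.symm
        · rw [x2, x3]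
          exact hpt.symm
        · rw [x3, x4]
          exact hpq
        · rw [x4, x5]
          exact haq.symm
      · change L.Adj (x (k + 4)) (x 0)
        rw [x5, x1 0 (Nat.zero_le _), hR0]
        exact har
    have hFl : ∀ i, i < k + 5 → F (x i) → x i = a ∨ x i = t := by
      intro i hi hFi
      apply hF _ _ hFi
      have := nb_reach hc (i := k + 4) (j := i) (by omega) hi
      rwa [x5] at this
    have hCh : ∀ i, i ≤ k → ¬ Chd L (k + 5) x i := by
      rintro i h1 ⟨j, hj, hadj, hca⟩
      apply hca
      unfold CA
      rw [x1 i h1] at hadj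
      rcases cases5 j hj with h2 | rfl | rfl | rfl | rfl
      · rw [x1 j h2] at hadj
        have := hRind i j h1 h2 hadj
        omega
      · rw [x2] at hadj
        have := hRt i h1 hadj
        omega
      · rw [x3] at hadj
        exact absurd hadj (hRp i h1)
      · rw [x4] at hadj
        exact absurd hadj (hRq i h1)
      · rw [x5] at hadj
        have := hRa i h1 hadj
        omega
    have hcost := h.cost (k + 5) x hc (by
      rw [Nat.even_add]
      exact ⟨fun hh => absurd hh (Nat.not_even_iff_odd.2 hko), fun hh => absurd hh (by decide)⟩)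
    have c0 : ∀ i, i ∈ range (k + 1) → cst L F m (k + 5) x i = 0 := by
      intro i hi
      have hi' : i ≤ k := by
        have := Finset.mem_range.1 hi
        omega
      have h1 := F2.cst_le_two h (k + 5) x i
      have h2 : ¬ F (x i) := by
        intro hh
        rcases hFl i (by omega) hh with h3 | h3
        · rw [x1 i hi'] at h3
          exact (hnR i hi').1 h3
        · rw [x1 i hi'] at h3
          exact (hnR i hi').2.2.2 h3
      rw [if_neg h2, if_neg (hCh i hi')] at h1
      omega
    have cp : cst L F m (k + 5) x (k + 2) ≤ 1 := by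
      have h1 := F2.cst_le_one h (k + 5) x (k + 2)
      have h2 : ¬ F (x (k + 2)) := by
        intro hh
        rcases hFl (k + 2) (by omega) hh with h3 | h3
        · rw [x3] at h3
          exact hap.ne h3.symm
        · rw [x3] at h3
          exact hpt.ne h3
      rw [if_neg h2] at h1
      exact h1
    have cq : cst L F m (k + 5) x (k + 3) ≤ 1 := by
      have h1 := F2.cst_le_one h (k + 5) x (k + 3)
      have h2 : ¬ F (x (k + 3)) := by
        intro hh
        rcases hFl (k + 3) (by omega) hh with h3 | h3
        · rw [x4] at h3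
          exact haq.ne h3.symm
        · rw [x4] at h3
          exact hqt.ne h3
      rw [if_neg h2] at h1
      exact h1
    have ca : cst L F m (k + 5) x (k + 4) ≤ 1 := by
      unfold cst
      rw [if_neg]
      · split_ifs <;> omega
      · rintro ⟨y, hy, hyj, hm⟩
        rw [x5] at hy hm
        rcases Na y hy with rfl | rfl | rfl
        · exact h.m1 a y q hap haq hpq hm
        · exact hyj (k + 3) (by omega) (by unfold CA; omega) x4.symm
        · exact hyj 0 (by omega) (by unfold CA; omega)
            (by rw [x1 0 (Nat.zero_le _), hR0])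
    have ct : cst L F m (k + 5) x (k + 1) ≤ 1 := by
      unfold cst
      rw [if_neg]
      · split_ifs <;> omega
      · rintro ⟨y, hy, hyj, hm⟩
        rw [x2] at hy hm
        rcases Nt y hy with rfl | rfl | rfl
        · exact hyj (k + 2) (by omega) (by unfold CA; omega) x3.symm
        · exact h.m1 t y p hqt.symm hpt.symm hpq.symm hm
        · exact hyj k (by omega) (by unfold CA; omega) (by rw [x1 k le_rfl, hRk])
    rw [show k + 5 = (k + 1) + 1 + 1 + 1 + 1 from by omega, Finset.sum_range_succ,
      Finset.sum_range_succ, Finset.sum_range_succ, Finset.sum_range_succ] at hcost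
    rw [show (k + 1) + 1 + 1 + 1 + 1 = k + 5 from by omega, Finset.sum_eq_zero c0] at hcost
    rw [show k + 1 + 1 = k + 2 from rfl, show k + 2 + 1 = k + 3 from rfl,
      show k + 3 + 1 = k + 4 from rfl] at hcost
    omega

end Pool.Agent.R695.TR
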