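import Pool.Agent.R695.TR.Stm

/-! # TR-EAR: existence of even cycles through a vertex without bridges -/

namespace Pool.Agent.R695.TR

namespace EARaux

open Finset
open scoped Classical

variable {V : Type}

/-- reachability along consecutive indices -/
theorem reach_seg (H : SimpleGraph V) (x : ℕ → V) (a b : ℕ) (hab : a ≤ b)
    (h : ∀ i, a ≤ i → i < b → H.Adj (x i) (x (i + 1))) : H.Reachable (x a) (x b) := by
  induction b, hab using Nat.le_induction with
  | base => exact SimpleGraph.Reachable.refl _
  | succ b hab ih =>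
    exact (ih fun i h1 h2 => h i h1 (by omega)).trans (h b hab (by omega)).reachable

theorem del_adj (L : SimpleGraph V) {a b c d : V} (h : L.Adj a b) (hne : s(a, b) ≠ s(c, d)) :
    (L.deleteEdges {s(c, d)}).Adj a b := by
  rw [SimpleGraph.deleteEdges_adj]
  exact ⟨h, by simpa using hne⟩

theorem edge_ne {n : ℕ} {L : SimpleGraph V} {x : ℕ → V} (hc : Cyc L n x) {i j k l : ℕ} (hi : i < n)
    (hj : j < n) (hk : k < n) (hl : l < n) (h1 : ¬ (i = k ∧ j = l)) (h2 : ¬ (i = l ∧ j = k)) :
    s(x i, x j) ≠ s(x k, x l) := by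
  intro h
  rw [Sym2.eq_iff] at h
  rcases h with ⟨a, b⟩ | ⟨a, b⟩
  · exact h1 ⟨hc.inj _ _ hi hk a, hc.inj _ _ hj hl b⟩
  · exact h2 ⟨hc.inj _ _ hi hl a, hc.inj _ _ hj hk b⟩

/-- the edges of a cycle are not bridges -/
theorem nb_succ {n : ℕ} {L : SimpleGraph V} {x : ℕ → V} (hc : Cyc L n x) (i : ℕ) (hi : i + 1 < n) :
    (nb L).Adj (x i) (x (i + 1)) := by
  refine ⟨hc.adj i hi, ?_⟩
  rw [SimpleGraph.isBridge_iff, not_not]
  have h3 := hc.h3
  have r1 : (L.deleteEdges {s(x i, x (i + 1))}).Reachable (x 0) (x i) := by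
    refine reach_seg _ x 0 i (Nat.zero_le _) fun k _ hk => ?_
    exact del_adj L (hc.adj k (by omega)) (edge_ne hc (by omega) (by omega) (by omega) (by omega)
      (by omega) (by omega))
  have r2 : (L.deleteEdges {s(x i, x (i + 1))}).Reachable (x (i + 1)) (x (n - 1)) := by
    refine reach_seg _ x (i + 1) (n - 1) (by omega) fun k h1 hk => ?_
    exact del_adj L (hc.adj k (by omega)) (edge_ne hc (by omega) (by omega) (by omega) (by omega)
      (by omega) (by omega))
  have r3 : (L.deleteEdges {s(x i, x (i + 1))}).Adj (x (n - 1)) (x 0) :=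
    del_adj L hc.cl (edge_ne hc (by omega) (by omega) (by omega) (by omega)
      (by omega) (by omega))
  exact ((r2.trans r3.reachable).trans r1).symm

theorem nb_reach {n : ℕ} {L : SimpleGraph V} {x : ℕ → V} (hc : Cyc L n x) (i : ℕ) (hi : i < n) :
    (nb L).Reachable (x 0) (x i) :=
  reach_seg _ x 0 i (Nat.zero_le _) fun k _ hk => nb_succ hc k (by omega)

/-- a path from a non-bridge edge -/
theorem path_of (L : SimpleGraph V) (v w : V) (h : ¬ L.IsBridge s(v, w)) :
    ∃ (m : ℕ) (e : ℕ → V), e 0 = v ∧ e m = w ∧ (∀ i, i < m → L.Adj (e i) (e (i + 1)) ∧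
      s(e i, e (i + 1)) ≠ s(v, w)) ∧ ∀ i j, i ≤ m → j ≤ m → e i = e j → i = j := by
  rw [SimpleGraph.isBridge_iff, not_not] at h
  obtain ⟨p, hp⟩ := h.exists_isPath
  refine ⟨p.length, p.getVert, p.getVert_zero, p.getVert_length, fun i hi => ?_, ?_⟩
  · have h1 := p.adj_getVert_succ hi
    rw [SimpleGraph.deleteEdges_adj] at h1
    exact ⟨h1.1, by simpa using h1.2⟩
  · intro i j hi hj hij
    exact hp.getVert_injOn hi hj hij

theorem cyc_of (L : SimpleGraph V) (v w : V) (hvw : L.Adj v w) (h : ¬ L.IsBridge s(v, w)) :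
    ∃ n x, Cyc L n x ∧ x 0 = v := by
  obtain ⟨m, e, h0, hm, ha, hi⟩ := path_of L v w h
  have hm0 : m ≠ 0 := by
    rintro rfl
    rw [h0] at hm
    exact L.ne_of_adj hvw hm
  have hm1 : m ≠ 1 := by
    rintro rfl
    have := (ha 0 (by omega)).2
    rw [h0, zero_add, hm] at this
    exact this rfl
  refine ⟨m + 1, e, ⟨by omega, fun i j h1 h2 h3 => hi i j (by omega) (by omega) h3,
    fun i h1 => (ha i (by omega)).1, ?_⟩, h0⟩
  rw [Nat.add_sub_cancel, hm, h0]
  exact hvw.symm

end EARaux

open EARaux

theorem EAR_ok : S_EAR := by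
  classical
  intro V _ L hdeg v w hvw hBI
  have hnb : ∀ y, L.Adj v y → ¬ L.IsBridge s(v, y) := fun y hy hb => hBI ⟨y, hy, hb⟩
  obtain ⟨n, x, hc, hx0⟩ := cyc_of L v w hvw (hnb w hvw)
  by_cases hev : Even n
  · exact ⟨n, x, hc, hev, fun i hi => by rw [← hx0]; exact nb_reach hc i hi⟩
  have h3 := hc.h3
  have hodd : Odd n := Nat.not_even_iff_odd.1 hev
  -- neighbours of v
  have hA1 : L.Adj v (x 1) := by
    have := hc.adj 0 (by omega)
    rwa [hx0] at this
  have hAn : L.Adj v (x (n - 1)) := by
    have := hc.cl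
    rw [hx0] at this
    exact this.symm
  have hne : x 1 ≠ x (n - 1) := fun h => by
    have := hc.inj 1 (n - 1) (by omega) (by omega) h
    omega
  have hcard := hdeg v w hvw
  obtain ⟨w', hw', hw1, hwn⟩ : ∃ w', L.Adj v w' ∧ w' ≠ x 1 ∧ w' ≠ x (n - 1) := by
    by_contra hcon
    push Not at hcon
    have hsub : {z | L.Adj v z} ⊆ ({x 1, x (n - 1)} : Set V) := by
      intro z hz
      by_cases h : z = x 1
      · exact Or.inl h
      · exact Or.inr (hcon z hz h)
    have h1 := Set.ncard_le_ncard hsub (Set.toFinite _)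
    have h2 := Set.ncard_pair hne
    omega
  have honly : ∀ z, L.Adj v z → z = x 1 ∨ z = x (n - 1) ∨ z = w' := by
    intro z hz
    by_contra hcon
    push Not at hcon
    obtain ⟨c1, c2, c3⟩ := hcon
    have hsub : ({x 1, x (n - 1), w', z} : Set V) ⊆ {z | L.Adj v z} := by
      intro y hy
      rcases hy with rfl | rfl | rfl | rfl
      · exact hA1
      · exact hAn
      · exact hw'
      · exact hz
    have h1 := Set.ncard_le_ncard hsub (Set.toFinite _)
    have h2 : ({x 1, x (n - 1), w', z} : Set V).ncard = 4 := by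
      rw [Set.ncard_insert_of_notMem, Set.ncard_insert_of_notMem, Set.ncard_pair]
      · exact Ne.symm c3
      · simp only [Set.mem_insert_iff, Set.mem_singleton_iff, not_or]
        exact ⟨Ne.symm hwn, Ne.symm c2⟩
      · simp only [Set.mem_insert_iff, Set.mem_singleton_iff, not_or]
        exact ⟨hne, Ne.symm hw1, Ne.symm c1⟩
    omega
  -- path from w' to v
  have hvw' : v ≠ w' := L.ne_of_adj hw'
  obtain ⟨m, e, h0, hm, ha, hi⟩ := path_of L w' v (by rw [Sym2.eq_swap]; exact hnb w' hw')
  have hex : ∃ k, k ≤ m ∧ ∃ j, j < n ∧ e k = x j := ⟨m, le_refl m, 0, by omega, by rw [hm, hx0]⟩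
  obtain ⟨hk, j, hj, hkj⟩ := Nat.find_spec hex
  set k := Nat.find hex with hkdef
  have hmin : ∀ i, i < k → ∀ l, l < n → e i ≠ x l := by
    intro i hik l hl h
    exact Nat.find_min hex hik ⟨by omega, l, hl, h⟩
  have hj0 : j ≠ 0 := by
    rintro rfl
    rw [hx0, ← hm] at hkj
    have hkm := hi k m hk (le_refl m) hkj
    have hm0 : m ≠ 0 := by
      rintro rfl
      rw [h0] at hm
      exact hvw' hm.symm
    have h4 := ha (m - 1) (by omega)
    have e1 : m - 1 + 1 = m := by omega
    rw [e1, hm] at h4
    rcases honly _ h4.1.symm with h5 | h5 | h5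
    · exact hmin (m - 1) (by omega) 1 (by omega) h5
    · exact hmin (m - 1) (by omega) (n - 1) (by omega) h5
    · rw [h5] at h4
      exact h4.2 rfl
  have hk0 : k = 0 → 2 ≤ j ∧ j ≤ n - 2 := by
    intro hk0
    rw [hk0, h0] at hkj
    have c1 : j ≠ 1 := by
      rintro rfl
      exact hw1 hkj
    have c2 : j ≠ n - 1 := by
      rintro rfl
      exact hwn hkj
    omega
  -- the two cycles
  have cA : Cyc L (j + k + 1) (fun t => if t ≤ j then x t else e (k + j - t)) := by
    refine ⟨?_, ?_, ?_, ?_⟩
    · by_cases hk0' : k = 0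
      · have := hk0 hk0'
        omega
      · omega
    · intro s t hs ht hst
      split_ifs at hst with c1 c2 c2
      · exact hc.inj s t (by omega) (by omega) hst
      · exact absurd hst.symm (hmin _ (by omega) _ (by omega))
      · exact absurd hst (hmin _ (by omega) _ (by omega))
      · have := hi _ _ (by omega) (by omega) hst
        omega
    · intro t ht
      split_ifs with c1 c2 c2
      · exact hc.adj t (by omega)
      · have htj : t = j := by omega
        rw [htj, ← hkj]
        have h4 := (ha (k - 1) (by omega)).1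
        have e1 : k - 1 + 1 = k := by omega
        have e2 : k + j - (j + 1) = k - 1 := by omega
        rw [e1] at h4
        rw [e2]
        exact h4.symm
      · omega
      · have h4 := (ha (k + j - (t + 1)) (by omega)).1
        have e1 : k + j - (t + 1) + 1 = k + j - t := by omega
        rw [e1] at h4
        exact h4.symm
    · simp only [Nat.zero_le, if_true]
      split_ifs with c1
      · have hk0' : k = 0 := by omega
        rw [hk0', h0] at hkj
        have e1 : j + k + 1 - 1 = j := by omega
        rw [e1, ← hkj, hx0]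
        exact hw'.symm
      · have e1 : k + j - (j + k + 1 - 1) = 0 := by omega
        rw [e1, h0, hx0]
        exact hw'.symm
  have cB : Cyc L (k + 1 + (n - j)) (fun t => if t = 0 then x 0 else if t ≤ k then e (t - 1)
      else x (j + t - k - 1)) := by
    refine ⟨?_, ?_, ?_, ?_⟩
    · by_cases hk0' : k = 0
      · have := hk0 hk0'
        omega
      · omega
    · intro s t hs ht hst
      split_ifs at hst with c1 c2 c3 c2 c4 c5 c4 c5
      · omega
      · exact absurd hst.symm (hmin _ (by omega) _ (by omega))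
      · have := hc.inj _ _ (by omega) (by omega) hst
        omega
      · exact absurd hst (hmin _ (by omega) _ (by omega))
      · have := hi _ _ (by omega) (by omega) hst
        omega
      · exact absurd hst (hmin _ (by omega) _ (by omega))
      · have := hc.inj _ _ (by omega) (by omega) hst
        omega
      · exact absurd hst.symm (hmin _ (by omega) _ (by omega))
      · have := hc.inj _ _ (by omega) (by omega) hst
        omega
    · intro t ht
      simp only [Nat.add_eq_zero_iff, one_ne_zero, and_false, if_false]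
      split_ifs with c1 c2 c2 c3
      · have e1 : t + 1 - 1 = 0 := by omega
        rw [e1, h0, hx0]
        exact hw'
      · have hk0' : k = 0 := by omega
        rw [hk0', h0] at hkj
        have e1 : j + (t + 1) - k - 1 = j := by omega
        rw [e1, ← hkj, hx0]
        exact hw'
      · have h4 := (ha (t - 1) (by omega)).1
        have e1 : t - 1 + 1 = t := by omega
        have e2 : t + 1 - 1 = t := by omega
        rw [e1] at h4
        rw [e2]
        exact h4
      · have h4 := (ha (t - 1) (by omega)).1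
        have e1 : t - 1 + 1 = k := by omega
        have e2 : j + (t + 1) - k - 1 = j := by omega
        rw [e1, hkj] at h4
        rw [e2]
        exact h4
      · omega
      · have h4 := hc.adj (j + t - k - 1) (by omega)
        have e1 : j + (t + 1) - k - 1 = j + t - k - 1 + 1 := by omega
        rw [e1]
        exact h4
    · simp only [if_true]
      have c1 : ¬ (k + 1 + (n - j) - 1 = 0) := by omega
      have c2 : ¬ (k + 1 + (n - j) - 1 ≤ k) := by omega
      rw [if_neg c1, if_neg c2]
      have e1 : j + (k + 1 + (n - j) - 1) - k - 1 = n - 1 := by omega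
      rw [e1]
      exact hc.cl
  have hpar : Even (j + k + 1) ∨ Even (k + 1 + (n - j)) := by
    obtain ⟨r, hr⟩ := hodd
    rcases Nat.even_or_odd (j + k + 1) with h | ⟨s, hs⟩
    · exact Or.inl h
    · right
      exact ⟨r + k + 1 - s, by omega⟩
  have hv0 : (nb L).Reachable v (x 0) := by simp [hx0]
  rcases hpar with h | h
  · refine ⟨_, _, cA, h, fun i hi' => ?_⟩
    have := nb_reach cA i hi'
    simp only [Nat.zero_le, if_true] at this
    exact hv0.trans this
  · refine ⟨_, _, cB, h, fun i hi' => ?_⟩
    have := nb_reach cB i hi'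
    simp only [if_true] at this
    exact hv0.trans this

end Pool.Agent.R695.TR
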