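import Pool.Agent.R695.TR.Stm

namespace Pool.Agent.R695.TR

namespace F2

open Finset
open scoped Classical

theorem cst_le_two {V : Type} {L : SimpleGraph V} {F : V → Prop} {m : V → V → Prop}
    (h : GH L F m) (n : ℕ) (x : ℕ → V) (i : ℕ) :
    cst L F m n x i ≤ 2 * (if F (x i) then 1 else 0) + (if Chd L n x i then 1 else 0) := by
  unfold cst
  by_cases h1 : ∃ y, L.Adj (x i) y ∧ (∀ j, j < n → CA n i j → y ≠ x j) ∧ m (x i) y
  · rw [if_pos h1]
    obtain ⟨y, hy, -, hm⟩ := h1
    rw [if_pos (h.Fm _ _ hy hm)]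
    omega
  · rw [if_neg h1]
    by_cases h2 : F (x i)
    · simp only [h2, true_or, if_true]
      omega
    · by_cases h3 : Chd L n x i
      · simp only [h2, h3, or_true, if_true, if_false]
        omega
      · simp only [h2, h3, or_self, if_false]
        omega

theorem cst_le_one {V : Type} {L : SimpleGraph V} {F : V → Prop} {m : V → V → Prop}
    (h : GH L F m) (n : ℕ) (x : ℕ → V) (i : ℕ) :
    cst L F m n x i ≤ 1 + (if F (x i) then 1 else 0) := by
  unfold cst
  by_cases h1 : ∃ y, L.Adj (x i) y ∧ (∀ j, j < n → CA n i j → y ≠ x j) ∧ m (x i) y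
  · rw [if_pos h1]
    obtain ⟨y, hy, -, hm⟩ := h1
    rw [if_pos (h.Fm _ _ hy hm)]
  · rw [if_neg h1]
    split_ifs <;> omega

end F2

open Finset
open scoped Classical

theorem F2_ok : S_CH → S_F2 := by
  intro hCH V _ L F m h n x hc he
  obtain ⟨n', x', hc', he', hsub, hch⟩ := hCH V L h.deg n x hc he
  have hcost := h.cost n' x' hc' he'
  have key : 2 ≤ ((range n').filter (fun i => F (x' i))).card := by
    rcases hch with hch | hch
    · have h1 : ∑ i ∈ range n', cst L F m n' x' i ≤
          ∑ i ∈ range n', (2 * (if F (x' i) then 1 else 0) + (if Chd L n' x' i then 1 else 0)) :=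
        Finset.sum_le_sum (fun i _ => F2.cst_le_two h n' x' i)
      rw [Finset.sum_add_distrib, ← Finset.mul_sum, ← Finset.card_filter,
        ← Finset.card_filter] at h1
      omega
    · have h1 : ∑ i ∈ range n', cst L F m n' x' i ≤
          ∑ i ∈ range n', (1 + (if F (x' i) then 1 else 0)) :=
        Finset.sum_le_sum (fun i _ => F2.cst_le_one h n' x' i)
      rw [Finset.sum_add_distrib, ← Finset.card_filter, Finset.sum_const, Finset.card_range,
        hch] at h1
      rw [hch] at hcost ⊢
      simp only [smul_eq_mul, mul_one] at h1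
      omega
  refine le_trans key ?_
  choose! j hj hxj using hsub
  apply Finset.card_le_card_of_injOn j
  · intro i hi
    simp only [Finset.coe_filter, Finset.mem_range, Set.mem_ofPred_eq] at hi ⊢
    exact ⟨hj i hi.1, by rw [← hxj i hi.1]; exact hi.2⟩
  · intro i hi i' hi' hij
    simp only [Finset.coe_filter, Finset.mem_range, Set.mem_ofPred_eq] at hi hi'
    apply hc'.inj i i' hi.1 hi'.1
    rw [hxj i hi.1, hxj i' hi'.1, hij]

end Pool.Agent.R695.TR
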