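import Pool.Agent.R695.TR.Stm

namespace Pool.Agent.R695.TR

namespace FinAsm

open Finset
open scoped Classical

variable {V : Type}

theorem bi_adj {G : SimpleGraph V} {x v : V} (h : BI (link G x) v) : G.Adj v x := by
  obtain ⟨y, hy, -⟩ := h
  exact hy.1.symm

theorem gh (hC : S_COSTC) (hT : S_TRI) [Fintype V] (G : SimpleGraph V) (hL : LC G) (hS : Star G)
    (v : V) : GH (link G v) (fun x => BI (link G x) v)
      (fun x y => (link G x).IsBridge s(v, y)) where
  deg := by
    rintro x y ⟨h1, h2, h3⟩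
    have := hL v x h1
    rw [← this]
    congr 1
    ext z
    simp only [Set.mem_setOf_eq, link]
    tauto
  Fm := by
    rintro x y ⟨h1, h2, h3⟩ hm
    exact ⟨y, ⟨h1.symm, h3, h2⟩, hm⟩
  m1 := by
    rintro x y z ⟨h1, h2, h3⟩ ⟨-, h4, h5⟩ ⟨-, -, h6⟩ hm
    rw [SimpleGraph.isBridge_iff] at hm
    apply hm
    have hzy : ((link G x).deleteEdges {s(v, y)}).Adj v z := by
      rw [SimpleGraph.deleteEdges_adj]
      refine ⟨⟨h1.symm, h5, h4⟩, ?_⟩
      intro h
      rw [Set.mem_singleton_iff, Sym2.eq_iff] at h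
      rcases h with ⟨-, h⟩ | ⟨h, -⟩
      · exact h6.ne h.symm
      · exact h2.ne h
    have hzy2 : ((link G x).deleteEdges {s(v, y)}).Adj z y := by
      rw [SimpleGraph.deleteEdges_adj]
      refine ⟨⟨h5, h3, h6.symm⟩, ?_⟩
      intro h
      rw [Set.mem_singleton_iff, Sym2.eq_iff] at h
      rcases h with ⟨h, -⟩ | ⟨h, -⟩
      · exact h4.ne h.symm
      · exact h6.ne h.symm
    exact hzy.reachable.trans hzy2.reachable
  tri := by
    rintro x y z ⟨h1, h2, h3⟩ ⟨-, h4, h5⟩ ⟨-, -, h6⟩
    exact hT V G hL hS v x y z h1 h2 h4 h3 h5 h6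
  cost := by
    intro n x hx he
    exact hC V G hL hS v n x hx he

theorem main (hR : S_RED) (hC : S_COSTC) (hT : S_TRI) (hG : S_G) : S_FIN := by
  intro V _ G h3
  by_contra hcon
  obtain ⟨G', ⟨a, b, hab⟩, hL, hS⟩ := hR V G h3 hcon
  have hstrict : ∀ v w, G'.Adj v w → (univ.filter (fun x => BI (link G' v) x)).card <
      (univ.filter (fun x => BI (link G' x) v)).card := by
    intro v w hvw
    refine hG V (link G' v) _ _ (gh hC hT G' hL hS v) ?_
    have h := hL v w hvw
    have hne : {z | G'.Adj v z ∧ G'.Adj w z}.Nonempty := by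
      apply Set.nonempty_of_ncard_ne_zero
      omega
    obtain ⟨z, hz1, hz2⟩ := hne
    exact ⟨w, z, hvw, hz1, hz2⟩
  have hle : ∀ v ∈ (univ : Finset V), (univ.filter (fun x => BI (link G' v) x)).card ≤
      (univ.filter (fun x => BI (link G' x) v)).card := by
    intro v _
    by_cases hv : ∃ w, G'.Adj v w
    · obtain ⟨w, hw⟩ := hv
      exact (hstrict v w hw).le
    · have : (univ.filter (fun x => BI (link G' v) x)) = ∅ := by
        apply Finset.filter_eq_empty_iff.2
        rintro x - ⟨y, hy, -⟩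
        exact hv ⟨x, hy.1⟩
      rw [this]
      simp
  have hlt : ∑ v : V, (univ.filter (fun x => BI (link G' v) x)).card <
      ∑ v : V, (univ.filter (fun x => BI (link G' x) v)).card :=
    Finset.sum_lt_sum hle ⟨a, mem_univ _, hstrict a b hab⟩
  have heq : ∑ v : V, (univ.filter (fun x => BI (link G' v) x)).card =
      ∑ v : V, (univ.filter (fun x => BI (link G' x) v)).card := by
    simp only [Finset.card_filter]
    rw [Finset.sum_comm]
  omega

end FinAsm

end Pool.Agent.R695.TR
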