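import Pool.Agent.R695.TR.Stm

/-! Piece TR-G: the pure graph lemma by summation over the components. -/

namespace Pool.Agent.R695.TR

open Finset
open scoped Classical

namespace GG

theorem fib {V C : Type} [Fintype V] [Fintype C] (g : V → C) (P : V → Prop) (T : Finset C)
    (hT : ∀ x, P x → g x ∈ T) :
    ∑ c ∈ T, (univ.filter (fun x => g x = c ∧ P x)).card = (univ.filter P).card := by
  rw [Finset.card_eq_sum_card_fiberwise (f := g) (t := T) (s := univ.filter P)
    (fun x hx => hT x (Finset.mem_filter.1 hx).2)]
  refine Finset.sum_congr rfl fun c _ => ?_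
  congr 1
  ext x
  simp only [Finset.mem_filter, Finset.mem_univ, true_and]
  exact and_comm

theorem fib_le {V C : Type} [Fintype V] [Fintype C] (g : V → C) (P : V → Prop) (T : Finset C) :
    ∑ c ∈ T, (univ.filter (fun x => g x = c ∧ P x)).card ≤ (univ.filter P).card := by
  rw [← fib g P univ fun x _ => Finset.mem_univ _]
  exact Finset.sum_le_sum_of_subset (Finset.subset_univ T)

theorem fib_sum {V C : Type} [Fintype V] [Fintype C] (g : V → C) (f : V → ℕ) (T : Finset C) :
    ∑ c ∈ T, ∑ x ∈ univ.filter (fun x => g x = c), f x ≤ ∑ x, f x := by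
  rw [← Finset.sum_fiberwise univ g f]
  exact Finset.sum_le_sum_of_subset (Finset.subset_univ T)

end GG

theorem G_ok : S_K → S_CNT → S_G := by
  intro hK hC V _ L F m hG hadj
  by_cases hBI : ∃ x, BI L x
  · have hcnt := hC V L hBI
    obtain ⟨T, hT⟩ : ∃ T : Finset (nb L).ConnectedComponent, T =
        univ.filter (fun c : (nb L).ConnectedComponent =>
          ∃ x, (nb L).connectedComponentMk x = c ∧ BI L x) := ⟨_, rfl⟩
    rw [← hT] at hcnt
    have h1 : ∀ c ∈ T, (4 : ℤ) +
        (univ.filter (fun x => (nb L).connectedComponentMk x = c ∧ BI L x)).card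
        ≤ (univ.filter (fun x => (nb L).connectedComponentMk x = c ∧ F x)).card +
        2 * ∑ x ∈ univ.filter (fun x => (nb L).connectedComponentMk x = c),
              ((univ.filter (fun y => Br L x y)).card : ℤ) := by
      intro c hc
      rw [hT, Finset.mem_filter] at hc
      exact (hK V L F m hG c).1 hc.2
    have h2 := Finset.sum_le_sum h1
    rw [Finset.sum_add_distrib, Finset.sum_add_distrib, Finset.sum_const, nsmul_eq_mul,
      ← Finset.mul_sum] at h2
    have hb : (∑ c ∈ T, ((univ.filter (fun x => (nb L).connectedComponentMk x = c ∧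
        BI L x)).card : ℤ)) = ((univ.filter (fun x => BI L x)).card : ℤ) := by
      have h3 := GG.fib (nb L).connectedComponentMk (fun x => BI L x) T (by
        intro x hx
        rw [hT, Finset.mem_filter]
        exact ⟨Finset.mem_univ _, x, rfl, hx⟩)
      exact_mod_cast h3
    have hf : (∑ c ∈ T, ((univ.filter (fun x => (nb L).connectedComponentMk x = c ∧
        F x)).card : ℤ)) ≤ ((univ.filter (fun x => F x)).card : ℤ) := by
      exact_mod_cast GG.fib_le (nb L).connectedComponentMk (fun x => F x) T
    have hk : (∑ c ∈ T, ∑ x ∈ univ.filter (fun x => (nb L).connectedComponentMk x = c),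
        ((univ.filter (fun y => Br L x y)).card : ℤ)) ≤
        ((∑ x : V, (univ.filter (fun y => Br L x y)).card : ℕ) : ℤ) := by
      exact_mod_cast GG.fib_sum (nb L).connectedComponentMk
        (fun x => (univ.filter (fun y => Br L x y)).card) T
    rw [hb] at h2
    have hcnt' : ((∑ x : V, (univ.filter (fun y => Br L x y)).card : ℕ) : ℤ) + 2 ≤
        2 * (T.card : ℤ) := by exact_mod_cast hcnt
    have h4 : ((univ.filter (fun x => BI L x)).card : ℤ) <
        ((univ.filter (fun x => F x)).card : ℤ) := by linarith
    exact_mod_cast h4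
  · push Not at hBI
    obtain ⟨x, y, hxy⟩ := hadj
    have h1 := (hK V L F m hG ((nb L).connectedComponentMk x)).2 (fun z _ => hBI z)
      ⟨x, y, rfl, hxy⟩
    have h2 : (univ.filter (fun x => BI L x)).card = 0 := by
      rw [Finset.card_eq_zero, Finset.filter_eq_empty_iff]
      exact fun z _ => hBI z
    rw [h2]
    refine lt_of_lt_of_le Nat.zero_lt_one (h1.trans (Finset.card_le_card ?_))
    intro z hz
    rw [Finset.mem_filter] at hz ⊢
    exact ⟨hz.1, hz.2.2⟩

end Pool.Agent.R695.TR
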