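import Pool.Agent.R695.TR.Stm

namespace Pool.Agent.R695.TR

namespace GLem

open Finset
open scoped Classical

theorem G_ok : S_K → S_CNT → S_G := by
  intro hK hCNT V _ L F m hGH hex
  by_cases hB : ∃ x, BI L x
  · have hcnt := hCNT V L hB
    have hKc := fun c => (hK V L F m hGH c).1
    set C := (nb L).ConnectedComponent with hCdef
    let mk : V → C := (nb L).connectedComponentMk
    let T1 : Finset C := univ.filter (fun c : C => ∃ x, mk x = c ∧ BI L x)
    have hT1 : ∑ x : V, (univ.filter (fun y => Br L x y)).card + 2 ≤ 2 * T1.card := hcnt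
    -- fiberwise sums
    have hb : (univ.filter (fun x => BI L x)).card =
        ∑ c ∈ T1, (univ.filter (fun x => mk x = c ∧ BI L x)).card := by
      rw [Finset.card_eq_sum_card_fiberwise (f := mk) (t := T1)]
      · apply Finset.sum_congr rfl
        intro c _
        congr 1
        ext x
        simp only [mem_filter, mem_univ, true_and]
        tauto
      · intro x hx
        simp only [coe_filter, mem_univ, true_and, Set.mem_setOf_eq] at hx
        simp only [T1, coe_filter, mem_univ, true_and, Set.mem_setOf_eq]
        exact ⟨x, rfl, hx⟩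
    have hf : ∑ c ∈ T1, (univ.filter (fun x => mk x = c ∧ F x)).card ≤
        (univ.filter (fun x => F x)).card := by
      have h1 : (univ.filter (fun x => F x)).card =
          ∑ c : C, (univ.filter (fun x => mk x = c ∧ F x)).card := by
        rw [Finset.card_eq_sum_card_fiberwise (f := mk) (t := univ)]
        · apply Finset.sum_congr rfl
          intro c _
          congr 1
          ext x
          simp only [mem_filter, mem_univ, true_and]
          tauto
        · intro x hx
          simp
      rw [h1]
      exact Finset.sum_le_sum_of_subset (Finset.subset_univ _)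
    have hk : ∑ c ∈ T1, ∑ x ∈ univ.filter (fun x => mk x = c), (univ.filter (fun y => Br L x y)).card
        ≤ ∑ x : V, (univ.filter (fun y => Br L x y)).card := by
      have h1 : ∑ x : V, (univ.filter (fun y => Br L x y)).card =
          ∑ c : C, ∑ x ∈ univ.filter (fun x => mk x = c),
            (univ.filter (fun y => Br L x y)).card := by
        exact (Finset.sum_fiberwise (univ : Finset V) mk (fun x => (univ.filter (fun y => Br L x y)).card)).symm
      rw [h1]
      exact Finset.sum_le_sum_of_subset (Finset.subset_univ _)
    have hsum : ∑ c ∈ T1, ((4 : ℤ) + (univ.filter (fun x => mk x = c ∧ BI L x)).card) ≤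
        ∑ c ∈ T1, (((univ.filter (fun x => mk x = c ∧ F x)).card : ℤ) +
          2 * ∑ x ∈ univ.filter (fun x => mk x = c), ((univ.filter (fun y => Br L x y)).card : ℤ)) := by
      apply Finset.sum_le_sum
      intro c hc
      have hc' : ∃ x, mk x = c ∧ BI L x := by
        simpa [T1] using hc
      exact hKc c hc'
    rw [Finset.sum_add_distrib, Finset.sum_add_distrib, ← Finset.mul_sum] at hsum
    simp only [Finset.sum_const, nsmul_eq_mul] at hsum
    have hb' : ((univ.filter (fun x => BI L x)).card : ℤ) =
        ∑ c ∈ T1, ((univ.filter (fun x => mk x = c ∧ BI L x)).card : ℤ) := by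
      rw [hb]; push_cast; rfl
    have hf' : ∑ c ∈ T1, ((univ.filter (fun x => mk x = c ∧ F x)).card : ℤ) ≤
        ((univ.filter (fun x => F x)).card : ℤ) := by
      exact_mod_cast hf
    have hk' : ∑ c ∈ T1, ∑ x ∈ univ.filter (fun x => mk x = c),
        ((univ.filter (fun y => Br L x y)).card : ℤ)
        ≤ ∑ x : V, ((univ.filter (fun y => Br L x y)).card : ℤ) := by
      exact_mod_cast hk
    have hT1' : ∑ x : V, ((univ.filter (fun y => Br L x y)).card : ℤ) + 2 ≤ 2 * (T1.card : ℤ) := by
      exact_mod_cast hT1
    have : ((univ.filter (fun x => BI L x)).card : ℤ) < ((univ.filter (fun x => F x)).card : ℤ) := by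
      rw [hb']
      linarith
    exact_mod_cast this
  · have h0 : (univ.filter (fun x => BI L x)) = ∅ := by
      apply Finset.filter_eq_empty_iff.2
      intro x _ hx
      exact hB ⟨x, hx⟩
    rw [h0, Finset.card_empty]
    obtain ⟨x, y, hxy⟩ := hex
    have h1 := (hK V L F m hGH ((nb L).connectedComponentMk x)).2
      (fun z _ hz => hB ⟨z, hz⟩) ⟨x, y, rfl, hxy⟩
    refine lt_of_lt_of_le (by omega) (le_trans h1 ?_)
    apply Finset.card_le_card
    intro z hz
    simp only [mem_filter, mem_univ, true_and] at hz ⊢
    exact hz.2

end GLem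

end Pool.Agent.R695.TR
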