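import Pool.Agent.R695.TR.Stm

set_option autoImplicit false

namespace Pool.Agent.R695.TR

namespace HGaux

open Finset
open scoped Classical

variable {P Λ : Type} [Fintype P] [Fintype Λ]

/-- Both signs on a line. -/
def BS (inc : Λ → Finset P) (s : P → ℤ) (l : Λ) : Prop :=
  (∃ p ∈ inc l, 0 < s p) ∧ (∃ p ∈ inc l, s p < 0)

theorem BS_mono {inc : Λ → Finset P} {s s' : P → ℤ} (h : ∀ p, s p ≠ 0 → s' p = s p) {l : Λ}
    (hl : BS inc s l) : BS inc s' l := by
  obtain ⟨⟨p, hp, hp'⟩, ⟨q, hq, hq'⟩⟩ := hl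
  exact ⟨⟨p, hp, by rw [h p hp'.ne']; exact hp'⟩, ⟨q, hq, by rw [h q hq'.ne]; exact hq'⟩⟩

theorem no_matching (inc : Λ → Finset P)
    (hstar : ∀ s : P → ℤ, (∃ p, s p ≠ 0) → ∃ l, (∃ p ∈ inc l, s p ≠ 0) ∧ ¬ BS inc s l)
    (s : P → ℤ) (hs : ∃ p, s p ≠ 0)
    (m : {l : Λ // ¬ BS inc s l} → P) (hm : Function.Injective m)
    (hm1 : ∀ l, m l ∈ inc l.1) (hm2 : ∀ l, s (m l) = 0) : False := by
  have key : ∀ n : ℕ, ∀ s' : P → ℤ, (univ.filter (fun p => s' p = 0)).card = n →
      (∀ p, s p ≠ 0 → s' p = s p) →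
      (∀ p, s p = 0 → s' p ≠ 0 → ∃ l, p = m l ∧ BS inc s' l.1) → False := by
    intro n
    induction n using Nat.strong_induction_on with
    | _ n ih =>
    intro s' hn h1 h2
    obtain ⟨q, hq⟩ := hs
    obtain ⟨l, ⟨p0, hp0, hp0'⟩, hl⟩ := hstar s' ⟨q, by rw [h1 q hq]; exact hq⟩
    have hls : ¬ BS inc s l := fun h => hl (BS_mono h1 h)
    set l0 : {l : Λ // ¬ BS inc s l} := ⟨l, hls⟩ with hl0
    set p1 := m l0 with hp1
    have hz : s' p1 = 0 := by
      by_contra hne
      obtain ⟨l', hl', hb⟩ := h2 p1 (hm2 l0) hne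
      have : l' = l0 := hm (hl'.symm.trans hp1)
      rw [this] at hb
      exact hl hb
    have h01 : p0 ≠ p1 := fun h => hp0' (by rw [h, hz])
    set s'' : P → ℤ := Function.update s' p1 (-(s' p0)) with hs''
    have hu : ∀ p, p ≠ p1 → s'' p = s' p := fun p hp => by
      rw [hs'', Function.update_of_ne hp]
    have hu1 : s'' p1 = -(s' p0) := by rw [hs'', Function.update_self]
    have hmono : ∀ p, s' p ≠ 0 → s'' p = s' p := fun p hp => hu p (fun h => hp (by rw [h, hz]))
    refine ih _ ?_ s'' rfl ?_ ?_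
    · rw [← hn]
      apply Finset.card_lt_card
      rw [Finset.ssubset_iff_of_subset]
      · refine ⟨p1, by simp [hz], ?_⟩
        simp [hu1, hp0']
      · intro p hp
        simp only [mem_filter, mem_univ, true_and] at hp ⊢
        by_contra h
        exact h (by rw [← hmono p h]; exact hp)
    · intro p hp
      rw [hu p (fun h => hp (by rw [h]; exact hm2 l0)), h1 p hp]
    · intro p hp hp'
      by_cases hpp : p = p1
      · refine ⟨l0, hpp, ?_⟩
        have a0 : s'' p0 = s' p0 := hu p0 h01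
        rcases lt_or_gt_of_ne hp0' with h | h
        · exact ⟨⟨p1, hm1 l0, by rw [hu1]; omega⟩, ⟨p0, hp0, by rw [a0]; exact h⟩⟩
        · exact ⟨⟨p0, hp0, by rw [a0]; exact h⟩, ⟨p1, hm1 l0, by rw [hu1]; omega⟩⟩
      · obtain ⟨l', hl', hb⟩ := h2 p hp (by rw [← hu p hpp]; exact hp')
        exact ⟨l', hl', BS_mono hmono hb⟩
  exact key _ s rfl (fun _ _ => rfl) (fun p h h' => absurd h h')

/-- Neighbours of a set of lines with value zero. -/
noncomputable def N (inc : Λ → Finset P) (s : P → ℤ) (S : Finset Λ) : Finset P :=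
  univ.filter (fun p => s p = 0 ∧ ∃ l ∈ S, p ∈ inc l)

/-- Degree of a point. -/
noncomputable def d (inc : Λ → Finset P) (S : Finset Λ) (p : P) : ℕ :=
  (S.filter (fun l => p ∈ inc l)).card

theorem sum_d (inc : Λ → Finset P) (h3 : ∀ l, (inc l).card = 3) (S : Finset Λ) :
    ∑ p, d inc S p = 3 * S.card := by
  have : ∀ p, d inc S p = ∑ l ∈ S, if p ∈ inc l then 1 else 0 := by
    intro p
    rw [d, Finset.card_filter]
  simp_rw [this]
  rw [Finset.sum_comm]
  have h : ∀ l ∈ S, (∑ p, if p ∈ inc l then 1 else 0) = 3 := by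
    intro l _
    rw [← Finset.card_filter, ← h3 l]
    congr 1
    ext p; simp
  rw [Finset.sum_congr rfl h]
  simp [mul_comm]

end HGaux

open Finset
open scoped Classical
open HGaux in
theorem HG_ok : S_HG := by
  intro P Λ _ _ inc h3 hd hstar s hs
  have hstar' : ∀ s : P → ℤ, (∃ p, s p ≠ 0) → ∃ l, (∃ p ∈ inc l, s p ≠ 0) ∧ ¬ BS inc s l := hstar
  have hno : ¬ ∃ f : {l : Λ // ¬ BS inc s l} → P, Function.Injective f ∧
      ∀ x, f x ∈ (inc x.1).filter (fun p => s p = 0) := by
    rintro ⟨f, hf, hf'⟩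
    exact no_matching inc hstar' s hs f hf (fun l => (mem_filter.1 (hf' l)).1)
      (fun l => (mem_filter.1 (hf' l)).2)
  rw [← Finset.all_card_le_biUnion_card_iff_exists_injective] at hno
  push Not at hno
  obtain ⟨s0, hs0⟩ := hno
  let Viol : Finset Λ → Prop := fun S => (∀ l ∈ S, ¬ BS inc s l) ∧ (N inc s S).card < S.card
  have hV : ∃ S, Viol S := by
    refine ⟨s0.image Subtype.val, ?_, ?_⟩
    · intro l hl
      obtain ⟨x, _, rfl⟩ := mem_image.1 hl
      exact x.2
    · rw [Finset.card_image_of_injective _ Subtype.val_injective]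
      refine lt_of_le_of_lt (Finset.card_le_card ?_) hs0
      intro p hp
      simp only [N, mem_filter, mem_univ, true_and, mem_image] at hp
      obtain ⟨hp0, l, ⟨x, hx, rfl⟩, hpl⟩ := hp
      exact mem_biUnion.2 ⟨x, hx, mem_filter.2 ⟨hpl, hp0⟩⟩
  obtain ⟨S, hSm, hmin⟩ := Finset.exists_min_image (univ.filter Viol : Finset (Finset Λ))
    Finset.card (by obtain ⟨S, hS⟩ := hV; exact ⟨S, by simpa using hS⟩)
  have hS : Viol S := by simpa using hSm
  have hmin' : ∀ S', Viol S' → S.card ≤ S'.card := fun S' h => hmin S' (by simpa using h)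
  have hd2 : ∀ p, s p = 0 → (∃ l ∈ S, p ∈ inc l) → 2 ≤ d inc S p := by
    intro p hp ⟨l, hl, hpl⟩
    by_contra hlt
    have h1 : d inc S p = 1 := by
      have : 0 < d inc S p := Finset.card_pos.2 ⟨l, mem_filter.2 ⟨hl, hpl⟩⟩
      omega
    obtain ⟨l', hl'⟩ := Finset.card_eq_one.1 h1
    have hll : l = l' := by
      have : l ∈ S.filter (fun l => p ∈ inc l) := mem_filter.2 ⟨hl, hpl⟩
      rw [hl'] at this
      exact mem_singleton.1 this
    have huniq : ∀ k ∈ S, p ∈ inc k → k = l := by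
      intro k hk hpk
      have : k ∈ S.filter (fun l => p ∈ inc l) := mem_filter.2 ⟨hk, hpk⟩
      rw [hl'] at this
      rw [hll]; exact mem_singleton.1 this
    have hv : Viol (S.erase l) := by
      refine ⟨fun k hk => hS.1 k (mem_of_mem_erase hk), ?_⟩
      have hsub : N inc s (S.erase l) ⊆ (N inc s S).erase p := by
        intro q hq
        simp only [N, mem_filter, mem_univ, true_and] at hq
        obtain ⟨hq0, k, hk, hqk⟩ := hq
        refine mem_erase.2 ⟨?_, ?_⟩
        · rintro rfl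
          exact (mem_erase.1 hk).1 (huniq k (mem_erase.1 hk).2 hqk)
        · simp only [N, mem_filter, mem_univ, true_and]
          exact ⟨hq0, k, (mem_erase.1 hk).2, hqk⟩
      have hpN : p ∈ N inc s S := by
        simp only [N, mem_filter, mem_univ, true_and]
        exact ⟨hp, l, hl, hpl⟩
      have h1 := Finset.card_le_card hsub
      rw [card_erase_of_mem hpN] at h1
      rw [card_erase_of_mem hl]
      have h2 := hS.2
      have h3' : 0 < (N inc s S).card := Finset.card_pos.2 ⟨p, hpN⟩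
      omega
    have := hmin' _ hv
    rw [card_erase_of_mem hl] at this
    have : 0 < S.card := Finset.card_pos.2 ⟨l, hl⟩
    omega
  refine ⟨S, fun l hl => hS.1 l hl, hd2, ?_⟩
  show 3 + (univ.filter (fun p => s p = 0 ∧ d inc S p = 2)).card
      ≤ ∑ p ∈ univ.filter (fun p => s p ≠ 0), d inc S p
  have hle3 : ∀ p, d inc S p ≤ 3 := by
    intro p
    rw [← hd p]
    exact Finset.card_le_card (Finset.filter_subset_filter _ (subset_univ _))
  have htot := sum_d inc h3 S
  have hsplit : ∑ p ∈ univ.filter (fun p => s p = 0), d inc S p +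
      ∑ p ∈ univ.filter (fun p => ¬ s p = 0), d inc S p = 3 * S.card := by
    rw [Finset.sum_filter_add_sum_filter_not, htot]
  have hzero : ∑ p ∈ univ.filter (fun p => s p = 0), d inc S p +
      (univ.filter (fun p => s p = 0 ∧ d inc S p = 2)).card ≤ 3 * (N inc s S).card := by
    have e1 : (univ.filter (fun p => s p = 0 ∧ d inc S p = 2)).card =
        ∑ p ∈ univ.filter (fun p => s p = 0), if d inc S p = 2 then 1 else 0 := by
      rw [← Finset.card_filter, Finset.filter_filter]
    have e2 : 3 * (N inc s S).card =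
        ∑ p ∈ univ.filter (fun p => s p = 0), if (∃ l ∈ S, p ∈ inc l) then 3 else 0 := by
      rw [← Finset.sum_filter, Finset.filter_filter, Finset.sum_const, smul_eq_mul, mul_comm]
      rfl
    rw [e1, e2, ← Finset.sum_add_distrib]
    refine Finset.sum_le_sum fun p hp => ?_
    have hp0 : s p = 0 := (mem_filter.1 hp).2
    by_cases hex : ∃ l ∈ S, p ∈ inc l
    · rw [if_pos hex]
      have := hd2 p hp0 hex
      have := hle3 p
      split_ifs <;> omega
    · rw [if_neg hex]
      have : d inc S p = 0 := by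
        rw [d, Finset.card_eq_zero, Finset.filter_eq_empty_iff]
        intro l hl hpl
        exact hex ⟨l, hl, hpl⟩
      simp [this]
  have h2 := hS.2
  have : (∑ p ∈ univ.filter (fun p => s p ≠ 0), d inc S p) =
      ∑ p ∈ univ.filter (fun p => ¬ s p = 0), d inc S p := rfl
  omega

end Pool.Agent.R695.TR
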