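import Pool.Agent.R695.TR.Stm

/-! Piece TR-HALL: the graph form of the Hall violator. -/

namespace Pool.Agent.R695.TR

open Finset
open scoped Classical

namespace HL

variable {V : Type} [Fintype V] (G : SimpleGraph V)

/-- points -/
abbrev PP : Type := {e : Sym2 V // e ∈ G.edgeSet}

/-- lines -/
abbrev LL : Type := {t : Finset V // G.IsNClique 3 t}

/-- incidence -/
noncomputable def inc (l : LL G) : Finset (PP G) := univ.filter fun e => ∀ v ∈ e.1, v ∈ l.1

theorem mem_inc {l : LL G} {x y : V} (h : G.Adj x y) :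
    (⟨s(x, y), h⟩ : PP G) ∈ inc G l ↔ x ∈ l.1 ∧ y ∈ l.1 := by
  unfold inc
  rw [Finset.mem_filter]
  constructor
  · rintro ⟨-, h1⟩
    exact ⟨h1 x (Sym2.mem_mk_left x y), h1 y (Sym2.mem_mk_right x y)⟩
  · rintro ⟨h1, h2⟩
    refine ⟨Finset.mem_univ _, fun v hv => ?_⟩
    rcases Sym2.mem_iff.1 hv with rfl | rfl
    · exact h1
    · exact h2

theorem inc_card (l : LL G) : (inc G l).card = 3 := by
  obtain ⟨t, ht⟩ := l
  obtain ⟨a, b, c, hab, hac, hbc, rfl⟩ := SimpleGraph.is3Clique_iff.1 ht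
  rw [Finset.card_eq_three]
  refine ⟨⟨s(a, b), hab⟩, ⟨s(a, c), hac⟩, ⟨s(b, c), hbc⟩, ?_, ?_, ?_, ?_⟩
  · intro h
    have h1 := congrArg Subtype.val h
    rcases Sym2.eq_iff.1 h1 with ⟨-, h2⟩ | ⟨h2, -⟩
    · exact hbc.ne h2
    · exact hac.ne h2
  · intro h
    have h1 := congrArg Subtype.val h
    rcases Sym2.eq_iff.1 h1 with ⟨h2, -⟩ | ⟨h2, -⟩
    · exact hab.ne h2
    · exact hac.ne h2
  · intro h
    have h1 := congrArg Subtype.val h
    rcases Sym2.eq_iff.1 h1 with ⟨h2, -⟩ | ⟨h2, -⟩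
    · exact hab.ne h2
    · exact hac.ne h2
  · ext ⟨e, he⟩
    induction e using Sym2.ind with
    | _ x y =>
      have hxy : G.Adj x y := he
      rw [mem_inc G hxy]
      have key : ∀ (u v : V) (huv : G.Adj u v),
          ((⟨s(x, y), he⟩ : PP G) = ⟨s(u, v), huv⟩ ↔ (x = u ∧ y = v) ∨ (x = v ∧ y = u)) := by
        intro u v huv
        constructor
        · intro h
          exact Sym2.eq_iff.1 (congrArg Subtype.val h)
        · intro h
          exact Subtype.ext (Sym2.eq_iff.2 h)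
      have k1 := key a b hab
      have k2 := key a c hac
      have k3 := key b c hbc
      rw [Finset.mem_insert (α := PP G), Finset.mem_insert (α := PP G),
        Finset.mem_singleton (α := PP G), k1, k2, k3]
      have hne : x ≠ y := hxy.ne
      simp only [Finset.mem_insert, Finset.mem_singleton]
      constructor
      · rintro ⟨h1, h2⟩
        rcases h1 with h1 | h1 | h1 <;> rcases h2 with h2 | h2 | h2
        · exact absurd (h1.trans h2.symm) hne
        · exact Or.inl (Or.inl ⟨h1, h2⟩)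
        · exact Or.inr (Or.inl (Or.inl ⟨h1, h2⟩))
        · exact Or.inl (Or.inr ⟨h1, h2⟩)
        · exact absurd (h1.trans h2.symm) hne
        · exact Or.inr (Or.inr (Or.inl ⟨h1, h2⟩))
        · exact Or.inr (Or.inl (Or.inr ⟨h1, h2⟩))
        · exact Or.inr (Or.inr (Or.inr ⟨h1, h2⟩))
        · exact absurd (h1.trans h2.symm) hne
      · rintro ((⟨h1, h2⟩ | ⟨h1, h2⟩) | (⟨h1, h2⟩ | ⟨h1, h2⟩) | (⟨h1, h2⟩ | ⟨h1, h2⟩))
        · exact ⟨Or.inl h1, Or.inr (Or.inl h2)⟩
        · exact ⟨Or.inr (Or.inl h1), Or.inl h2⟩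
        · exact ⟨Or.inl h1, Or.inr (Or.inr h2)⟩
        · exact ⟨Or.inr (Or.inr h1), Or.inl h2⟩
        · exact ⟨Or.inr (Or.inl h1), Or.inr (Or.inr h2)⟩
        · exact ⟨Or.inr (Or.inr h1), Or.inr (Or.inl h2)⟩

theorem pt_card (hG : LC G) (p : PP G) : (univ.filter (fun l : LL G => p ∈ inc G l)).card = 3 := by
  obtain ⟨e, he⟩ := p
  induction e using Sym2.ind with
  | _ x y =>
    have hxy : G.Adj x y := he
    have h1 := hG x y hxy
    have h2 : {z | G.Adj x z ∧ G.Adj y z} =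
        ((univ.filter (fun z => G.Adj x z ∧ G.Adj y z) : Finset V) : Set V) := by
      ext z
      simp
    rw [h2, Set.ncard_coe_finset] at h1
    refine Eq.trans ?_ h1
    symm
    refine Finset.card_bij (fun z hz => (⟨{x, y, z}, ?_⟩ : LL G)) ?_ ?_ ?_
    · rw [Finset.mem_filter] at hz
      exact SimpleGraph.is3Clique_iff.2 ⟨x, y, z, hxy, hz.2.1, hz.2.2, rfl⟩
    · intro z hz
      rw [Finset.mem_filter]
      refine ⟨Finset.mem_univ _, ?_⟩
      rw [mem_inc G hxy]
      simp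
    · intro z hz z' hz' h
      rw [Finset.mem_filter] at hz hz'
      have h3 : ({x, y, z} : Finset V) = {x, y, z'} := congrArg Subtype.val h
      have h4 : z ∈ ({x, y, z'} : Finset V) := by
        rw [← h3]
        simp
      simp only [Finset.mem_insert, Finset.mem_singleton] at h4
      rcases h4 with h4 | h4 | h4
      · exact absurd h4.symm hz.2.1.ne
      · exact absurd h4.symm hz.2.2.ne
      · exact h4
    · rintro ⟨t, ht⟩ hl
      rw [Finset.mem_filter, mem_inc G hxy] at hl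
      obtain ⟨-, hxt, hyt⟩ := hl
      have hcard : ((t.erase x).erase y).card = 1 := by
        rw [Finset.card_erase_of_mem (Finset.mem_erase.2 ⟨hxy.ne.symm, hyt⟩),
          Finset.card_erase_of_mem hxt, ht.card_eq]
      obtain ⟨z, hz⟩ := Finset.card_eq_one.1 hcard
      have h5 : z ∈ (t.erase x).erase y := by rw [hz]; exact Finset.mem_singleton_self z
      rw [Finset.mem_erase, Finset.mem_erase] at h5
      refine ⟨z, ?_, ?_⟩
      · rw [Finset.mem_filter]
        exact ⟨Finset.mem_univ _, ht.isClique hxt h5.2.2 h5.2.1.symm,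
          ht.isClique hyt h5.2.2 h5.1.symm⟩
      · apply Subtype.ext
        ext w
        simp only [Finset.mem_insert, Finset.mem_singleton]
        constructor
        · rintro (rfl | rfl | rfl)
          · exact hxt
          · exact hyt
          · exact h5.2.2
        · intro hw
          by_cases hwx : w = x
          · exact Or.inl hwx
          by_cases hwy : w = y
          · exact Or.inr (Or.inl hwy)
          have h6 : w ∈ (t.erase x).erase y :=
            Finset.mem_erase.2 ⟨hwy, Finset.mem_erase.2 ⟨hwx, hw⟩⟩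
          rw [hz, Finset.mem_singleton] at h6
          exact Or.inr (Or.inr h6)

/-- conditions on the points of a line -/
theorem ex_iff (s : Sym2 V → ℤ) (Q : ℤ → Prop) (l : LL G) :
    (∃ p ∈ inc G l, Q (s p.1)) ↔ ∃ x ∈ l.1, ∃ y ∈ l.1, x ≠ y ∧ Q (s s(x, y)) := by
  constructor
  · rintro ⟨⟨e, he⟩, hp, hQ⟩
    induction e using Sym2.ind with
    | _ x y =>
      have hxy : G.Adj x y := he
      rw [mem_inc G hxy] at hp
      exact ⟨x, hp.1, y, hp.2, hxy.ne, hQ⟩
  · rintro ⟨x, hx, y, hy, hxy, hQ⟩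
    have hadj : G.Adj x y := l.2.isClique hx hy hxy
    exact ⟨⟨s(x, y), hadj⟩, (mem_inc G hadj).2 ⟨hx, hy⟩, hQ⟩

/-- sums over ordered pairs -/
theorem dbl (f : PP G → ℕ) (g : V × V → ℕ)
    (hg : ∀ x y (h : G.Adj x y), g (x, y) = f ⟨s(x, y), h⟩) :
    ∑ p ∈ univ.filter (fun p : V × V => G.Adj p.1 p.2), g p = 2 * ∑ e, f e := by
  have h1 : ∑ p ∈ univ.filter (fun p : V × V => G.Adj p.1 p.2), g p =
      ∑ p ∈ univ.filter (fun p : V × V => G.Adj p.1 p.2),
        ∑ e ∈ (univ : Finset (PP G)).filter (fun e => e.1 = s(p.1, p.2)), f e := by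
    refine Finset.sum_congr rfl fun p hp => ?_
    obtain ⟨x, y⟩ := p
    have hxy : G.Adj x y := (Finset.mem_filter.1 hp).2
    have h2 : (univ : Finset (PP G)).filter (fun e => e.1 = s(x, y)) = {⟨s(x, y), hxy⟩} := by
      ext e
      rw [Finset.mem_filter, Finset.mem_singleton]
      exact ⟨fun h => Subtype.ext h.2, fun h => ⟨Finset.mem_univ _, congrArg Subtype.val h⟩⟩
    rw [h2, Finset.sum_singleton, hg x y hxy]
  rw [h1, Finset.sum_comm' (s' := fun e : PP G => univ.filter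
    (fun p : V × V => G.Adj p.1 p.2 ∧ e.1 = s(p.1, p.2))) (t' := univ)]
  · rw [Finset.mul_sum]
    refine Finset.sum_congr rfl fun e _ => ?_
    rw [Finset.sum_const, smul_eq_mul]
    congr 1
    obtain ⟨e, he⟩ := e
    induction e using Sym2.ind with
    | _ x y =>
      have hxy : G.Adj x y := he
      rw [Finset.card_eq_two]
      refine ⟨(x, y), (y, x), fun h => hxy.ne (congrArg Prod.fst h), ?_⟩
      ext ⟨u, v⟩
      rw [Finset.mem_filter, Finset.mem_insert, Finset.mem_singleton, Prod.mk.injEq,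
        Prod.mk.injEq]
      constructor
      · rintro ⟨-, -, h⟩
        rcases Sym2.eq_iff.1 h with ⟨h3, h4⟩ | ⟨h3, h4⟩
        · exact Or.inl ⟨h3.symm, h4.symm⟩
        · exact Or.inr ⟨h4.symm, h3.symm⟩
      · rintro (⟨rfl, rfl⟩ | ⟨rfl, rfl⟩)
        · exact ⟨Finset.mem_univ _, hxy, rfl⟩
        · exact ⟨Finset.mem_univ _, hxy.symm, Sym2.eq_swap⟩
  · intro p e
    simp only [Finset.mem_filter, Finset.mem_univ, true_and, and_true]

theorem dg_eq (S : Finset (LL G)) {x y : V} (h : G.Adj x y) :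
    dg (S.image Subtype.val) x y = (S.filter (fun l => (⟨s(x, y), h⟩ : PP G) ∈ inc G l)).card := by
  unfold dg
  rw [Finset.filter_image, Finset.card_image_of_injective _ Subtype.val_injective]
  congr 1
  ext l
  rw [Finset.mem_filter, Finset.mem_filter, mem_inc G h]

theorem hg' (hHG : S_HG) (P Λ : Type) [Fintype P] [Fintype Λ] [inst : DecidableEq P]
    (inc : Λ → Finset P) :
    (∀ l, (inc l).card = 3) → (∀ p, (univ.filter (fun l => p ∈ inc l)).card = 3) →
    (∀ s : P → ℤ, (∃ p, s p ≠ 0) →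
      ∃ l, (∃ p ∈ inc l, s p ≠ 0) ∧ ¬ ((∃ p ∈ inc l, 0 < s p) ∧ (∃ p ∈ inc l, s p < 0))) →
    ∀ s : P → ℤ, (∃ p, s p ≠ 0) → ∃ S : Finset Λ,
      (∀ l ∈ S, ¬ ((∃ p ∈ inc l, 0 < s p) ∧ (∃ p ∈ inc l, s p < 0))) ∧
      (∀ p, s p = 0 → (∃ l ∈ S, p ∈ inc l) → 2 ≤ (S.filter (fun l => p ∈ inc l)).card) ∧
      3 + (univ.filter (fun p => s p = 0 ∧ (S.filter (fun l => p ∈ inc l)).card = 2)).card
        ≤ ∑ p ∈ univ.filter (fun p => s p ≠ 0), (S.filter (fun l => p ∈ inc l)).card := by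
  have h : inst = fun a b => Classical.propDecidable (a = b) := Subsingleton.elim _ _
  subst h
  exact hHG P Λ inc

end HL

theorem HALL_ok : S_HG → S_HALL := by
  intro hHG V _ G hLC hStar s hs
  have hstar' : ∀ s : HL.PP G → ℤ, (∃ p, s p ≠ 0) →
      ∃ l, (∃ p ∈ HL.inc G l, s p ≠ 0) ∧
        ¬ ((∃ p ∈ HL.inc G l, 0 < s p) ∧ (∃ p ∈ HL.inc G l, s p < 0)) := by
    rintro s ⟨⟨e, he⟩, hp⟩
    obtain ⟨s', hs'⟩ : ∃ s' : Sym2 V → ℤ, ∀ p : HL.PP G, s' p.1 = s p :=
      ⟨fun e => if h : e ∈ G.edgeSet then s ⟨e, h⟩ else 0, fun p => dif_pos p.2⟩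
    have h0 : ∃ x y, G.Adj x y ∧ s' s(x, y) ≠ 0 := by
      induction e using Sym2.ind with
      | _ x y => exact ⟨x, y, he, by rw [hs' ⟨s(x, y), he⟩]; exact hp⟩
    obtain ⟨t, ht, htouch, hboth⟩ := hStar s' h0
    refine ⟨⟨t, ht⟩, ?_, ?_⟩
    · have h1 := (HL.ex_iff G s' (fun z => z ≠ 0) ⟨t, ht⟩).2 htouch
      simp only [hs'] at h1
      exact h1
    · intro h1
      apply hboth
      simp only [← hs'] at h1
      exact ⟨(HL.ex_iff G s' (fun z => 0 < z) ⟨t, ht⟩).1 h1.1,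
        (HL.ex_iff G s' (fun z => z < 0) ⟨t, ht⟩).1 h1.2⟩
  obtain ⟨x0, y0, hxy0, hs0⟩ := hs
  obtain ⟨S, hS1, hS2, hS3⟩ := HL.hg' hHG (HL.PP G) (HL.LL G) (HL.inc G) (HL.inc_card G)
    (HL.pt_card G hLC) hstar' (fun p => s p.1) ⟨⟨s(x0, y0), hxy0⟩, hs0⟩
  refine ⟨S.image Subtype.val, ?_, ?_, ?_⟩
  · intro t ht
    obtain ⟨l, hl, rfl⟩ := Finset.mem_image.1 ht
    refine ⟨l.2, fun h1 => hS1 l hl ?_⟩
    exact ⟨(HL.ex_iff G s (fun z => 0 < z) l).2 h1.1, (HL.ex_iff G s (fun z => z < 0) l).2 h1.2⟩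
  · intro x y hxy hsxy hdg
    rw [HL.dg_eq G S hxy] at hdg ⊢
    refine hS2 ⟨s(x, y), hxy⟩ hsxy ?_
    obtain ⟨l, hl⟩ := Finset.card_pos.1 (Nat.pos_of_ne_zero hdg)
    rw [Finset.mem_filter] at hl
    exact ⟨l, hl.1, hl.2⟩
  · have e1 : (univ.filter (fun p : V × V => G.Adj p.1 p.2 ∧ s s(p.1, p.2) = 0 ∧
        dg (S.image Subtype.val) p.1 p.2 = 2)).card =
        2 * (univ.filter (fun p : HL.PP G => s p.1 = 0 ∧
          (S.filter (fun l => p ∈ HL.inc G l)).card = 2)).card := by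
      rw [← Finset.filter_filter, Finset.card_filter, Finset.card_filter]
      refine HL.dbl G _ (fun p => if s s(p.1, p.2) = 0 ∧
        dg (S.image Subtype.val) p.1 p.2 = 2 then 1 else 0) fun x y h => ?_
      rw [HL.dg_eq G S h]
    have e2 : ∑ p ∈ univ.filter (fun p : V × V => G.Adj p.1 p.2 ∧ s s(p.1, p.2) ≠ 0),
        dg (S.image Subtype.val) p.1 p.2 =
        2 * ∑ p ∈ univ.filter (fun p : HL.PP G => s p.1 ≠ 0),
          (S.filter (fun l => p ∈ HL.inc G l)).card := by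
      have hd := HL.dbl G (fun p => if s p.1 ≠ 0 then
          (S.filter (fun l => p ∈ HL.inc G l)).card else 0)
        (fun p => if s s(p.1, p.2) ≠ 0 then
          dg (S.image Subtype.val) p.1 p.2 else 0) fun x y h => by
            rw [HL.dg_eq G S h]
      rw [← Finset.filter_filter, Finset.sum_filter, hd, Finset.sum_filter]
    rw [e1, e2]
    omega

end Pool.Agent.R695.TR
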