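import Pool.Agent.R695.TR.Stm

set_option autoImplicit false

namespace Pool.Agent.R695.TR

open Finset
open scoped Classical

namespace KX

variable {V : Type}

/-- next to an edge which is not a bridge there is another one -/
theorem second (L : SimpleGraph V) (x w : V) (h : (nb L).Adj x w) :
    ∃ w', w' ≠ w ∧ (nb L).Adj x w' := by
  obtain ⟨h1, h2⟩ := h
  rw [SimpleGraph.isBridge_iff, not_not] at h2
  obtain ⟨p, hp⟩ := h2.exists_isPath
  cases p with
  | nil => exact absurd rfl (L.ne_of_adj h1)
  | @cons _ w' _ h q =>
    rw [SimpleGraph.Walk.cons_isPath_iff] at hp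
    rw [SimpleGraph.deleteEdges_adj] at h
    have hw : w' ≠ w := by
      rintro rfl
      exact h.2 rfl
    refine ⟨w', hw, h.1, ?_⟩
    rw [SimpleGraph.isBridge_iff, not_not]
    have h3 : (L.deleteEdges {s(x, w')}).Reachable w' w := by
      refine ⟨q.transfer _ ?_⟩
      intro e he
      rw [SimpleGraph.edgeSet_deleteEdges]
      refine ⟨?_, ?_⟩
      · have := q.edges_subset_edgeSet he
        rw [SimpleGraph.edgeSet_deleteEdges] at this
        exact this.1
      · intro he'
        rw [Set.mem_singleton_iff] at he'
        subst he'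
        exact hp.2 (q.fst_mem_support_of_mem_edges he)
    have h4 : (L.deleteEdges {s(x, w')}).Adj x w := by
      rw [SimpleGraph.deleteEdges_adj]
      refine ⟨h1, ?_⟩
      intro h5
      rw [Set.mem_singleton_iff, Sym2.eq_iff] at h5
      rcases h5 with h5 | h5
      · exact hw h5.2.symm
      · exact L.ne_of_adj h1 h5.2.symm
    exact h4.reachable.trans h3.symm

variable [Fintype V]

theorem cards (L : SimpleGraph V) (hdeg : ∀ x y, L.Adj x y → {z | L.Adj x z}.ncard = 3)
    (x : V) (hx : ∃ y, L.Adj x y) :
    (univ.filter (fun y => Br L x y)).card + (univ.filter (fun y => (nb L).Adj x y)).card = 3 := by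
  obtain ⟨y, hy⟩ := hx
  have h1 := hdeg x y hy
  have h2 : {z | L.Adj x z} = ((univ.filter (fun z => L.Adj x z) : Finset V) : Set V) := by
    ext z; simp
  rw [h2, Set.ncard_coe_finset] at h1
  rw [← h1, ← Finset.card_union_of_disjoint]
  · congr 1
    ext z
    rw [mem_union, mem_filter, mem_filter, mem_filter]
    simp only [mem_univ, true_and]
    constructor
    · rintro (h | h)
      · exact h.1
      · exact h.1
    · intro h
      by_cases hb : L.IsBridge s(x, z)
      · exact Or.inl ⟨h, hb⟩
      · exact Or.inr ⟨h, hb⟩
  · rw [Finset.disjoint_left]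
    intro z hz hz'
    rw [mem_filter] at hz hz'
    exact hz'.2.2 hz.2.2

theorem BI_adj (L : SimpleGraph V) (x : V) (h : BI L x) : ∃ y, L.Adj x y := by
  obtain ⟨y, hy⟩ := h
  exact ⟨y, hy.1⟩

theorem one (L : SimpleGraph V) (hdeg : ∀ x y, L.Adj x y → {z | L.Adj x z}.ncard = 3)
    (x : V) (hx : BI L x) (hw : ∃ w, (nb L).Adj x w) :
    (univ.filter (fun y => Br L x y)).card = 1 := by
  have h1 := cards L hdeg x (BI_adj L x hx)
  obtain ⟨w, hw⟩ := hw
  obtain ⟨w', hw', hww⟩ := second L x w hw
  have h2 : 1 < (univ.filter (fun y => (nb L).Adj x y)).card := by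
    rw [Finset.one_lt_card]
    exact ⟨w', by simp [hww], w, by simp [hw], hw'⟩
  obtain ⟨y, hy⟩ := hx
  have h3 : 0 < (univ.filter (fun y => Br L x y)).card :=
    Finset.card_pos.2 ⟨y, by simp [hy]⟩
  omega

theorem zero (L : SimpleGraph V) (x : V) (hx : ¬ BI L x) :
    (univ.filter (fun y => Br L x y)).card = 0 := by
  rw [Finset.card_eq_zero, Finset.filter_eq_empty_iff]
  intro y _ hy
  exact hx ⟨y, hy⟩

theorem three (L : SimpleGraph V) (hdeg : ∀ x y, L.Adj x y → {z | L.Adj x z}.ncard = 3)
    (x : V) (hx : BI L x) (hw : ¬ ∃ w, (nb L).Adj x w) :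
    (univ.filter (fun y => Br L x y)).card = 3 := by
  have h1 := cards L hdeg x (BI_adj L x hx)
  have h2 : (univ.filter (fun y => (nb L).Adj x y)).card = 0 := by
    rw [Finset.card_eq_zero, Finset.filter_eq_empty_iff]
    intro y _ hy
    exact hw ⟨y, hy⟩
  omega

theorem reach_ne (M : SimpleGraph V) (x y : V) (h : M.Reachable x y) (hxy : x ≠ y) :
    ∃ w, M.Adj x w := by
  obtain ⟨w, hw⟩ := h.nonempty_neighborSet_left hxy
  exact ⟨w, hw⟩

/-- two flagged vertices next to a vertex without bridges -/
theorem two (hE : S_EAR) (hF : S_F2) (L : SimpleGraph V) (F : V → Prop) (m : V → V → Prop)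
    (hG : GH L F m) (c : (nb L).ConnectedComponent) (x y : V)
    (hx : (nb L).connectedComponentMk x = c) (hxy : L.Adj x y) (hb : ¬ BI L x) :
    2 ≤ (univ.filter (fun x => (nb L).connectedComponentMk x = c ∧ F x)).card := by
  obtain ⟨n, z, hz, hn, hr⟩ := hE V L hG.deg x y hxy hb
  refine (hF V L F m hG n z hz hn).trans ?_
  refine Finset.card_le_card_of_injOn z ?_ ?_
  · intro i hi
    rw [Finset.mem_coe, mem_filter, mem_range] at hi
    rw [Finset.mem_coe, mem_filter]
    refine ⟨mem_univ _, ?_, hi.2⟩
    rw [← hx]
    exact SimpleGraph.ConnectedComponent.eq.2 (hr i hi.1).symm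
  · intro i hi j hj h
    rw [Finset.mem_coe, mem_filter, mem_range] at hi hj
    exact hz.inj i j hi.1 hj.1 h

theorem leaf (hP : S_LPATH) (hD : S_DIA) (L : SimpleGraph V) (F : V → Prop) (m : V → V → Prop)
    (hG : GH L F m) (c : (nb L).ConnectedComponent) (u : V)
    (hu : (nb L).connectedComponentMk u = c) (hb : BI L u) (hw : ∃ w, (nb L).Adj u w)
    (h1 : ∀ x, (nb L).connectedComponentMk x = c → BI L x → x = u) :
    3 ≤ (univ.filter (fun x => (nb L).connectedComponentMk x = c ∧ F x)).card := by
  by_contra hcon
  have hmk : ∀ x, (nb L).Reachable u x ↔ (nb L).connectedComponentMk x = c := by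
    intro x
    rw [← hu]
    constructor
    · intro h; exact SimpleGraph.ConnectedComponent.eq.2 h.symm
    · intro h; exact (SimpleGraph.ConnectedComponent.eq.1 h).symm
  have h2 : (univ.filter (fun x => (nb L).Reachable u x ∧ F x)).card ≤ 2 := by
    have : (univ.filter (fun x => (nb L).Reachable u x ∧ F x)) =
        (univ.filter (fun x => (nb L).connectedComponentMk x = c ∧ F x)) := by
      ext x
      simp only [mem_filter, mem_univ, true_and, hmk]
    rw [this]
    omega
  obtain ⟨a, p, q, t, r, ha, hat, h3, h4, h5, h6, h7, h8, h9, h10, h11, h12, h13⟩ :=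
    hP V L F m hG u hb hw (fun x hx hx' => h1 x ((hmk x).1 hx) hx') h2
  exact hD V L F m hG a p q t r hat h3 h4 h5 h6 h7 h8 h9 h10 h11 h12
    (fun x hx hx' => h13 x (ha.trans hx) hx')

end KX

open KX in
theorem K_ok : S_EAR → S_F2 → S_LPATH → S_DIA → S_K := by
  intro hE hF hP hD V _ L F m hG c
  refine ⟨?_, ?_⟩
  · rintro ⟨x0, hx0, hb0⟩
    set f := (univ.filter (fun x => (nb L).connectedComponentMk x = c ∧ F x)).card with hf
    set b := (univ.filter (fun x => (nb L).connectedComponentMk x = c ∧ BI L x)).card with hb
    have hreach : ∀ x y, (nb L).connectedComponentMk x = c → (nb L).connectedComponentMk y = c →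
        (nb L).Reachable x y := by
      intro x y hx hy
      exact SimpleGraph.ConnectedComponent.eq.1 (hx.trans hy.symm)
    by_cases hcase : ∃ x, (nb L).connectedComponentMk x = c ∧ BI L x ∧ ¬ ∃ w, (nb L).Adj x w
    · obtain ⟨x, hx, hbx, hnx⟩ := hcase
      have h1 : b ≤ 1 := by
        have hsub : (univ.filter (fun x => (nb L).connectedComponentMk x = c ∧ BI L x)) ⊆ {x} := by
          intro y hy
          rw [mem_filter] at hy
          rw [mem_singleton]
          by_contra hyx
          exact hnx (reach_ne (nb L) x y (hreach x y hx hy.2.1) (Ne.symm hyx))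
        calc b ≤ ({x} : Finset V).card := Finset.card_le_card hsub
          _ = 1 := by simp
      have h2 : (3 : ℤ) ≤ ∑ x ∈ univ.filter (fun x => (nb L).connectedComponentMk x = c),
          ((univ.filter (fun y => Br L x y)).card : ℤ) := by
        have h3 := Finset.single_le_sum
          (f := fun x => ((univ.filter (fun y => Br L x y)).card : ℤ))
          (s := univ.filter (fun x => (nb L).connectedComponentMk x = c))
          (fun i _ => by positivity) (by simp [hx] : x ∈ _)
        have h4 := three L hG.deg x hbx hnx
        simp only [h4] at h3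
        exact_mod_cast h3
      have h5 : (0 : ℤ) ≤ (f : ℤ) := by positivity
      have h6 : (b : ℤ) ≤ 1 := by exact_mod_cast h1
      linarith
    · push Not at hcase
      have hk : ∑ x ∈ univ.filter (fun x => (nb L).connectedComponentMk x = c),
          ((univ.filter (fun y => Br L x y)).card : ℤ) = b := by
        have h1 : ∀ x ∈ univ.filter (fun x => (nb L).connectedComponentMk x = c),
            ((univ.filter (fun y => Br L x y)).card : ℤ) = if BI L x then 1 else 0 := by
          intro x hx
          rw [mem_filter] at hx
          split_ifs with hbx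
          · rw [one L hG.deg x hbx (hcase x hx.2 hbx)]
            simp
          · rw [zero L x hbx]
            simp
        rw [Finset.sum_congr rfl h1, ← Finset.sum_filter, Finset.filter_filter]
        simp [hb]
      rw [hk]
      have hb1 : 1 ≤ b := by
        apply Finset.card_pos.2
        exact ⟨x0, by simp [hx0, hb0]⟩
      by_cases hnb : ∃ x, (nb L).connectedComponentMk x = c ∧ ¬ BI L x
      · obtain ⟨x, hx, hbx⟩ := hnb
        have hne : x ≠ x0 := by
          rintro rfl
          exact hbx hb0
        obtain ⟨y, hy⟩ := reach_ne (nb L) x x0 (hreach x x0 hx hx0) hne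
        have hf2 : 2 ≤ f := two hE hF L F m hG c x y hx hy.1 hbx
        rcases Nat.lt_or_ge 1 b with h | h
        · have h3 : (2 : ℤ) ≤ (b : ℤ) := by exact_mod_cast h
          have h4 : (2 : ℤ) ≤ (f : ℤ) := by exact_mod_cast hf2
          linarith
        · have hb2 : b = 1 := by omega
          have hf3 : 3 ≤ f := by
            apply leaf hP hD L F m hG c x0 hx0 hb0 (hcase x0 hx0 hb0)
            intro z hz hbz
            rw [hb] at hb2
            have h5 := Finset.card_le_one.1 hb2.le z (by simp [hz, hbz]) x0 (by simp [hx0, hb0])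
            exact h5
          have h3 : (b : ℤ) = 1 := by exact_mod_cast hb2
          have h4 : (3 : ℤ) ≤ (f : ℤ) := by exact_mod_cast hf3
          linarith
      · push Not at hnb
        have hall : ∀ x, (nb L).connectedComponentMk x = c → ∃ w, (nb L).Adj x w :=
          fun x hx => hcase x hx (hnb x hx)
        have hmem : ∀ x y, (nb L).connectedComponentMk x = c → (nb L).Adj x y →
            (nb L).connectedComponentMk y = c := by
          intro x y hx hxy
          rw [← hx]
          exact SimpleGraph.ConnectedComponent.eq.2 hxy.reachable.symm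
        obtain ⟨y, hy⟩ := hall x0 hx0
        obtain ⟨z, hzy, hz⟩ := second L x0 y hy
        obtain ⟨w, hwx, hw⟩ := second L y x0 hy.symm
        have hyc := hmem x0 y hx0 hy
        have hzc := hmem x0 z hx0 hz
        have hwc := hmem y w hyc hw
        have hyx : x0 ≠ y := (nb L).ne_of_adj hy
        have hzx : x0 ≠ z := (nb L).ne_of_adj hz
        have hwy : y ≠ w := (nb L).ne_of_adj hw
        by_cases hwz : w = z
        · subst hwz
          have hb3 : 3 ≤ b := by
            have : ({x0, y, w} : Finset V) ⊆
                univ.filter (fun x => (nb L).connectedComponentMk x = c ∧ BI L x) := by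
              intro v hv
              simp only [mem_insert, mem_singleton] at hv
              rw [mem_filter]
              rcases hv with rfl | rfl | rfl
              · exact ⟨mem_univ _, hx0, hnb _ hx0⟩
              · exact ⟨mem_univ _, hyc, hnb _ hyc⟩
              · exact ⟨mem_univ _, hwc, hnb _ hwc⟩
            have h7 := Finset.card_le_card this
            rw [Finset.card_insert_of_notMem (by simp [hyx, hzx]), Finset.card_pair hwy] at h7
            exact h7
          have hf1 : 1 ≤ f := by
            rcases hG.tri x0 y w hy.1 hw.1 hz.1 with h | h | h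
            · exact Finset.card_pos.2 ⟨x0, by simp [hx0, h]⟩
            · exact Finset.card_pos.2 ⟨y, by simp [hyc, h]⟩
            · exact Finset.card_pos.2 ⟨w, by simp [hwc, h]⟩
          have h3 : (3 : ℤ) ≤ (b : ℤ) := by exact_mod_cast hb3
          have h4 : (1 : ℤ) ≤ (f : ℤ) := by exact_mod_cast hf1
          linarith
        · have hb4 : 4 ≤ b := by
            have : ({x0, y, z, w} : Finset V) ⊆
                univ.filter (fun x => (nb L).connectedComponentMk x = c ∧ BI L x) := by
              intro v hv
              simp only [mem_insert, mem_singleton] at hv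
              rw [mem_filter]
              rcases hv with rfl | rfl | rfl | rfl
              · exact ⟨mem_univ _, hx0, hnb _ hx0⟩
              · exact ⟨mem_univ _, hyc, hnb _ hyc⟩
              · exact ⟨mem_univ _, hzc, hnb _ hzc⟩
              · exact ⟨mem_univ _, hwc, hnb _ hwc⟩
            have h7 := Finset.card_le_card this
            rw [Finset.card_insert_of_notMem (by simp [hyx, hzx, Ne.symm hwx]),
              Finset.card_insert_of_notMem (by simp [Ne.symm hzy, hwy]),
              Finset.card_pair (Ne.symm hwz)] at h7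
            exact h7
          have h3 : (4 : ℤ) ≤ (b : ℤ) := by exact_mod_cast hb4
          have h4 : (0 : ℤ) ≤ (f : ℤ) := by positivity
          linarith
  · rintro h1 ⟨x, y, hx, hxy⟩
    have := two hE hF L F m hG c x y hx hxy (h1 x hx)
    omega

end Pool.Agent.R695.TR
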