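import Pool.Agent.R695.TR.Stm

/-! Piece TR-RED2: reduction to locally cubic graphs. -/

namespace Pool.Agent.R695.TR

open Finset
open scoped Classical

namespace RR2

/-- the graph of the pairs inside the members of `H` -/
def gr {V : Type} (H : Finset (Finset V)) : SimpleGraph V where
  Adj x y := x ≠ y ∧ ∃ t ∈ H, x ∈ t ∧ y ∈ t
  symm := ⟨fun _ _ h => ⟨h.1.symm, h.2.imp fun _ ht => ⟨ht.1, ht.2.2, ht.2.1⟩⟩⟩
  loopless := ⟨fun _ h => h.1 rfl⟩

theorem third {V : Type} {t : Finset V} (ht : t.card = 3) {x y : V} (hx : x ∈ t) (hy : y ∈ t)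
    (hxy : x ≠ y) : ∃ z ∈ t, z ≠ x ∧ z ≠ y ∧ t = {x, y, z} := by
  have h1 : ((t.erase x).erase y).card = 1 := by
    rw [Finset.card_erase_of_mem (Finset.mem_erase.2 ⟨hxy.symm, hy⟩),
      Finset.card_erase_of_mem hx, ht]
  obtain ⟨z, hz⟩ := Finset.card_eq_one.1 h1
  have h2 : z ∈ (t.erase x).erase y := by rw [hz]; exact Finset.mem_singleton_self z
  rw [Finset.mem_erase, Finset.mem_erase] at h2
  refine ⟨z, h2.2.2, h2.2.1, h2.1, ?_⟩
  ext w
  simp only [Finset.mem_insert, Finset.mem_singleton]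
  constructor
  · intro hw
    by_cases hwx : w = x
    · exact Or.inl hwx
    by_cases hwy : w = y
    · exact Or.inr (Or.inl hwy)
    have h3 : w ∈ (t.erase x).erase y := Finset.mem_erase.2 ⟨hwy, Finset.mem_erase.2 ⟨hwx, hw⟩⟩
    rw [hz, Finset.mem_singleton] at h3
    exact Or.inr (Or.inr h3)
  · rintro (rfl | rfl | rfl)
    · exact hx
    · exact hy
    · exact h2.2.2

end RR2

theorem RED2_ok : S_RED1 → S_RED := by
  intro hR V _ G h3 hno
  obtain ⟨H, hne, hcl, hsg, hcard⟩ := hR V G hno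
  have hle : ∀ x y, (RR2.gr H).Adj x y → G.Adj x y := by
    rintro x y ⟨hxy, t, ht, hx, hy⟩
    exact (hcl t ht).isClique hx hy hxy
  have hc3 : ∀ t ∈ H, t.card = 3 := fun t ht => (hcl t ht).card_eq
  obtain ⟨CN, hCN⟩ : ∃ CN : V → V → Finset V, ∀ x y z, z ∈ CN x y ↔ G.Adj x z ∧ G.Adj y z :=
    ⟨fun x y => univ.filter fun z => G.Adj x z ∧ G.Adj y z, fun x y z => by
      rw [Finset.mem_filter]
      exact ⟨fun h => h.2, fun h => ⟨Finset.mem_univ _, h⟩⟩⟩
  have hCNc : ∀ x y, G.Adj x y → (CN x y).card ≤ 3 := by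
    intro x y hxy
    have h4 : {z | G.Adj x z ∧ G.Adj y z} = ((CN x y : Finset V) : Set V) := by
      ext z
      rw [Finset.mem_coe, hCN]
      rfl
    have h5 := h3 x y hxy
    rwa [h4, Set.ncard_coe_finset] at h5
  -- members of `H` through an edge
  have hsub : ∀ x y, x ≠ y → H.filter (fun t => x ∈ t ∧ y ∈ t) ⊆
      (CN x y).image (fun z => ({x, y, z} : Finset V)) := by
    intro x y hxy t ht
    rw [Finset.mem_filter] at ht
    obtain ⟨z, hz, hzx, hzy, htz⟩ := RR2.third (hc3 t ht.1) ht.2.1 ht.2.2 hxy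
    rw [Finset.mem_image]
    exact ⟨z, (hCN x y z).2 ⟨(hcl t ht.1).isClique ht.2.1 hz hzx.symm,
      (hcl t ht.1).isClique ht.2.2 hz hzy.symm⟩, htz.symm⟩
  have hd3 : ∀ x y, (RR2.gr H).Adj x y → (H.filter (fun t => x ∈ t ∧ y ∈ t)).card ≤ 3 := by
    intro x y hxy
    exact (Finset.card_le_card (hsub x y hxy.1)).trans (Finset.card_image_le.trans
      (hCNc x y (hle x y hxy)))
  -- double counting
  have hdc : 6 * H.card = ∑ p ∈ univ.filter (fun p : V × V => (RR2.gr H).Adj p.1 p.2),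
      (H.filter (fun t => p.1 ∈ t ∧ p.2 ∈ t)).card := by
    have h4 : ∑ t ∈ H, ∑ _p ∈ t.offDiag, 1 =
        ∑ p ∈ univ.filter (fun p : V × V => (RR2.gr H).Adj p.1 p.2),
          ∑ _t ∈ H.filter (fun t => p.1 ∈ t ∧ p.2 ∈ t), 1 := by
      refine Finset.sum_comm' ?_
      intro t p
      rw [Finset.mem_offDiag, Finset.mem_filter, Finset.mem_filter]
      constructor
      · rintro ⟨ht, h1, h2, h5⟩
        exact ⟨⟨ht, h1, h2⟩, Finset.mem_univ _, h5, t, ht, h1, h2⟩
      · rintro ⟨⟨ht, h1, h2⟩, -, h5⟩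
        exact ⟨ht, h1, h2, h5.1⟩
    have h5 : ∑ t ∈ H, ∑ _p ∈ t.offDiag, 1 = 6 * H.card := by
      rw [Finset.sum_congr rfl (g := fun _ => 6), Finset.sum_const, smul_eq_mul, mul_comm]
      intro t ht
      rw [Finset.sum_const, smul_eq_mul, mul_one, Finset.offDiag_card, hc3 t ht]
    rw [← h5, h4]
    refine Finset.sum_congr rfl fun p _ => ?_
    rw [Finset.sum_const, smul_eq_mul, mul_one]
  have hpairs : (univ.filter (fun p : V × V => (RR2.gr H).Adj p.1 p.2)).card ≤ 2 * H.card := by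
    have h4 : (univ.filter (fun p : V × V => (RR2.gr H).Adj p.1 p.2)).card ≤
        2 * ((univ.filter (fun p : V × V => (RR2.gr H).Adj p.1 p.2)).image
          (fun p => s(p.1, p.2))).card := by
      refine Finset.card_le_mul_card_image _ _ fun e he => ?_
      obtain ⟨⟨x, y⟩, -, rfl⟩ := Finset.mem_image.1 he
      refine (Finset.card_le_card (t := {(x, y), (y, x)}) ?_).trans Finset.card_le_two
      rintro ⟨u, v⟩ huv
      have h5 := (Finset.mem_filter.1 huv).2
      rw [Finset.mem_insert, Finset.mem_singleton, Prod.mk.injEq, Prod.mk.injEq]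
      exact Sym2.eq_iff.1 h5
    have h5 : (univ.filter (fun p : V × V => (RR2.gr H).Adj p.1 p.2)).image
        (fun p => s(p.1, p.2)) ⊆ pts H := by
      intro e he
      obtain ⟨⟨x, y⟩, hp, rfl⟩ := Finset.mem_image.1 he
      obtain ⟨hxy, t, ht, hx, hy⟩ := (Finset.mem_filter.1 hp).2
      unfold pts
      rw [Finset.mem_biUnion]
      refine ⟨t, ht, ?_⟩
      rw [Finset.mem_filter, Finset.mk_mem_sym2_iff, Sym2.mk_isDiag_iff]
      exact ⟨⟨hx, hy⟩, hxy⟩
    have h6 := Finset.card_le_card h5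
    omega
  have hall : ∀ x y, (RR2.gr H).Adj x y → (H.filter (fun t => x ∈ t ∧ y ∈ t)).card = 3 := by
    intro x y hxy
    by_contra hcon
    have h4 : (H.filter (fun t => x ∈ t ∧ y ∈ t)).card < 3 :=
      lt_of_le_of_ne (hd3 x y hxy) hcon
    have h5 : ∑ p ∈ univ.filter (fun p : V × V => (RR2.gr H).Adj p.1 p.2),
        (H.filter (fun t => p.1 ∈ t ∧ p.2 ∈ t)).card <
        ∑ _p ∈ univ.filter (fun p : V × V => (RR2.gr H).Adj p.1 p.2), 3 := by
      refine Finset.sum_lt_sum (fun p hp => hd3 _ _ (Finset.mem_filter.1 hp).2)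
        ⟨(x, y), Finset.mem_filter.2 ⟨Finset.mem_univ _, hxy⟩, h4⟩
    rw [← hdc, Finset.sum_const, smul_eq_mul] at h5
    omega
  -- all the triangles on an edge are in `H`
  have hin : ∀ x y z, (RR2.gr H).Adj x y → G.Adj x z → G.Adj y z → ({x, y, z} : Finset V) ∈ H := by
    intro x y z hxy hxz hyz
    have h4 : H.filter (fun t => x ∈ t ∧ y ∈ t) =
        (CN x y).image (fun z => ({x, y, z} : Finset V)) := by
      refine Finset.eq_of_subset_of_card_le (hsub x y hxy.1) ?_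
      rw [hall x y hxy]
      exact Finset.card_image_le.trans (hCNc x y (hle x y hxy))
    have h5 : ({x, y, z} : Finset V) ∈ (CN x y).image (fun z => ({x, y, z} : Finset V)) :=
      Finset.mem_image.2 ⟨z, (hCN x y z).2 ⟨hxz, hyz⟩, rfl⟩
    rw [← h4] at h5
    exact (Finset.mem_filter.1 h5).1
  refine ⟨RR2.gr H, ?_, ?_, ?_⟩
  · obtain ⟨t, ht⟩ := hne
    obtain ⟨x, hx, y, hy, hxy⟩ := Finset.one_lt_card.1 (by rw [hc3 t ht]; norm_num)
    exact ⟨x, y, hxy, t, ht, hx, hy⟩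
  · intro x y hxy
    have h4 : {z | (RR2.gr H).Adj x z ∧ (RR2.gr H).Adj y z} = ((CN x y : Finset V) : Set V) := by
      ext z
      rw [Finset.mem_coe, hCN]
      constructor
      · exact fun h => ⟨hle _ _ h.1, hle _ _ h.2⟩
      · rintro ⟨hxz, hyz⟩
        have h5 := hin x y z hxy hxz hyz
        exact ⟨⟨hxz.ne, _, h5, by simp, by simp⟩, ⟨hyz.ne, _, h5, by simp, by simp⟩⟩
    rw [h4, Set.ncard_coe_finset]
    refine le_antisymm (hCNc x y (hle x y hxy)) ?_
    rw [← hall x y hxy]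
    exact (Finset.card_le_card (hsub x y hxy.1)).trans Finset.card_image_le
  · rintro s ⟨x, y, ⟨hxy, t, ht, hx, hy⟩, hs⟩
    obtain ⟨t', ht', h4, h5⟩ := hsg s ⟨t, ht, x, hx, y, hy, hxy, hs⟩
    refine ⟨t', ?_, h4, h5⟩
    rw [SimpleGraph.isNClique_iff]
    refine ⟨fun u hu v hv huv => ⟨huv, t', ht', hu, hv⟩, hc3 t' ht'⟩

end Pool.Agent.R695.TR
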