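import Pool.Agent.R695.TR.Stm

/-! TR-TRI: the lemma on K4. -/

set_option autoImplicit false

namespace Pool.Agent.R695.TR

open Finset
open scoped Classical

namespace TRI

variable {V : Type} {G : SimpleGraph V} {K : Set V} {S : Finset (Finset V)}

/-- the third triangle on the edge `x y` of `K` has the vertex `z0` outside `K` -/
def Th (G : SimpleGraph V) (K : Set V) (x y z0 : V) : Prop :=
  z0 ∉ K ∧ G.Adj x z0 ∧ G.Adj y z0 ∧ ∀ z, G.Adj x z → G.Adj y z → z ∈ K ∨ z = z0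

theorem Th.symm {x y z0 : V} (h : Th G K x y z0) : Th G K y x z0 :=
  ⟨h.1, h.2.2.1, h.2.1, fun z h1 h2 => h.2.2.2 z h2 h1⟩

/-- `N` is closed under adjacency in the link of `x` without `K` -/
def Cl (G : SimpleGraph V) (K : Set V) (x : V) (N : Set V) : Prop :=
  ∀ z z', z ∉ K → z' ∉ K → G.Adj x z → G.Adj x z' → G.Adj z z' → z ∈ N → z' ∈ N

/-- `u` and `w` are connected in the link of `x` without `K` -/
def Cn (G : SimpleGraph V) (K : Set V) (x u w : V) : Prop := ∀ N, Cl G K x N → u ∈ N → w ∈ N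

theorem Cn.symm {x u w : V} (h : Cn G K x u w) : Cn G K x w u := by
  intro N hN hw
  by_contra hu
  exact h Nᶜ (fun z z' hz hz' h1 h2 h3 h4 h5 => h4 (hN z' z hz' hz h2 h1 h3.symm h5)) hu hw

theorem k12 {p q r w : V} (h : ∀ t, t ∈ K ↔ t = p ∨ t = q ∨ t = r ∨ t = w) :
    ∀ t, t ∈ K ↔ t = q ∨ t = p ∨ t = r ∨ t = w := fun t => by
  rw [h t, or_left_comm]

theorem k23 {p q r w : V} (h : ∀ t, t ∈ K ↔ t = p ∨ t = q ∨ t = r ∨ t = w) :
    ∀ t, t ∈ K ↔ t = p ∨ t = r ∨ t = q ∨ t = w := fun t => by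
  rw [h t, or_left_comm (a := t = q)]

theorem k34 {p q r w : V} (h : ∀ t, t ∈ K ↔ t = p ∨ t = q ∨ t = r ∨ t = w) :
    ∀ t, t ∈ K ↔ t = p ∨ t = q ∨ t = w ∨ t = r := fun t => by
  rw [h t, or_comm (a := t = r)]

theorem exists_Th (hLC : LC G) {x y u w : V} (hK : ∀ t, t ∈ K ↔ t = x ∨ t = y ∨ t = u ∨ t = w)
    (hxy : G.Adj x y) (hxu : G.Adj x u) (hxw : G.Adj x w) (hyu : G.Adj y u) (hyw : G.Adj y w)
    (huw : u ≠ w) : ∃ z0, Th G K x y z0 := by
  obtain ⟨p, q, r, hpq, hpr, hqr, hs⟩ := Set.ncard_eq_three.1 (hLC x y hxy)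
  have hm : ∀ z, (G.Adj x z ∧ G.Adj y z) ↔ (z = p ∨ z = q ∨ z = r) := by
    intro z
    have : z ∈ {z | G.Adj x z ∧ G.Adj y z} ↔ z ∈ ({p, q, r} : Set V) := by rw [hs]
    simpa using this
  have hu := (hm u).1 ⟨hxu, hyu⟩
  have hw := (hm w).1 ⟨hxw, hyw⟩
  have key : ∀ z0, (z0 = p ∨ z0 = q ∨ z0 = r) → z0 ≠ u → z0 ≠ w →
      (∀ z, (z = p ∨ z = q ∨ z = r) → z = u ∨ z = w ∨ z = z0) → Th G K x y z0 := by
    intro z0 h1 h2 h3 h4
    obtain ⟨h5, h6⟩ := (hm z0).2 h1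
    refine ⟨fun hz => ?_, h5, h6, fun z g1 g2 => ?_⟩
    · rcases (hK z0).1 hz with h | h | h | h
      · exact G.ne_of_adj h5 h.symm
      · exact G.ne_of_adj h6 h.symm
      · exact h2 h
      · exact h3 h
    · rcases h4 z ((hm z).1 ⟨g1, g2⟩) with h | h | h
      · left; rw [hK]; tauto
      · left; rw [hK]; tauto
      · right; exact h
  rcases hu with rfl | rfl | rfl <;> rcases hw with rfl | rfl | rfl
  · exact absurd rfl huw
  · exact ⟨r, key r (by tauto) hpr.symm hqr.symm (by tauto)⟩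
  · exact ⟨q, key q (by tauto) hpq.symm hqr (by tauto)⟩
  · exact ⟨r, key r (by tauto) hqr.symm hpr.symm (by tauto)⟩
  · exact absurd rfl huw
  · exact ⟨p, key p (by tauto) hpq hpr (by tauto)⟩
  · exact ⟨q, key q (by tauto) hqr hpq.symm (by tauto)⟩
  · exact ⟨p, key p (by tauto) hpr hpq (by tauto)⟩
  · exact absurd rfl huw

/-- STEP 1 -/
theorem step1 {x v y z wv wy wz : V} (hK : ∀ t, t ∈ K ↔ t = v ∨ t = x ∨ t = y ∨ t = z)
    (hxv : G.Adj x v) (h1 : Th G K x v wv) (h2 : Th G K x y wy) (h3 : Th G K x z wz)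
    (hnb : ¬ BI (link G x) v) : Cn G K x wy wv ∨ Cn G K x wz wv := by
  by_contra hcon
  rw [not_or] at hcon
  obtain ⟨c1, c2⟩ := hcon
  unfold Cn at c1 c2
  push Not at c1 c2
  obtain ⟨N1, hN1, a1, b1⟩ := c1
  obtain ⟨N2, hN2, a2, b2⟩ := c2
  apply hnb
  refine ⟨wv, ⟨hxv, h1.2.1, h1.2.2.1⟩, ?_⟩
  rw [SimpleGraph.isBridge_iff]
  rintro ⟨p⟩
  -- the side of `wv`
  have hinv : ∀ t t', ((link G x).deleteEdges {s(v, wv)}).Adj t t' →
      (t ∉ K ∧ t ∉ N1 ∧ t ∉ N2) → (t' ∉ K ∧ t' ∉ N1 ∧ t' ∉ N2) := by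
    intro t t' ht ⟨g1, g2, g3⟩
    rw [SimpleGraph.deleteEdges_adj] at ht
    obtain ⟨⟨k1, k2, k3⟩, k4⟩ := ht
    have hk : t' ∉ K := by
      intro hk
      rcases (hK t').1 hk with h | h | h | h
      · subst h
        rcases h1.2.2.2 t k1 k3.symm with h | h
        · exact g1 h
        · subst h
          exact k4 (by rw [Sym2.eq_swap]; rfl)
      · subst h
        exact G.ne_of_adj k2 rfl
      · subst h
        rcases h2.2.2.2 t k1 k3.symm with h | h
        · exact g1 h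
        · subst h
          exact g2 a1
      · subst h
        rcases h3.2.2.2 t k1 k3.symm with h | h
        · exact g1 h
        · subst h
          exact g3 a2
    exact ⟨hk, fun h => g2 (hN1 t' t hk g1 k2 k1 k3.symm h),
      fun h => g3 (hN2 t' t hk g1 k2 k1 k3.symm h)⟩
  have hwalk : ∀ t t', ((link G x).deleteEdges {s(v, wv)}).Walk t t' →
      (t ∉ K ∧ t ∉ N1 ∧ t ∉ N2) → (t' ∉ K ∧ t' ∉ N1 ∧ t' ∉ N2) := by
    intro t t' W
    induction W with
    | nil => exact fun h => h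
    | cons hadj _ ih => exact fun h => ih (hinv _ _ hadj h)
  have := hwalk _ _ p.reverse ⟨h1.1, b1, b2⟩
  exact this.1 ((hK v).2 (Or.inl rfl))

theorem tri_form {t : Finset V} (ht : G.IsNClique 3 t) {x y : V} (hx : x ∈ t) (hy : y ∈ t)
    (hxy : x ≠ y) : ∃ z, t = {x, y, z} ∧ G.Adj x z ∧ G.Adj y z := by
  obtain ⟨a, b, c, hab, hac, hbc, rfl⟩ := SimpleGraph.is3Clique_iff.1 ht
  simp only [mem_insert, mem_singleton] at hx hy
  rcases hx with rfl | rfl | rfl <;> rcases hy with rfl | rfl | rfl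
  · exact absurd rfl hxy
  · exact ⟨c, rfl, hac, hbc⟩
  · exact ⟨b, by ext s; simp only [mem_insert, mem_singleton]; tauto, hab, hbc.symm⟩
  · exact ⟨c, by ext s; simp only [mem_insert, mem_singleton]; tauto, hbc, hac⟩
  · exact absurd rfl hxy
  · exact ⟨a, by ext s; simp only [mem_insert, mem_singleton]; tauto, hab.symm, hac.symm⟩
  · exact ⟨b, by ext s; simp only [mem_insert, mem_singleton]; tauto, hbc.symm, hab⟩
  · exact ⟨a, by ext s; simp only [mem_insert, mem_singleton]; tauto, hac.symm, hab.symm⟩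
  · exact absurd rfl hxy

theorem dg_symm (x y : V) : dg S x y = dg S y x := by
  unfold dg
  congr 1
  ext t
  simp only [mem_filter]
  tauto

/-- an edge of `K` -/
theorem dgK (hS : ∀ t ∈ S, G.IsNClique 3 t) {x y u w z0 : V}
    (hK : ∀ t, t ∈ K ↔ t = x ∨ t = y ∨ t = u ∨ t = w) (hxy : G.Adj x y)
    (hz : Th G K x y z0) (hu : ∀ t ∈ S, ¬ (x ∈ t ∧ y ∈ t ∧ u ∈ t))
    (hw : ∀ t ∈ S, ¬ (x ∈ t ∧ y ∈ t ∧ w ∈ t)) :
    dg S x y ≤ 1 ∧ (dg S x y ≠ 0 → ({x, y, z0} : Finset V) ∈ S) := by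
  have hsub : S.filter (fun t => x ∈ t ∧ y ∈ t) ⊆ {({x, y, z0} : Finset V)} := by
    intro t ht
    rw [mem_filter] at ht
    obtain ⟨h1, h2, h3⟩ := ht
    obtain ⟨z, hz1, hz2, hz3⟩ := tri_form (hS t h1) h2 h3 (G.ne_of_adj hxy)
    rw [mem_singleton, hz1]
    have hzt : z ∈ t := by rw [hz1]; simp
    rcases hz.2.2.2 z hz2 hz3 with h | h
    · rcases (hK z).1 h with h | h | h | h
      · exact absurd h.symm (G.ne_of_adj hz2)
      · exact absurd h.symm (G.ne_of_adj hz3)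
      · subst h; exact absurd ⟨h2, h3, hzt⟩ (hu t h1)
      · subst h; exact absurd ⟨h2, h3, hzt⟩ (hw t h1)
    · rw [h]
  refine ⟨(card_le_card hsub).trans (by simp), fun h0 => ?_⟩
  obtain ⟨t, ht⟩ := card_pos.1 (Nat.pos_of_ne_zero h0)
  have h1 := mem_singleton.1 (hsub ht)
  rw [← h1]
  exact (mem_filter.1 ht).1

/-- an edge leaving `K` -/
theorem dgO [Fintype V] (hLC : LC G) (hS : ∀ t ∈ S, G.IsNClique 3 t) {x z : V} (hxz : G.Adj x z)
    (h2 : dg S x z ≠ 0 → 2 ≤ dg S x z) (h0 : dg S x z ≠ 0) (hn2 : dg S x z ≠ 2) {z' : V}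
    (hxz' : G.Adj x z') (hzz' : G.Adj z z') : ({x, z, z'} : Finset V) ∈ S := by
  obtain ⟨C, hC⟩ : ∃ C : Finset V, C = univ.filter (fun t => G.Adj x t ∧ G.Adj z t) := ⟨_, rfl⟩
  have hCc : C.card = 3 := by
    rw [hC, ← hLC x z hxz, ← Set.ncard_coe_finset]
    congr 1
    ext t
    simp
  have hsub : S.filter (fun t => x ∈ t ∧ z ∈ t) ⊆ C.image (fun y => ({x, z, y} : Finset V)) := by
    intro t ht
    rw [mem_filter] at ht
    obtain ⟨h1, h2, h3⟩ := ht
    obtain ⟨y, hy1, hy2, hy3⟩ := tri_form (hS t h1) h2 h3 (G.ne_of_adj hxz)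
    rw [mem_image]
    exact ⟨y, by rw [hC, mem_filter]; exact ⟨mem_univ _, hy2, hy3⟩, hy1.symm⟩
  have h3 : 3 ≤ dg S x z := by
    have := h2 h0
    omega
  have heq : S.filter (fun t => x ∈ t ∧ z ∈ t) = C.image (fun y => ({x, z, y} : Finset V)) := by
    apply eq_of_subset_of_card_le hsub
    have h4 : (C.image (fun y => ({x, z, y} : Finset V))).card ≤ 3 := by
      rw [← hCc]; exact card_image_le
    exact h4.trans h3
  have h5 : ({x, z, z'} : Finset V) ∈ C.image (fun y => ({x, z, y} : Finset V)) := by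
    rw [mem_image]
    exact ⟨z', by rw [hC, mem_filter]; exact ⟨mem_univ _, hxz', hzz'⟩, rfl⟩
  rw [← heq] at h5
  exact (mem_filter.1 h5).1

theorem dg_pos {t : Finset V} (ht : t ∈ S) {x y : V} (hx : x ∈ t) (hy : y ∈ t) :
    dg S x y ≠ 0 := by
  unfold dg
  rw [← Nat.pos_iff_ne_zero, card_pos]
  exact ⟨t, mem_filter.2 ⟨ht, hx, hy⟩⟩

/-- STEP 4 -/
theorem step4 [Fintype V] (hLC : LC G) (hS : ∀ t ∈ S, G.IsNClique 3 t)
    {x y y' wy wy' : V}
    (h2 : ∀ z, G.Adj x z → z ∉ K → dg S x z ≠ 0 → 2 ≤ dg S x z) (hxy' : G.Adj x y')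
    (hwy : Th G K x y wy) (hwy' : Th G K x y' wy') (hcn : Cn G K x wy wy')
    (hin : ({x, y, wy} : Finset V) ∈ S) (hz : dg S x y' = 0) :
    ∃ z, z ∉ K ∧ G.Adj x z ∧ dg S x z = 2 := by
  by_contra hcon
  push Not at hcon
  have hN := hcn {z | G.Adj x z ∧ z ∉ K ∧ dg S x z ≠ 0} (by
    intro z z' hz hz' g1 g2 g3 g4
    obtain ⟨_, _, g5⟩ := g4
    have h5 := dgO hLC hS g1 (h2 z g1 hz) g5 (hcon z hz g1) g2 g3
    exact ⟨g2, hz', dg_pos h5 (by simp) (by simp)⟩)
    ⟨hwy.2.1, hwy.1, dg_pos hin (by simp) (by simp)⟩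
  obtain ⟨g1, g2, g3⟩ := hN
  have h5 := dgO hLC hS g1 (h2 _ g1 g2) g3 (hcon _ g2 g1) hxy' hwy'.2.2.1.symm
  exact dg_pos h5 (by simp) (by simp) hz

theorem sum_ins {α : Type} [DecidableEq α] (f : α → ℕ) (a : α) (s : Finset α) :
    ∑ x ∈ insert a s, f x ≤ f a + ∑ x ∈ s, f x := by
  by_cases h : a ∈ s
  · rw [insert_eq_of_mem h]; omega
  · rw [sum_insert h]

/-- the signs -/
noncomputable def sgn (v a b c : V) (e : Sym2 V) : ℤ :=
  if e = s(v, b) then 1 else if e = s(a, b) then -1 else if e = s(a, c) then 1 else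
    if e = s(v, c) then -1 else 0

theorem sgn_ne {v a b c : V} {e : Sym2 V} (h : sgn v a b c e ≠ 0) :
    e = s(v, b) ∨ e = s(a, b) ∨ e = s(a, c) ∨ e = s(v, c) := by
  unfold sgn at h
  split_ifs at h with h1 h2 h3 h4
  · exact Or.inl h1
  · exact Or.inr (Or.inl h2)
  · exact Or.inr (Or.inr (Or.inl h3))
  · exact Or.inr (Or.inr (Or.inr h4))
  · exact absurd rfl h

/-- the main part, after renaming -/
theorem core [Fintype V] (hH : S_HALL) (hLC : LC G) (hStar : Star G) {v a b c : V}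
    {wva wvb wvc wab wac wbc : V} (hK : ∀ t, t ∈ K ↔ t = v ∨ t = a ∨ t = b ∨ t = c)
    (va : G.Adj v a) (vb : G.Adj v b) (vc : G.Adj v c) (ab : G.Adj a b) (bc : G.Adj b c)
    (ac : G.Adj a c) (tva : Th G K v a wva) (tvb : Th G K v b wvb) (tvc : Th G K v c wvc)
    (tab : Th G K a b wab) (tac : Th G K a c wac) (tbc : Th G K b c wbc)
    (hb : Cn G K b wbc wvb) (ha : Cn G K a wab wva ∨ Cn G K a wac wva) : False := by
  have nva := G.ne_of_adj va
  have nvb := G.ne_of_adj vb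
  have nvc := G.ne_of_adj vc
  have nab := G.ne_of_adj ab
  have nbc := G.ne_of_adj bc
  have nac := G.ne_of_adj ac
  obtain ⟨s, hs⟩ : ∃ s, s = sgn v a b c := ⟨_, rfl⟩
  have s1 : s s(v, b) = 1 := by rw [hs]; simp [sgn]
  have s2 : s s(a, b) = -1 := by
    rw [hs, sgn, if_neg, if_pos rfl]
    simp only [Sym2.eq_iff]
    rintro (h | h)
    · exact nva h.1.symm
    · exact nab h.1
  have s3 : s s(a, c) = 1 := by
    rw [hs, sgn, if_neg, if_neg, if_pos rfl]
    · simp only [Sym2.eq_iff]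
      rintro (h | h)
      · exact nbc h.2.symm
      · exact nab h.1
    · simp only [Sym2.eq_iff]
      rintro (h | h)
      · exact nva h.1.symm
      · exact nab h.1
  have s4 : s s(v, c) = -1 := by
    rw [hs, sgn, if_neg, if_neg, if_neg, if_pos rfl]
    · simp only [Sym2.eq_iff]
      rintro (h | h)
      · exact nva h.1
      · exact nvc h.1
    · simp only [Sym2.eq_iff]
      rintro (h | h)
      · exact nva h.1
      · exact nvb h.1
    · simp only [Sym2.eq_iff]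
      rintro (h | h)
      · exact nbc h.2.symm
      · exact nvb h.1
  have s5 : s s(v, a) = 0 := by
    rw [hs, sgn, if_neg, if_neg, if_neg, if_neg]
    · simp only [Sym2.eq_iff]
      rintro (h | h)
      · exact nac h.2
      · exact nvc h.1
    · simp only [Sym2.eq_iff]
      rintro (h | h)
      · exact nva h.1
      · exact nvc h.1
    · simp only [Sym2.eq_iff]
      rintro (h | h)
      · exact nva h.1
      · exact nvb h.1
    · simp only [Sym2.eq_iff]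
      rintro (h | h)
      · exact nab h.2
      · exact nvb h.1
  have s6 : s s(b, c) = 0 := by
    rw [hs, sgn, if_neg, if_neg, if_neg, if_neg]
    · simp only [Sym2.eq_iff]
      rintro (h | h)
      · exact nvb h.1.symm
      · exact nbc h.1
    · simp only [Sym2.eq_iff]
      rintro (h | h)
      · exact nab h.1.symm
      · exact nbc h.1
    · simp only [Sym2.eq_iff]
      rintro (h | h)
      · exact nab h.1.symm
      · exact nac h.2.symm
    · simp only [Sym2.eq_iff]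
      rintro (h | h)
      · exact nvb h.1.symm
      · exact nvc h.2.symm
  have s0 : ∀ x z, z ∉ K → s s(x, z) = 0 := by
    intro x z hz
    rw [hK] at hz
    push Not at hz
    obtain ⟨z1, z2, z3, z4⟩ := hz
    rw [hs, sgn, if_neg, if_neg, if_neg, if_neg]
    · simp only [Sym2.eq_iff]
      rintro (h | h)
      · exact z4 h.2
      · exact z1 h.2
    · simp only [Sym2.eq_iff]
      rintro (h | h)
      · exact z4 h.2
      · exact z2 h.2
    · simp only [Sym2.eq_iff]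
      rintro (h | h)
      · exact z3 h.2
      · exact z2 h.2
    · simp only [Sym2.eq_iff]
      rintro (h | h)
      · exact z3 h.2
      · exact z1 h.2
  obtain ⟨S, hS1, hS2, hS3⟩ := hH V G hLC hStar s ⟨v, b, vb, by rw [s1]; norm_num⟩
  have hS : ∀ t ∈ S, G.IsNClique 3 t := fun t ht => (hS1 t ht).1
  -- the triangles inside K
  have tVAB : ∀ t ∈ S, ¬ (v ∈ t ∧ a ∈ t ∧ b ∈ t) := fun t ht ⟨h1, h2, h3⟩ =>
    (hS1 t ht).2 ⟨⟨v, h1, b, h3, nvb, by rw [s1]; norm_num⟩, ⟨a, h2, b, h3, nab, by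
      rw [s2]; norm_num⟩⟩
  have tVAC : ∀ t ∈ S, ¬ (v ∈ t ∧ a ∈ t ∧ c ∈ t) := fun t ht ⟨h1, h2, h3⟩ =>
    (hS1 t ht).2 ⟨⟨a, h2, c, h3, nac, by rw [s3]; norm_num⟩, ⟨v, h1, c, h3, nvc, by
      rw [s4]; norm_num⟩⟩
  have tVBC : ∀ t ∈ S, ¬ (v ∈ t ∧ b ∈ t ∧ c ∈ t) := fun t ht ⟨h1, h2, h3⟩ =>
    (hS1 t ht).2 ⟨⟨v, h1, b, h2, nvb, by rw [s1]; norm_num⟩, ⟨v, h1, c, h3, nvc, by
      rw [s4]; norm_num⟩⟩
  have tABC : ∀ t ∈ S, ¬ (a ∈ t ∧ b ∈ t ∧ c ∈ t) := fun t ht ⟨h1, h2, h3⟩ =>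
    (hS1 t ht).2 ⟨⟨a, h1, c, h3, nac, by rw [s3]; norm_num⟩, ⟨a, h1, b, h2, nab, by
      rw [s2]; norm_num⟩⟩
  have dva := dgK (u := b) (w := c) hS hK va tva
    (fun t ht h => tVAB t ht h) (fun t ht h => tVAC t ht h)
  have dvb := dgK (u := a) (w := c) hS (k23 hK) vb tvb
    (fun t ht h => tVAB t ht ⟨h.1, h.2.2, h.2.1⟩) (fun t ht h => tVBC t ht h)
  have dvc := dgK (u := a) (w := b) hS (k23 (k34 hK)) vc tvc
    (fun t ht h => tVAC t ht ⟨h.1, h.2.2, h.2.1⟩) (fun t ht h => tVBC t ht ⟨h.1, h.2.2, h.2.1⟩)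
  have dab := dgK (u := v) (w := c) hS (k23 (k12 hK)) ab tab
    (fun t ht h => tVAB t ht ⟨h.2.2, h.1, h.2.1⟩) (fun t ht h => tABC t ht h)
  have dac := dgK (u := v) (w := b) hS (k23 (k12 (k34 hK))) ac tac
    (fun t ht h => tVAC t ht ⟨h.2.2, h.1, h.2.1⟩) (fun t ht h => tABC t ht ⟨h.1, h.2.2, h.2.1⟩)
  have dbc := dgK (u := v) (w := a) hS (k23 (k12 (k34 (k23 hK)))) bc tbc
    (fun t ht h => tVBC t ht ⟨h.2.2, h.1, h.2.1⟩) (fun t ht h => tABC t ht ⟨h.2.2, h.1, h.2.1⟩)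
  have zva : dg S v a = 0 := by
    by_contra h
    have := hS2 v a va s5 h
    omega
  have zbc : dg S b c = 0 := by
    by_contra h
    have := hS2 b c bc s6 h
    omega
  have h2O : ∀ x z, G.Adj x z → z ∉ K → dg S x z ≠ 0 → 2 ≤ dg S x z := fun x z h1 h2 h3 =>
    hS2 x z h1 (s0 x z h2) h3
  have aK : a ∈ K := (hK a).2 (Or.inr (Or.inl rfl))
  have bK : b ∈ K := (hK b).2 (Or.inr (Or.inr (Or.inl rfl)))
  -- the sum over the signed edges
  obtain ⟨P0, hP0⟩ : ∃ P0, P0 = univ.filter (fun p : V × V =>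
      G.Adj p.1 p.2 ∧ s s(p.1, p.2) = 0 ∧ dg S p.1 p.2 = 2) := ⟨_, rfl⟩
  have hsum : 6 + P0.card ≤ 2 * (dg S v b + dg S a b + dg S a c + dg S v c) := by
    rw [hP0]
    refine hS3.trans ?_
    have hsub : univ.filter (fun p : V × V => G.Adj p.1 p.2 ∧ s s(p.1, p.2) ≠ 0) ⊆
        insert (v, b) (insert (b, v) (insert (a, b) (insert (b, a) (insert (a, c)
          (insert (c, a) (insert (v, c) (insert (c, v) ∅))))))) := by
      rintro ⟨x, y⟩ hp
      rw [mem_filter] at hp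
      obtain ⟨_, _, hp⟩ := hp
      have hp' : sgn v a b c s(x, y) ≠ 0 := by rw [← hs]; exact hp
      rcases sgn_ne hp' with h | h | h | h <;> rcases Sym2.eq_iff.1 h with ⟨rfl, rfl⟩ | ⟨rfl, rfl⟩ <;>
        simp
    refine (sum_le_sum_of_subset hsub).trans ?_
    have f1 := sum_ins (fun p : V × V => dg S p.1 p.2) (v, b) (insert (b, v) (insert (a, b)
      (insert (b, a) (insert (a, c) (insert (c, a) (insert (v, c) (insert (c, v) ∅)))))))
    have f2 := sum_ins (fun p : V × V => dg S p.1 p.2) (b, v) (insert (a, b)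
      (insert (b, a) (insert (a, c) (insert (c, a) (insert (v, c) (insert (c, v) ∅))))))
    have f3 := sum_ins (fun p : V × V => dg S p.1 p.2) (a, b)
      (insert (b, a) (insert (a, c) (insert (c, a) (insert (v, c) (insert (c, v) ∅)))))
    have f4 := sum_ins (fun p : V × V => dg S p.1 p.2) (b, a)
      (insert (a, c) (insert (c, a) (insert (v, c) (insert (c, v) ∅))))
    have f5 := sum_ins (fun p : V × V => dg S p.1 p.2) (a, c)
      (insert (c, a) (insert (v, c) (insert (c, v) ∅)))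
    have f6 := sum_ins (fun p : V × V => dg S p.1 p.2) (c, a)
      (insert (v, c) (insert (c, v) ∅))
    have f7 := sum_ins (fun p : V × V => dg S p.1 p.2) (v, c) (insert (c, v) ∅)
    have f8 := sum_ins (fun p : V × V => dg S p.1 p.2) (c, v) ∅
    rw [sum_empty] at f8
    have g1 := dg_symm (S := S) b v
    have g2 := dg_symm (S := S) b a
    have g3 := dg_symm (S := S) c a
    have g4 := dg_symm (S := S) c v
    dsimp only at f1 f2 f3 f4 f5 f6 f7 f8 ⊢
    omega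
  have memP0 : ∀ x z, z ∉ K → G.Adj x z → dg S x z = 2 → (x, z) ∈ P0 ∧ (z, x) ∈ P0 := by
    intro x z h1 h2 h3
    rw [hP0, mem_filter, mem_filter]
    refine ⟨⟨mem_univ _, h2, s0 x z h1, h3⟩, ⟨mem_univ _, h2.symm, ?_, ?_⟩⟩
    · change s s(z, x) = 0
      rw [Sym2.eq_swap]
      exact s0 x z h1
    · change dg S z x = 2
      rw [dg_symm]
      exact h3
  -- payments
  have payA : ({a, b, wab} : Finset V) ∈ S ∧ Cn G K a wab wva ∨
      ({a, c, wac} : Finset V) ∈ S ∧ Cn G K a wac wva → ∃ z, z ∉ K ∧ G.Adj a z ∧ dg S a z = 2 := by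
    rintro (⟨h1, h2⟩ | ⟨h1, h2⟩)
    · exact step4 hLC hS (h2O a) va.symm tab tva.symm h2 h1 (by rw [dg_symm]; exact zva)
    · exact step4 hLC hS (h2O a) va.symm tac tva.symm h2 h1 (by rw [dg_symm]; exact zva)
  have payB : dg S v b ≠ 0 → ∃ z, z ∉ K ∧ G.Adj b z ∧ dg S b z = 2 := by
    intro h
    have h1 := dvb.2 h
    have h1' : ({b, v, wvb} : Finset V) ∈ S := by
      rw [insert_comm]; exact h1
    exact step4 hLC hS (h2O b) bc tvb.symm tbc hb.symm h1' zbc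
  have card2 : ∀ x z, x ∈ K → z ∉ K → (x, z) ∈ P0 → (z, x) ∈ P0 → 2 ≤ P0.card := by
    intro x z hx hz h1 h2
    have hsub : ({(x, z), (z, x)} : Finset (V × V)) ⊆ P0 := by
      intro p hp
      simp only [mem_insert, mem_singleton] at hp
      rcases hp with rfl | rfl
      · exact h1
      · exact h2
    refine le_trans ?_ (card_le_card hsub)
    rw [card_pair]
    intro h
    rw [Prod.mk.injEq] at h
    exact hz (h.1 ▸ hx)
  have card4 : ∀ z z', z ∉ K → z' ∉ K → (a, z) ∈ P0 → (z, a) ∈ P0 → (b, z') ∈ P0 →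
      (z', b) ∈ P0 → 4 ≤ P0.card := by
    intro z z' hz hz' h1 h2 h3 h4
    have hsub : ({(a, z), (z, a), (b, z'), (z', b)} : Finset (V × V)) ⊆ P0 := by
      intro p hp
      simp only [mem_insert, mem_singleton] at hp
      rcases hp with rfl | rfl | rfl | rfl
      · exact h1
      · exact h2
      · exact h3
      · exact h4
    refine le_trans (le_of_eq ?_) (card_le_card hsub)
    have e1 : z ≠ a := fun h => hz (h ▸ aK)
    have e2 : z ≠ b := fun h => hz (h ▸ bK)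
    have e3 : z' ≠ a := fun h => hz' (h ▸ aK)
    have e4 : z' ≠ b := fun h => hz' (h ▸ bK)
    rw [card_insert_of_notMem, card_insert_of_notMem, card_insert_of_notMem, card_singleton]
    · simp only [mem_singleton, Prod.mk.injEq, not_and]
      exact fun h => absurd h.symm e4
    · simp only [mem_insert, mem_singleton, Prod.mk.injEq, not_or, not_and]
      exact ⟨fun h => absurd h e2, fun _ => nab⟩
    · simp only [mem_insert, mem_singleton, Prod.mk.injEq, not_or, not_and]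
      exact ⟨fun h => absurd h.symm e1, fun h => absurd h nab, fun h => absurd h.symm e3⟩
  -- conclusion
  by_cases hA : ∃ z, z ∉ K ∧ G.Adj a z ∧ dg S a z = 2
  · obtain ⟨z, z1, z2, z3⟩ := hA
    obtain ⟨m1, m2⟩ := memP0 a z z1 z2 z3
    have c2 := card2 a z aK z1 m1 m2
    by_cases hB : dg S v b = 0
    · omega
    · obtain ⟨z', z1', z2', z3'⟩ := payB hB
      obtain ⟨m1', m2'⟩ := memP0 b z' z1' z2' z3'
      have := card4 z z' z1 z1' m1 m2 m1' m2'
      omega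
  · have hA2 : dg S a b = 0 ∨ dg S a c = 0 := by
      by_contra hcon
      rw [not_or] at hcon
      rcases ha with ha | ha
      · exact hA (payA (Or.inl ⟨dab.2 hcon.1, ha⟩))
      · exact hA (payA (Or.inr ⟨dac.2 hcon.2, ha⟩))
    by_cases hB : dg S v b = 0
    · rcases hA2 with h | h <;> omega
    · obtain ⟨z', z1', z2', z3'⟩ := payB hB
      obtain ⟨m1', m2'⟩ := memP0 b z' z1' z2' z3'
      have := card2 b z' bK z1' m1' m2'
      rcases hA2 with h | h <;> omega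

end TRI

open TRI in
theorem TRI_ok : S_HALL → S_TRI := by
  intro hH V _ G hLC hStar v a b c va vb vc ab bc ac
  by_contra hcon
  rw [not_or, not_or] at hcon
  obtain ⟨na, nb', nc⟩ := hcon
  obtain ⟨K, hK⟩ : ∃ K : Set V, ∀ t, t ∈ K ↔ t = v ∨ t = a ∨ t = b ∨ t = c :=
    ⟨{t | t = v ∨ t = a ∨ t = b ∨ t = c}, fun t => Iff.rfl⟩
  obtain ⟨wva, tva⟩ := exists_Th hLC (K := K) hK va vb vc ab ac (G.ne_of_adj bc)
  obtain ⟨wvb, tvb⟩ := exists_Th hLC (K := K) (k23 hK) vb va vc ab.symm bc (G.ne_of_adj ac)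
  obtain ⟨wvc, tvc⟩ := exists_Th hLC (K := K) (k23 (k34 hK)) vc va vb ac.symm bc.symm
    (G.ne_of_adj ab)
  obtain ⟨wab, tab⟩ := exists_Th hLC (K := K) (k23 (k12 hK)) ab va.symm ac vb.symm bc
    (G.ne_of_adj vc)
  obtain ⟨wac, tac⟩ := exists_Th hLC (K := K) (k23 (k12 (k34 hK))) ac va.symm ab vc.symm bc.symm
    (G.ne_of_adj vb)
  obtain ⟨wbc, tbc⟩ := exists_Th hLC (K := K) (k23 (k12 (k34 (k23 hK)))) bc vb.symm ab.symm
    vc.symm ac.symm (G.ne_of_adj va)
  have sa := step1 hK va.symm tva.symm tab tac na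
  have sb := step1 (k23 hK) vb.symm tvb.symm tab.symm tbc nb'
  have sc := step1 (k34 (k23 (k34 hK))) vc.symm tvc.symm tbc.symm tac.symm nc
  rcases sb with h | h
  · exact core hH hLC hStar (k34 (k23 (k34 hK))) vc vb va bc.symm ab.symm ac.symm tvc tvb tva
      tbc.symm tac.symm tab.symm h sc
  · exact core hH hLC hStar hK va vb vc ab bc ac tva tvb tvc tab tac tbc h sa

end Pool.Agent.R695.TR
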