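import Pool.Agent.R695.TR.RED1
import Pool.Agent.R695.TR.Red2
import Pool.Agent.R695.TR.HG
import Pool.Agent.R695.TR.Hall
import Pool.Agent.R730.TRp.Loc
import Pool.Agent.R695.TR.COST
import Pool.Agent.R695.TR.COSTC
import Pool.Agent.R695.TR.TRI
import Pool.Agent.R695.TR.CH
import Pool.Agent.R695.TR.F2
import Pool.Agent.R695.TR.EAR
import Pool.Agent.R698.TRL.LPath
import Pool.Agent.R695.TR.DIA
import Pool.Agent.R695.TR.K
import Pool.Agent.R695.TR.CNT
import Pool.Agent.R695.TR.GL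
import Pool.Agent.R695.TR.Fin

namespace Pool.Agent.R695.TR

theorem FIN_ok : S_FIN := by
  have hF2 : S_F2 := F2_ok CH_ok
  have hHALL : S_HALL := HALL_ok HG_ok
  have hK : S_K := K_ok EAR_ok hF2 (LPATH_ok hF2) DIA_ok
  exact FinAsm.main (RED2_ok RED1_ok) (COSTC_ok (COST_ok hHALL LOC_ok)) (TRI_ok hHALL)
    (GLem.G_ok hK CNT_ok)

end Pool.Agent.R695.TR
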