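import Pool.Agent.R695.TR.Stm

/-!
# TR-RED1 (helper139): minimal non-colourable sets of triangles
-/

namespace Pool.Agent.R695.TR

namespace RED1

open Finset
open scoped Classical

/-- `H` is colourable: some 2-colouring of the edges shows both colours on each member of `H`. -/
def Col {V : Type} (H : Finset (Finset V)) : Prop :=
  ∃ c : Sym2 V → Bool, ∀ t ∈ H, (∃ x ∈ t, ∃ y ∈ t, x ≠ y ∧ c s(x, y) = true) ∧
    (∃ x ∈ t, ∃ y ∈ t, x ≠ y ∧ c s(x, y) = false)

theorem third {V : Type} (H : Finset (Finset V)) (hH : ¬ Col H)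
    (hmin : ∀ H' ⊂ H, Col H') (s : Sym2 V → ℤ) (hs : ∃ t ∈ H, Touch s t) :
    ∃ t ∈ H, Touch s t ∧ ¬ Both s t := by
  by_contra hcon
  push Not at hcon
  apply hH
  obtain ⟨t0, ht0, hT0⟩ := hs
  have hss : H.filter (fun t => ¬ Touch s t) ⊂ H := by
    rw [Finset.filter_ssubset]
    exact ⟨t0, ht0, fun h => h hT0⟩
  obtain ⟨c, hc⟩ := hmin _ hss
  refine ⟨fun e => if s e ≠ 0 then decide (0 < s e) else c e, fun t ht => ?_⟩
  by_cases hT : Touch s t
  · obtain ⟨⟨x, hx, y, hy, hxy, h1⟩, ⟨x', hx', y', hy', hxy', h2⟩⟩ := hcon t ht hT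
    refine ⟨⟨x, hx, y, hy, hxy, ?_⟩, ⟨x', hx', y', hy', hxy', ?_⟩⟩
    · simp only
      rw [if_pos h1.ne']
      exact decide_eq_true h1
    · simp only
      rw [if_pos h2.ne]
      exact decide_eq_false (not_lt.2 h2.le)
  · obtain ⟨⟨x, hx, y, hy, hxy, h1⟩, ⟨x', hx', y', hy', hxy', h2⟩⟩ :=
      hc t (Finset.mem_filter.2 ⟨ht, hT⟩)
    have h0 : ∀ a ∈ t, ∀ b ∈ t, a ≠ b → s s(a, b) = 0 := by
      intro a ha b hb hab
      by_contra h
      exact hT ⟨a, ha, b, hb, hab, h⟩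
    refine ⟨⟨x, hx, y, hy, hxy, ?_⟩, ⟨x', hx', y', hy', hxy', ?_⟩⟩
    · simp only
      rw [if_neg (by rw [h0 x hx y hy hxy]; simp)]
      exact h1
    · simp only
      rw [if_neg (by rw [h0 x' hx' y' hy' hxy']; simp)]
      exact h2

/-- Extension by zero. -/
noncomputable def ex {V : Type} (H : Finset (Finset V)) (x : (pts H) → ℚ) (e : Sym2 V) : ℚ :=
  if h : e ∈ pts H then x ⟨e, h⟩ else 0

/-- Sum over the sides. -/
noncomputable def phi {V : Type} (H : Finset (Finset V)) : ((pts H) → ℚ) →ₗ[ℚ] (H → ℚ) where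
  toFun x t := ∑ e ∈ (t : Finset V).sym2.filter (fun e => ¬ e.IsDiag), ex H x e
  map_add' x y := by
    funext t
    simp only [Pi.add_apply]
    rw [← Finset.sum_add_distrib]
    refine Finset.sum_congr rfl fun e _ => ?_
    unfold ex
    split_ifs <;> simp
  map_smul' a x := by
    funext t
    simp only [Pi.smul_apply, RingHom.id_apply, smul_eq_mul]
    rw [Finset.mul_sum]
    refine Finset.sum_congr rfl fun e _ => ?_
    unfold ex
    split_ifs <;> simp

theorem side {V : Type} (t : Finset V) (e : Sym2 V) :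
    e ∈ t.sym2.filter (fun e => ¬ e.IsDiag) ↔ ∃ x ∈ t, ∃ y ∈ t, x ≠ y ∧ e = s(x, y) := by
  constructor
  · intro h
    rw [Finset.mem_filter] at h
    obtain ⟨h1, h2⟩ := h
    induction e using Sym2.ind with
    | _ x y =>
      rw [Finset.mk_mem_sym2_iff] at h1
      rw [Sym2.mk_isDiag_iff] at h2
      exact ⟨x, h1.1, y, h1.2, h2, rfl⟩
  · rintro ⟨x, hx, y, hy, hxy, rfl⟩
    rw [Finset.mem_filter, Finset.mk_mem_sym2_iff, Sym2.mk_isDiag_iff]
    exact ⟨⟨hx, hy⟩, hxy⟩

theorem bound {V : Type} (H : Finset (Finset V))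
    (h3 : ∀ s : Sym2 V → ℤ, (∃ t ∈ H, Touch s t) → ∃ t ∈ H, Touch s t ∧ ¬ Both s t) :
    (pts H).card ≤ H.card := by
  by_contra hlt
  rw [not_le] at hlt
  have hfr : Module.finrank ℚ (H → ℚ) < Module.finrank ℚ ((pts H) → ℚ) := by
    rw [Module.finrank_fintype_fun_eq_card, Module.finrank_fintype_fun_eq_card,
      Fintype.card_coe, Fintype.card_coe]
    exact hlt
  obtain ⟨x, hx, hx0⟩ := Submodule.exists_mem_ne_zero_of_ne_bot
    (LinearMap.ker_ne_bot_of_finrank_lt (f := phi H) hfr)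
  rw [LinearMap.mem_ker] at hx
  have hsum : ∀ t ∈ H, ∑ e ∈ t.sym2.filter (fun e => ¬ e.IsDiag), ex H x e = 0 := by
    intro t ht
    exact congrFun hx ⟨t, ht⟩
  set s : Sym2 V → ℤ := fun e => if 0 < ex H x e then 1 else if ex H x e < 0 then -1 else 0
    with hs
  have hpos : ∀ e, 0 < ex H x e → 0 < s e := by
    intro e he
    simp only [hs]
    rw [if_pos he]
    norm_num
  have hneg : ∀ e, ex H x e < 0 → s e < 0 := by
    intro e he
    simp only [hs]
    rw [if_neg (not_lt.2 he.le), if_pos he]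
    norm_num
  have hne : ∀ e, s e ≠ 0 → ex H x e ≠ 0 := by
    intro e he h0
    apply he
    simp only [hs]
    rw [h0]
    simp
  obtain ⟨e0, he0⟩ : ∃ e : (pts H), x e ≠ 0 := by
    by_contra h
    push Not at h
    exact hx0 (funext h)
  have hX0 : ex H x e0 ≠ 0 := by
    unfold ex
    rw [dif_pos e0.2]
    exact he0
  have hT : ∃ t ∈ H, Touch s t := by
    obtain ⟨t, ht, hte⟩ := Finset.mem_biUnion.1 e0.2
    obtain ⟨a, ha, b, hb, hab, hE⟩ := (side t e0).1 hte
    refine ⟨t, ht, a, ha, b, hb, hab, ?_⟩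
    rw [← hE]
    rcases lt_or_gt_of_ne hX0 with h | h
    · exact (hneg _ h).ne
    · exact (hpos _ h).ne'
  obtain ⟨t, ht, ⟨a, ha, b, hb, hab, hab0⟩, hnB⟩ := h3 s hT
  apply hnB
  have hex : ∃ e ∈ t.sym2.filter (fun e => ¬ e.IsDiag), ex H x e ≠ 0 :=
    ⟨s(a, b), (side t _).2 ⟨a, ha, b, hb, hab, rfl⟩, hne _ hab0⟩
  constructor
  · obtain ⟨e, he, he1⟩ := Finset.exists_pos_of_sum_zero_of_exists_nonzero _ (hsum t ht) hex
    obtain ⟨p, hp, q, hq, hpq, rfl⟩ := (side t e).1 he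
    exact ⟨p, hp, q, hq, hpq, hpos _ he1⟩
  · obtain ⟨e, he, he1⟩ := Finset.exists_pos_of_sum_zero_of_exists_nonzero
      (fun e => - ex H x e) (by rw [Finset.sum_neg_distrib, hsum t ht, neg_zero])
      (by obtain ⟨e, he, h⟩ := hex; exact ⟨e, he, neg_ne_zero.2 h⟩)
    obtain ⟨p, hp, q, hq, hpq, rfl⟩ := (side t e).1 he
    exact ⟨p, hp, q, hq, hpq, hneg _ (neg_pos.1 he1)⟩

end RED1

open Finset
open scoped Classical

theorem RED1_ok : S_RED1 := by
  intro V _ G hG
  set H0 : Finset (Finset V) := univ.filter (fun t => G.IsNClique 3 t) with hH0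
  have h0 : ¬ RED1.Col H0 := by
    rintro ⟨c, hc⟩
    apply hG
    refine ⟨c, fun x y z hxy hyz hxz hm => ?_⟩
    have ht : ({x, y, z} : Finset V) ∈ H0 := by
      rw [hH0, Finset.mem_filter]
      exact ⟨Finset.mem_univ _, SimpleGraph.is3Clique_triple_iff.2 ⟨hxy, hxz, hyz⟩⟩
    obtain ⟨⟨a, ha, b, hb, hab, h1⟩, ⟨a', ha', b', hb', hab', h2⟩⟩ := hc _ ht
    have key : ∀ a ∈ ({x, y, z} : Finset V), ∀ b ∈ ({x, y, z} : Finset V), a ≠ b →
        c s(a, b) = c s(x, y) := by
      intro a ha b hb hab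
      have e1 := hm.1
      have e2 := hm.2
      have e3 : c s(y, x) = c s(x, y) := by rw [Sym2.eq_swap]
      have e4 : c s(z, y) = c s(x, y) := by rw [Sym2.eq_swap]; exact e1.symm
      have e5 : c s(z, x) = c s(x, y) := by rw [Sym2.eq_swap]; exact (e1.trans e2).symm
      have e6 : c s(x, z) = c s(x, y) := (e1.trans e2).symm
      simp only [Finset.mem_insert, Finset.mem_singleton] at ha hb
      rcases ha with rfl | rfl | rfl <;> rcases hb with rfl | rfl | rfl <;>
        first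
        | exact absurd rfl hab
        | rfl
        | exact e3
        | exact e4
        | exact e5
        | exact e6
        | exact e1.symm
    have h3 := key a ha b hb hab
    have h4 := key a' ha' b' hb' hab'
    rw [h1] at h3
    rw [h2] at h4
    rw [← h3] at h4
    exact absurd h4 (by simp)
  obtain ⟨H, hHm, hmin⟩ := Finset.exists_min_image
    (H0.powerset.filter (fun H => ¬ RED1.Col H)) Finset.card
    ⟨H0, Finset.mem_filter.2 ⟨Finset.mem_powerset_self _, h0⟩⟩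
  rw [Finset.mem_filter, Finset.mem_powerset] at hHm
  have h3 : ∀ s : Sym2 V → ℤ, (∃ t ∈ H, Touch s t) → ∃ t ∈ H, Touch s t ∧ ¬ Both s t := by
    refine RED1.third H hHm.2 fun H' hH' => ?_
    by_contra hcon
    have := hmin H' (Finset.mem_filter.2 ⟨Finset.mem_powerset.2 (hH'.1.trans hHm.1), hcon⟩)
    exact absurd (Finset.card_lt_card hH') (not_lt.2 this)
  refine ⟨H, ?_, fun t ht => ?_, h3, RED1.bound H h3⟩
  · rw [Finset.nonempty_iff_ne_empty]
    rintro rfl
    exact hHm.2 ⟨fun _ => true, fun t ht => absurd ht (Finset.notMem_empty _)⟩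
  · exact (Finset.mem_filter.1 (hHm.1 ht)).2

end Pool.Agent.R695.TR
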