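import Mathlib

/-!
MP_0ae2e1_co: every finite graph in which each edge lies in at most three triangles has a
2-colouring of its edges with no monochromatic triangle.  Definitions and statements of the pieces.
-/

namespace Pool.Agent.R695.TR

open Finset
open scoped Classical

/-! ## Graph side -/

/-- The link of `v` in `G` (vertices which are not neighbours of `v` are isolated). -/
def link {V : Type} (G : SimpleGraph V) (v : V) : SimpleGraph V where
  Adj x y := G.Adj v x ∧ G.Adj v y ∧ G.Adj x y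
  symm := ⟨fun _ _ h => ⟨h.2.1, h.1, h.2.2.symm⟩⟩
  loopless := ⟨fun _ h => G.ne_of_adj h.2.2 rfl⟩

/-- Every edge of `G` lies in exactly three triangles. -/
def LC {V : Type} (G : SimpleGraph V) : Prop :=
  ∀ x y, G.Adj x y → {z | G.Adj x z ∧ G.Adj y z}.ncard = 3

/-- The side of some triangle `t` has a nonzero sign. -/
def Touch {V : Type} (s : Sym2 V → ℤ) (t : Finset V) : Prop :=
  ∃ x ∈ t, ∃ y ∈ t, x ≠ y ∧ s s(x, y) ≠ 0

/-- Both signs occur on the sides of `t`. -/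
def Both {V : Type} (s : Sym2 V → ℤ) (t : Finset V) : Prop :=
  (∃ x ∈ t, ∃ y ∈ t, x ≠ y ∧ 0 < s s(x, y)) ∧ (∃ x ∈ t, ∃ y ∈ t, x ≠ y ∧ s s(x, y) < 0)

/-- No nonzero partial signing of the edges of `G` gives both signs to every triangle it touches. -/
def Star {V : Type} (G : SimpleGraph V) : Prop :=
  ∀ s : Sym2 V → ℤ, (∃ x y, G.Adj x y ∧ s s(x, y) ≠ 0) →
    ∃ t : Finset V, G.IsNClique 3 t ∧ Touch s t ∧ ¬ Both s t

/-- The edges covered by a set of triangles. -/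
noncomputable def pts {V : Type} (H : Finset (Finset V)) : Finset (Sym2 V) :=
  H.biUnion (fun t => t.sym2.filter (fun e => ¬ e.IsDiag))

/-- Number of members of `S` containing `x` and `y`. -/
noncomputable def dg {V : Type} (S : Finset (Finset V)) (x y : V) : ℕ :=
  (S.filter (fun t => x ∈ t ∧ y ∈ t)).card

/-- A bridge of `L` (an edge whose removal separates its ends). -/
def Br {V : Type} (L : SimpleGraph V) (x y : V) : Prop := L.Adj x y ∧ L.IsBridge s(x, y)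

/-- `x` is incident with a bridge of `L`. -/
def BI {V : Type} (L : SimpleGraph V) (x : V) : Prop := ∃ y, Br L x y

/-- The subgraph of the edges which are not bridges. -/
def nb {V : Type} (L : SimpleGraph V) : SimpleGraph V where
  Adj x y := L.Adj x y ∧ ¬ L.IsBridge s(x, y)
  symm := ⟨fun x y h => ⟨h.1.symm, by rw [Sym2.eq_swap]; exact h.2⟩⟩
  loopless := ⟨fun _ h => L.ne_of_adj h.1 rfl⟩

/-- A cycle of `L` with vertices `x 0, ..., x (n-1)`. -/
structure Cyc {V : Type} (L : SimpleGraph V) (n : ℕ) (x : ℕ → V) : Prop where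
  h3 : 3 ≤ n
  inj : ∀ i j, i < n → j < n → x i = x j → i = j
  adj : ∀ i, i + 1 < n → L.Adj (x i) (x (i + 1))
  cl : L.Adj (x (n - 1)) (x 0)

/-- `i` and `j` are consecutive indices of a cycle of length `n`. -/
def CA (n i j : ℕ) : Prop :=
  j = i + 1 ∨ i = j + 1 ∨ (i = 0 ∧ j = n - 1) ∨ (j = 0 ∧ i = n - 1)

/-- The vertex with index `i` is the end of a chord of the cycle. -/
def Chd {V : Type} (L : SimpleGraph V) (n : ℕ) (x : ℕ → V) (i : ℕ) : Prop :=
  ∃ j, j < n ∧ L.Adj (x i) (x j) ∧ ¬ CA n i j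

/-- The cost (in half units) of the `i`-th vertex of a cycle. -/
noncomputable def cst {V : Type} (L : SimpleGraph V) (F : V → Prop) (m : V → V → Prop) (n : ℕ)
    (x : ℕ → V) (i : ℕ) : ℕ :=
  if ∃ y, L.Adj (x i) y ∧ (∀ j, j < n → CA n i j → y ≠ x j) ∧ m (x i) y then 2
  else if F (x i) ∨ Chd L n x i then 1 else 0

/-- Hypotheses of the pure graph lemma: `L` cubic (plus isolated vertices), `F` flagged vertices,
`m` marked arcs. -/
structure GH {V : Type} (L : SimpleGraph V) (F : V → Prop) (m : V → V → Prop) : Prop where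
  deg : ∀ x y, L.Adj x y → {z | L.Adj x z}.ncard = 3
  Fm : ∀ x y, L.Adj x y → m x y → F x
  m1 : ∀ x y z, L.Adj x y → L.Adj x z → L.Adj y z → ¬ m x y
  tri : ∀ x y z, L.Adj x y → L.Adj y z → L.Adj x z → F x ∨ F y ∨ F z
  cost : ∀ n x, Cyc L n x → Even n → 6 ≤ ∑ i ∈ range n, cst L F m n x i

/-- Two-regular alternating structure (disjoint even cycles) with successor `nx`,
predecessor `pv`. -/
structure EvC {V : Type} (L : SimpleGraph V) (X : Finset V) (nx pv : V → V) (σ : V → ℤ) :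
    Prop where
  ne : X.Nonempty
  nx_mem : ∀ x ∈ X, nx x ∈ X
  pv_mem : ∀ x ∈ X, pv x ∈ X
  pv_nx : ∀ x ∈ X, pv (nx x) = x
  nx_pv : ∀ x ∈ X, nx (pv x) = x
  adj : ∀ x ∈ X, L.Adj x (nx x)
  ne2 : ∀ x ∈ X, nx x ≠ pv x
  sg : ∀ x ∈ X, σ x = 1 ∨ σ x = -1
  alt : ∀ x ∈ X, σ (nx x) = - σ x

/-- Cost for the structure `EvC`. -/
noncomputable def cx {V : Type} (L : SimpleGraph V) (F : V → Prop) (m : V → V → Prop)
    (X : Finset V) (nx pv : V → V) (x : V) : ℕ :=
  if ∃ y, L.Adj x y ∧ y ≠ nx x ∧ y ≠ pv x ∧ m x y then 2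
  else if F x ∨ ∃ y ∈ X, L.Adj x y ∧ y ≠ nx x ∧ y ≠ pv x then 1 else 0

/-! ## Statements: reduction -/

/-- Minimal non-colourable set of triangles, with the linear algebra bound. -/
def S_RED1 : Prop := ∀ (V : Type) [Fintype V] (G : SimpleGraph V),
  (¬ ∃ c : Sym2 V → Bool, ∀ x y z, G.Adj x y → G.Adj y z → G.Adj x z →
      ¬ (c s(x, y) = c s(y, z) ∧ c s(y, z) = c s(x, z))) →
  ∃ H : Finset (Finset V), H.Nonempty ∧ (∀ t ∈ H, G.IsNClique 3 t) ∧
    (∀ s : Sym2 V → ℤ, (∃ t ∈ H, Touch s t) → ∃ t ∈ H, Touch s t ∧ ¬ Both s t) ∧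
    (pts H).card ≤ H.card

/-- Reduction to locally cubic graphs with property `Star`. -/
def S_RED : Prop := ∀ (V : Type) [Fintype V] (G : SimpleGraph V),
  (∀ x y, G.Adj x y → {z | G.Adj x z ∧ G.Adj y z}.ncard ≤ 3) →
  (¬ ∃ c : Sym2 V → Bool, ∀ x y z, G.Adj x y → G.Adj y z → G.Adj x z →
      ¬ (c s(x, y) = c s(y, z) ∧ c s(y, z) = c s(x, z))) →
  ∃ G' : SimpleGraph V, (∃ x y, G'.Adj x y) ∧ LC G' ∧ Star G'

/-! ## Statements: Hall violators -/

/-- Abstract form: points `P`, lines `Λ`, three points on a line, three lines through a point. -/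
def S_HG : Prop := ∀ (P Λ : Type) [Fintype P] [Fintype Λ] (inc : Λ → Finset P),
  (∀ l, (inc l).card = 3) → (∀ p, (univ.filter (fun l => p ∈ inc l)).card = 3) →
  (∀ s : P → ℤ, (∃ p, s p ≠ 0) →
    ∃ l, (∃ p ∈ inc l, s p ≠ 0) ∧ ¬ ((∃ p ∈ inc l, 0 < s p) ∧ (∃ p ∈ inc l, s p < 0))) →
  ∀ s : P → ℤ, (∃ p, s p ≠ 0) → ∃ S : Finset Λ,
    (∀ l ∈ S, ¬ ((∃ p ∈ inc l, 0 < s p) ∧ (∃ p ∈ inc l, s p < 0))) ∧
    (∀ p, s p = 0 → (∃ l ∈ S, p ∈ inc l) → 2 ≤ (S.filter (fun l => p ∈ inc l)).card) ∧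
    3 + (univ.filter (fun p => s p = 0 ∧ (S.filter (fun l => p ∈ inc l)).card = 2)).card
      ≤ ∑ p ∈ univ.filter (fun p => s p ≠ 0), (S.filter (fun l => p ∈ inc l)).card

/-- Graph form, with ordered pairs (so all numbers are doubled). -/
def S_HALL : Prop := ∀ (V : Type) [Fintype V] (G : SimpleGraph V), LC G → Star G →
  ∀ s : Sym2 V → ℤ, (∃ x y, G.Adj x y ∧ s s(x, y) ≠ 0) →
  ∃ S : Finset (Finset V),
    (∀ t ∈ S, G.IsNClique 3 t ∧ ¬ Both s t) ∧
    (∀ x y, G.Adj x y → s s(x, y) = 0 → dg S x y ≠ 0 → 2 ≤ dg S x y) ∧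
    6 + (univ.filter (fun p : V × V =>
          G.Adj p.1 p.2 ∧ s s(p.1, p.2) = 0 ∧ dg S p.1 p.2 = 2)).card
      ≤ ∑ p ∈ univ.filter (fun p : V × V => G.Adj p.1 p.2 ∧ s s(p.1, p.2) ≠ 0), dg S p.1 p.2

/-- Local lemma on cuts (pure graph). -/
def S_LOC : Prop := ∀ (V : Type) [Fintype V] (L : SimpleGraph V) (v p q y : V) (N D : Set V),
  L.Adj v p → L.Adj v q → L.Adj v y → p ≠ q → p ≠ y → q ≠ y →
  (∀ z, L.Adj v z → z = p ∨ z = q ∨ z = y) →
  v ∉ N → y ∈ N →
  (∀ z w, L.Adj z w → z ∈ N → w ∉ N → ¬ (z = y ∧ w = v) → z ∈ D) →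
  (p ∈ N → p ∈ D) → (q ∈ N → q ∈ D) →
  (∀ w, L.Adj p w → p ∈ N → w ≠ v → w ∈ N) →
  (∀ w, L.Adj q w → q ∈ N → w ≠ v → w ∈ N) →
  (¬ L.IsBridge s(v, y) → ∃ z, z ∈ N ∧ z ∈ D) ∧
  (¬ L.IsBridge s(v, y) → ¬ L.IsBridge s(v, p) → ¬ L.IsBridge s(v, q) →
    (∃ z, z ∈ N ∧ z ∈ D ∧ z ≠ p ∧ z ≠ q) ∨ (p ∈ N ∧ p ∈ D ∧ q ∈ N ∧ q ∈ D))

/-- The cost inequality for alternating 2-regular structures in links. -/
def S_COST : Prop := ∀ (V : Type) [Fintype V] (G : SimpleGraph V), LC G → Star G →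
  ∀ (v : V) (X : Finset V) (nx pv : V → V) (σ : V → ℤ), EvC (link G v) X nx pv σ →
  6 ≤ ∑ x ∈ X, cx (link G v) (fun x => BI (link G x) v)
        (fun x y => (link G x).IsBridge s(v, y)) X nx pv x

/-- The cost inequality for even cycles in links. -/
def S_COSTC : Prop := ∀ (V : Type) [Fintype V] (G : SimpleGraph V), LC G → Star G →
  ∀ (v : V) (n : ℕ) (x : ℕ → V), Cyc (link G v) n x → Even n →
  6 ≤ ∑ i ∈ range n, cst (link G v) (fun x => BI (link G x) v)
        (fun x y => (link G x).IsBridge s(v, y)) n x i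

/-- The lemma on K4's. -/
def S_TRI : Prop := ∀ (V : Type) [Fintype V] (G : SimpleGraph V), LC G → Star G →
  ∀ v a b c : V, G.Adj v a → G.Adj v b → G.Adj v c → G.Adj a b → G.Adj b c → G.Adj a c →
  BI (link G a) v ∨ BI (link G b) v ∨ BI (link G c) v

/-! ## Statements: pure graph theory -/

/-- Sub-cycles of an even cycle with few chords. -/
def S_CH : Prop := ∀ (V : Type) [Fintype V] (L : SimpleGraph V),
  (∀ x y, L.Adj x y → {z | L.Adj x z}.ncard = 3) →
  ∀ n x, Cyc L n x → Even n → ∃ n' x', Cyc L n' x' ∧ Even n' ∧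
    (∀ i, i < n' → ∃ j, j < n ∧ x' i = x j) ∧
    (((range n').filter (fun i => Chd L n' x' i)).card ≤ 2 ∨ n' = 4)

/-- Every even cycle contains two flagged vertices. -/
def S_F2 : Prop := ∀ (V : Type) [Fintype V] (L : SimpleGraph V) (F : V → Prop)
  (m : V → V → Prop), GH L F m → ∀ n x, Cyc L n x → Even n →
  2 ≤ ((range n).filter (fun i => F (x i))).card

/-- Existence of even cycles. -/
def S_EAR : Prop := ∀ (V : Type) [Fintype V] (L : SimpleGraph V),
  (∀ x y, L.Adj x y → {z | L.Adj x z}.ncard = 3) →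
  ∀ v w, L.Adj v w → ¬ BI L v →
  ∃ n x, Cyc L n x ∧ Even n ∧ ∀ i, i < n → (nb L).Reachable v (x i)

/-- Leaf lemma, first part: a diamond. -/
def S_LPATH : Prop := ∀ (V : Type) [Fintype V] (L : SimpleGraph V) (F : V → Prop)
  (m : V → V → Prop), GH L F m → ∀ u, BI L u → (∃ w, (nb L).Adj u w) →
  (∀ x, (nb L).Reachable u x → BI L x → x = u) →
  (univ.filter (fun x => (nb L).Reachable u x ∧ F x)).card ≤ 2 →
  ∃ a p q t r, (nb L).Reachable u a ∧ a ≠ t ∧ L.Adj a p ∧ L.Adj a q ∧ L.Adj p q ∧ L.Adj p t ∧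
    L.Adj q t ∧ ¬ L.Adj a t ∧ L.Adj a r ∧ r ≠ p ∧ r ≠ q ∧ ¬ L.IsBridge s(a, r) ∧
    (∀ x, (nb L).Reachable u x → F x → x = a ∨ x = t)

/-- Leaf lemma, second part. -/
def S_DIA : Prop := ∀ (V : Type) [Fintype V] (L : SimpleGraph V) (F : V → Prop)
  (m : V → V → Prop), GH L F m → ∀ a p q t r, a ≠ t → L.Adj a p → L.Adj a q → L.Adj p q →
  L.Adj p t → L.Adj q t → ¬ L.Adj a t → L.Adj a r → r ≠ p → r ≠ q → ¬ L.IsBridge s(a, r) →
  (∀ x, (nb L).Reachable a x → F x → x = a ∨ x = t) → False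

/-- Inequality for one component of `nb L`. -/
def S_K : Prop := ∀ (V : Type) [Fintype V] (L : SimpleGraph V) (F : V → Prop)
  (m : V → V → Prop), GH L F m → ∀ c : (nb L).ConnectedComponent,
  ((∃ x, (nb L).connectedComponentMk x = c ∧ BI L x) →
    (4 : ℤ) + (univ.filter (fun x => (nb L).connectedComponentMk x = c ∧ BI L x)).card
      ≤ (univ.filter (fun x => (nb L).connectedComponentMk x = c ∧ F x)).card +
        2 * ∑ x ∈ univ.filter (fun x => (nb L).connectedComponentMk x = c),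
              ((univ.filter (fun y => Br L x y)).card : ℤ)) ∧
  ((∀ x, (nb L).connectedComponentMk x = c → ¬ BI L x) →
    (∃ x y, (nb L).connectedComponentMk x = c ∧ L.Adj x y) →
    1 ≤ (univ.filter (fun x => (nb L).connectedComponentMk x = c ∧ F x)).card)

/-- Counting the components of `nb L`. -/
def S_CNT : Prop := ∀ (V : Type) [Fintype V] (L : SimpleGraph V), (∃ x, BI L x) →
  ∑ x : V, (univ.filter (fun y => Br L x y)).card + 2 ≤
    2 * (univ.filter (fun c : (nb L).ConnectedComponent =>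
          ∃ x, (nb L).connectedComponentMk x = c ∧ BI L x)).card

/-- The pure graph lemma. -/
def S_G : Prop := ∀ (V : Type) [Fintype V] (L : SimpleGraph V) (F : V → Prop)
  (m : V → V → Prop), GH L F m → (∃ x y, L.Adj x y) →
  (univ.filter (fun x => BI L x)).card < (univ.filter (fun x => F x)).card

/-- The final statement. -/
def S_FIN : Prop := ∀ (V : Type) [Fintype V] (G : SimpleGraph V),
  (∀ x y, G.Adj x y → {z | G.Adj x z ∧ G.Adj y z}.ncard ≤ 3) →
  ∃ c : Sym2 V → Bool, ∀ x y z, G.Adj x y → G.Adj y z → G.Adj x z →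
      ¬ (c s(x, y) = c s(y, z) ∧ c s(y, z) = c s(x, z))

end Pool.Agent.R695.TR
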